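import Pool.Agent.Helper228.MM.Defs

/-!
Definitions for the quartic one-matrix model `P(A) = A^4/4 - A^2` (MP_58f2bb_an).
-/

open MeasureTheory Filter Topology

namespace Pool.Agent.Helper228.MM



theorem deriv_trace_aux (n : ℕ) (A H : Matrix (Fin n) (Fin n) ℂ) (k : ℕ) :
    ∀ X : Matrix (Fin n) (Fin n) ℂ,
    HasDerivAt (fun t : ℝ => Matrix.trace ((A + (t : ℂ) • H) ^ k * X))
      (∑ l ∈ Finset.range k, Matrix.trace (A ^ l * H * A ^ (k - 1 - l) * X)) 0 := by
  induction k with
  | zero =>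
    intro X
    rw [Finset.range_zero, Finset.sum_empty]
    have h1 : (fun t : ℝ => Matrix.trace ((A + (t : ℂ) • H) ^ 0 * X)) =
        fun _ => Matrix.trace X := by
      funext t
      rw [pow_zero, one_mul]
    rw [h1]
    exact hasDerivAt_const _ _
  | succ k ih =>
    intro X
    have h1 : (fun t : ℝ => Matrix.trace ((A + (t : ℂ) • H) ^ (k + 1) * X)) =
        fun t : ℝ => Matrix.trace ((A + (t : ℂ) • H) ^ k * (A * X)) +
          (t : ℂ) * Matrix.trace ((A + (t : ℂ) • H) ^ k * (H * X)) := by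
      funext t
      rw [pow_succ, mul_assoc, add_mul, mul_add, Matrix.trace_add, smul_mul_assoc, mul_smul_comm,
        Matrix.trace_smul, smul_eq_mul]
    rw [h1]
    have h2 : HasDerivAt (fun t : ℝ => (t : ℂ)) 1 0 := Complex.ofRealCLM.hasDerivAt
    have h3 := (ih (A * X)).add (h2.mul (ih (H * X)))
    have h4 : (∑ l ∈ Finset.range k, Matrix.trace (A ^ l * H * A ^ (k - 1 - l) * (A * X))) +
        (1 * Matrix.trace ((A + ((0 : ℝ) : ℂ) • H) ^ k * (H * X)) + ((0 : ℝ) : ℂ) *
          ∑ l ∈ Finset.range k, Matrix.trace (A ^ l * H * A ^ (k - 1 - l) * (H * X))) =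
        ∑ l ∈ Finset.range (k + 1), Matrix.trace (A ^ l * H * A ^ (k + 1 - 1 - l) * X) := by
      rw [Finset.sum_range_succ, Complex.ofReal_zero, zero_smul, add_zero, one_mul, zero_mul,
        add_zero]
      congr 1
      · refine Finset.sum_congr rfl (fun l hl => ?_)
        have hl' := Finset.mem_range.1 hl
        have h5 : k + 1 - 1 - l = (k - 1 - l) + 1 := by omega
        rw [h5, pow_succ A (k - 1 - l)]
        congr 1
        simp only [mul_assoc]
      · have h5 : k + 1 - 1 - k = 0 := by omega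
        rw [h5, pow_zero, mul_one, mul_assoc]
    rw [← h4]
    exact h3

theorem deriv_trace_aux2 (n : ℕ) (x v : Fin n → Fin n → ℝ) (t : ℝ) :
    herm n (x + t • v) = herm n x + (t : ℂ) • herm n v := by
  ext j k
  show ((1 + Complex.I) * (((x j k + t * v j k : ℝ)) : ℂ) +
    (1 - Complex.I) * (((x k j + t * v k j : ℝ)) : ℂ)) / 2 =
    ((1 + Complex.I) * (x j k : ℂ) + (1 - Complex.I) * (x k j : ℂ)) / 2 +
    (t : ℂ) * (((1 + Complex.I) * (v j k : ℂ) + (1 - Complex.I) * (v k j : ℂ)) / 2)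
  push_cast
  ring

theorem deriv_trace (n k : ℕ) (x v : Fin n → Fin n → ℝ) (X : Matrix (Fin n) (Fin n) ℂ) :
    HasDerivAt (fun t : ℝ => Matrix.trace (herm n (x + t • v) ^ k * X))
      (∑ l ∈ Finset.range k,
        Matrix.trace (herm n x ^ l * herm n v * herm n x ^ (k - 1 - l) * X)) 0 := by
  have h1 : (fun t : ℝ => Matrix.trace (herm n (x + t • v) ^ k * X)) =
      fun t : ℝ => Matrix.trace ((herm n x + (t : ℂ) • herm n v) ^ k * X) := by
    funext t
    rw [deriv_trace_aux2]
  rw [h1]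
  exact deriv_trace_aux n (herm n x) (herm n v) k X

end Pool.Agent.Helper228.MM
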