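import Pool.Agent.Helper228.MM.Defs

/-!
Definitions for the quartic one-matrix model `P(A) = A^4/4 - A^2` (MP_58f2bb_an).
-/

open MeasureTheory Filter Topology

namespace Pool.Agent.Helper228.MM



theorem mean_ineq_pt (a b : ℝ) (l m : ℕ) (h : Even (l + m)) :
    a ^ l * b ^ m ≤ a ^ (l + m) + b ^ (l + m) := by
  have h1 : a ^ l * b ^ m ≤ |a| ^ l * |b| ^ m := by
    rw [← abs_pow, ← abs_pow, ← abs_mul]
    exact le_abs_self _
  have ha : a ^ (l + m) = |a| ^ (l + m) := (h.pow_abs a).symm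
  have hb : b ^ (l + m) = |b| ^ (l + m) := (h.pow_abs b).symm
  rw [ha, hb]
  refine h1.trans ?_
  have ha0 := abs_nonneg a
  have hb0 := abs_nonneg b
  rcases le_total |a| |b| with hab | hab
  · have h2 : |a| ^ l * |b| ^ m ≤ |b| ^ l * |b| ^ m := by gcongr
    rw [← pow_add] at h2
    have := pow_nonneg ha0 (l + m)
    linarith
  · have h2 : |a| ^ l * |b| ^ m ≤ |a| ^ l * |a| ^ m := by gcongr
    rw [← pow_add] at h2
    have := pow_nonneg hb0 (l + m)
    linarith

theorem mean_ineq (n : ℕ) (lam : Fin n → ℝ) :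
    (∀ l m, Even (l + m) → ((∑ j, lam j ^ l) / n) * ((∑ j, lam j ^ m) / n)
        ≤ 2 * ((∑ j, lam j ^ (l + m)) / n)) ∧
    (∀ k, ((∑ j, lam j ^ k) / n) ^ 2 ≤ (∑ j, lam j ^ (2 * k)) / n) ∧
    (∀ k, 0 ≤ (∑ j, lam j ^ (2 * k)) / (n : ℝ)) := by
  rcases Nat.eq_zero_or_pos n with hn | hn
  · subst hn
    refine ⟨?_, ?_, ?_⟩ <;> intros <;> simp
  have hn0 : (0 : ℝ) < n := by exact_mod_cast hn
  refine ⟨?_, ?_, ?_⟩
  · intro l m hlm
    have h1 : (∑ j, lam j ^ l) * (∑ j, lam j ^ m) ≤ 2 * n * ∑ j, lam j ^ (l + m) := by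
      rw [Finset.sum_mul_sum]
      calc ∑ i, ∑ j, lam i ^ l * lam j ^ m ≤ ∑ i, ∑ j, (lam i ^ (l + m) + lam j ^ (l + m)) := by
            apply Finset.sum_le_sum
            intro i _
            apply Finset.sum_le_sum
            intro j _
            exact mean_ineq_pt _ _ _ _ hlm
        _ = 2 * n * ∑ j, lam j ^ (l + m) := by
            simp only [Finset.sum_add_distrib, Finset.sum_const, Finset.card_univ,
              Fintype.card_fin, nsmul_eq_mul, ← Finset.mul_sum]
            ring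
    rw [div_mul_div_comm, div_le_iff₀ (by positivity)]
    refine h1.trans (le_of_eq ?_)
    field_simp
  · intro k
    have h1 := sq_sum_le_card_mul_sum_sq (s := Finset.univ) (f := fun j => lam j ^ k)
    rw [Finset.card_univ, Fintype.card_fin] at h1
    have h2 : ∑ j, lam j ^ (2 * k) = ∑ j, (lam j ^ k) ^ 2 := by
      apply Finset.sum_congr rfl
      intro j _
      rw [← pow_mul, mul_comm]
    rw [h2, div_pow, div_le_div_iff₀ (by positivity) hn0]
    nlinarith
  · intro k
    apply div_nonneg _ hn0.le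
    apply Finset.sum_nonneg
    intro j _
    rw [pow_mul]
    positivity

end Pool.Agent.Helper228.MM
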