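import Pool.Agent.Helper228.MM.Defs
import Pool.Agent.Helper228.MM.P_mean_ineq

open MeasureTheory Filter Topology

namespace Pool.Agent.Helper228.MM

theorem mean_ineq_b (n : ℕ) (lam : Fin n → ℝ) :
    (∀ l m, Even (l + m) → ((∑ j, lam j ^ l) / n) * ((∑ j, lam j ^ m) / n)
        ≤ 2 * ((∑ j, lam j ^ (l + m)) / n)) ∧
    (∀ k, ((∑ j, lam j ^ k) / n) ^ 2 ≤ (∑ j, lam j ^ (2 * k)) / n) ∧
    (∀ k, 0 ≤ (∑ j, lam j ^ (2 * k)) / (n : ℝ)) := mean_ineq n lam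

end Pool.Agent.Helper228.MM
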