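import Pool.Agent.Helper228.MM.Defs
import Pool.Agent.Helper228.MM.P_mean_ineq_b

/-!
Definitions for the quartic one-matrix model `P(A) = A^4/4 - A^2` (MP_58f2bb_an).
-/

open MeasureTheory Filter Topology

namespace Pool.Agent.Helper228.MM



theorem det_bound (j : ℕ) : ∃ K : ℝ, 0 ≤ K ∧ ∀ n : ℕ, 1 ≤ n → ∀ lam : Fin n → ℝ,
    (∀ i ≤ 2 * j + 1, |Sk (fun i => (∑ m, lam m ^ i) / (n : ℝ)) i| ≤ 1) →
      (∑ m, lam m ^ (2 * j)) / (n : ℝ) ≤ K := by
  induction j using Nat.twoStepInduction with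
  | zero =>
    refine ⟨1, zero_le_one, fun n hn lam _ => ?_⟩
    have hn' : (n : ℝ) ≠ 0 := by positivity
    simp [hn']
  | one =>
    refine ⟨3, by norm_num, fun n hn lam h => ?_⟩
    have hn' : (n : ℝ) ≠ 0 := by positivity
    have h1 := h 1 (by norm_num)
    have h2 := (mean_ineq_b n lam).2.1 2
    have h0 : (∑ m, lam m ^ 0) / (n : ℝ) = 1 := by simp [hn']
    rw [Sk, Finset.sum_range_one] at h1
    simp only [Nat.sub_self, h0] at h1
    rw [abs_le] at h1
    norm_num at h1 h2 ⊢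
    set t2 : ℝ := (∑ m, lam m ^ 2) / (n : ℝ) with ht2
    set t4 : ℝ := (∑ m, lam m ^ 4) / (n : ℝ) with ht4
    by_contra hcon
    push Not at hcon
    nlinarith [h1.1, h1.2]
  | more j ih1 ih2 =>
    obtain ⟨K1, hK1, h1⟩ := ih1
    obtain ⟨K2, hK2, h2⟩ := ih2
    refine ⟨2 * (2 * j + 1) * K1 + 2 * K2 + 1, by positivity, fun n hn lam h => ?_⟩
    have a1 := h1 n hn lam (fun i hi => h i (by omega))
    have a2 := h2 n hn lam (fun i hi => h i (by omega))
    have a3 := h (2 * j + 1) (by omega)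
    obtain ⟨m1, m2, m3⟩ := mean_ineq_b n lam
    have a4 : ∀ l ∈ Finset.range (2 * j + 1),
        (fun i => (∑ m, lam m ^ i) / (n : ℝ)) l *
          (fun i => (∑ m, lam m ^ i) / (n : ℝ)) (2 * j + 1 - 1 - l) ≤ 2 * K1 := by
      intro l hl
      have hl' := Finset.mem_range.1 hl
      have e1 : l + (2 * j + 1 - 1 - l) = 2 * j := by omega
      have a5 := m1 l (2 * j + 1 - 1 - l) (by rw [e1]; exact even_two_mul j)
      rw [e1] at a5
      show ((∑ m, lam m ^ l) / (n : ℝ)) * ((∑ m, lam m ^ (2 * j + 1 - 1 - l)) / (n : ℝ)) ≤ _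
      linarith
    have a6 := Finset.sum_le_sum a4
    rw [Finset.sum_const, Finset.card_range, nsmul_eq_mul] at a6
    rw [Sk, abs_le] at a3
    have a7 := a3.1
    have e2 : 2 * j + 1 + 3 = 2 * (j + 2) := by ring
    have e3 : 2 * j + 1 + 1 = 2 * (j + 1) := by ring
    simp only [e2, e3] at a7
    rw [show ((2 * j + 1 : ℕ) : ℝ) = 2 * (j : ℝ) + 1 by push_cast; ring] at a6
    have e4 : (2 * (j : ℝ) + 1) * (2 * K1) = 2 * (2 * j + 1) * K1 := by ring
    rw [e4] at a6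
    linarith

end Pool.Agent.Helper228.MM
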