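import Pool.Agent.Helper228.MM.Defs

/-!
Definitions for the quartic one-matrix model `P(A) = A^4/4 - A^2` (MP_58f2bb_an).
-/

open MeasureTheory Filter Topology

namespace Pool.Agent.Helper228.MM



theorem fin_approx_id (z l : ℂ) (hz : z ≠ 0) (hl : z - l ≠ 0) (K : ℕ) :
    1 / (z - l) - ∑ k ∈ Finset.range K, l ^ k / z ^ (k + 1) = l ^ K / (z ^ K * (z - l)) := by
  induction K with
  | zero => simp
  | succ K ih =>
    rw [Finset.sum_range_succ, ← sub_sub, ih]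
    field_simp
    ring

theorem fin_approx (n : ℕ) (hn : 1 ≤ n) (lam : Fin n → ℝ) (z : ℂ) (hz : 0 < z.im) (j : ℕ) :
    ‖(∑ m, 1 / (z - (lam m : ℂ))) / n - ∑ k ∈ Finset.range (2 * j),
        ((((∑ m, lam m ^ k) / (n : ℝ) : ℝ)) : ℂ) / z ^ (k + 1)‖
      ≤ ((∑ m, lam m ^ (2 * j)) / (n : ℝ)) / (‖z‖ ^ (2 * j) * z.im) := by
  have hz0 : z ≠ 0 := by
    rintro rfl
    simp at hz
  have hzl : ∀ l : ℝ, z - (l : ℂ) ≠ 0 := by
    intro l h
    have := congrArg Complex.im h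
    simp at this
    linarith
  have him : ∀ l : ℝ, z.im ≤ ‖z - (l : ℂ)‖ := by
    intro l
    have h1 := Complex.abs_im_le_norm (z - (l : ℂ))
    have h2 : (z - (l : ℂ)).im = z.im := by simp
    rw [h2, abs_of_pos hz] at h1
    exact h1
  have hn0 : (0 : ℝ) < n := by exact_mod_cast hn
  have hnC : (n : ℂ) ≠ 0 := by exact_mod_cast hn0.ne'
  have hkey : (∑ m, 1 / (z - (lam m : ℂ))) / n - ∑ k ∈ Finset.range (2 * j),
        ((((∑ m, lam m ^ k) / (n : ℝ) : ℝ)) : ℂ) / z ^ (k + 1) =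
      (∑ m, (lam m : ℂ) ^ (2 * j) / (z ^ (2 * j) * (z - (lam m : ℂ)))) / n := by
    have h1 : ∀ m, (lam m : ℂ) ^ (2 * j) / (z ^ (2 * j) * (z - (lam m : ℂ))) =
        1 / (z - (lam m : ℂ)) - ∑ k ∈ Finset.range (2 * j), (lam m : ℂ) ^ k / z ^ (k + 1) :=
      fun m => (fin_approx_id z (lam m) hz0 (hzl _) (2 * j)).symm
    rw [Finset.sum_congr rfl (fun m _ => h1 m), Finset.sum_sub_distrib, sub_div, Finset.sum_comm,
      Finset.sum_div (Finset.range (2 * j))]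
    have h2 : ∀ k, ((((∑ m, lam m ^ k) / (n : ℝ) : ℝ)) : ℂ) / z ^ (k + 1) =
        (∑ m, (lam m : ℂ) ^ k / z ^ (k + 1)) / n := by
      intro k
      push_cast
      rw [← Finset.sum_div]
      ring
    rw [Finset.sum_congr rfl (fun k _ => h2 k)]
  rw [hkey, norm_div, Complex.norm_natCast, div_div, div_le_div_iff₀ hn0 (by positivity)]
  have hsum : ‖∑ m, (lam m : ℂ) ^ (2 * j) / (z ^ (2 * j) * (z - (lam m : ℂ)))‖ ≤
      (∑ m, lam m ^ (2 * j)) / (‖z‖ ^ (2 * j) * z.im) := by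
    refine (norm_sum_le _ _).trans ?_
    rw [Finset.sum_div]
    refine Finset.sum_le_sum (fun m _ => ?_)
    have hzn : 0 < ‖z‖ := norm_pos_iff.mpr hz0
    rw [norm_div, norm_mul, norm_pow, norm_pow, Complex.norm_real, Real.norm_eq_abs, pow_mul,
      sq_abs, ← pow_mul]
    apply div_le_div_of_nonneg_left
    · rw [pow_mul]
      positivity
    · positivity
    · exact mul_le_mul_of_nonneg_left (him _) (by positivity)
  have hzn : 0 < ‖z‖ := norm_pos_iff.mpr hz0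
  rw [le_div_iff₀ (by positivity)] at hsum
  calc ‖∑ m, (lam m : ℂ) ^ (2 * j) / (z ^ (2 * j) * (z - (lam m : ℂ)))‖ *
        ((n : ℝ) * (‖z‖ ^ (2 * j) * z.im))
      = (‖∑ m, (lam m : ℂ) ^ (2 * j) / (z ^ (2 * j) * (z - (lam m : ℂ)))‖ *
        (‖z‖ ^ (2 * j) * z.im)) * n := by ring
    _ ≤ (∑ m, lam m ^ (2 * j)) * n := mul_le_mul_of_nonneg_right hsum hn0.le

end Pool.Agent.Helper228.MM
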