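import Pool.Agent.Helper228.MM.Defs

/-!
Definitions for the quartic one-matrix model `P(A) = A^4/4 - A^2` (MP_58f2bb_an).
-/

open MeasureTheory Filter Topology

namespace Pool.Agent.Helper228.MM



theorem fin_deriv_avg (n : ℕ) (hn : 1 ≤ n) (a : Fin n → ℂ) (B : ℝ) (h : ∀ m, ‖a m‖ ≤ B) :
    ‖(∑ m, a m) / (n : ℂ)‖ ≤ B := by
  have hn' : (0 : ℝ) < n := by exact_mod_cast hn
  rw [norm_div, Complex.norm_natCast, div_le_iff₀ hn']
  refine (norm_sum_le _ _).trans ?_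
  refine (Finset.sum_le_sum fun m _ => h m).trans ?_
  simp [mul_comm]

theorem fin_deriv_low (z : ℂ) (hz : 0 < z.im) (l : ℝ) : z.im ≤ ‖z - (l : ℂ)‖ := by
  have h := Complex.abs_im_le_norm (z - (l : ℂ))
  simp only [Complex.sub_im, Complex.ofReal_im, sub_zero] at h
  rwa [abs_of_pos hz] at h

theorem fin_deriv (n : ℕ) (hn : 1 ≤ n) (lam : Fin n → ℝ) (z w : ℂ) (hz : 0 < z.im)
    (hw : 0 < w.im) :
    ‖(∑ m, 1 / (z - (lam m : ℂ))) / (n : ℂ)‖ ≤ 1 / z.im ∧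
    ‖(∑ m, -(1 / (z - (lam m : ℂ)) ^ 2)) / (n : ℂ)‖ ≤ 1 / z.im ^ 2 ∧
    ‖(∑ m, 1 / (w - (lam m : ℂ))) / (n : ℂ) - (∑ m, 1 / (z - (lam m : ℂ))) / (n : ℂ)
        - (w - z) * ((∑ m, -(1 / (z - (lam m : ℂ)) ^ 2)) / (n : ℂ))‖
      ≤ ‖w - z‖ ^ 2 / (z.im ^ 2 * w.im) := by
  refine ⟨?_, ?_, ?_⟩
  · apply fin_deriv_avg n hn
    intro m
    rw [norm_div, norm_one]
    exact one_div_le_one_div_of_le hz (fin_deriv_low z hz (lam m))
  · apply fin_deriv_avg n hn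
    intro m
    rw [norm_neg, norm_div, norm_one, norm_pow]
    exact one_div_le_one_div_of_le (by positivity)
      (pow_le_pow_left₀ hz.le (fin_deriv_low z hz (lam m)) 2)
  · have e : (∑ m, 1 / (w - (lam m : ℂ))) / (n : ℂ) - (∑ m, 1 / (z - (lam m : ℂ))) / (n : ℂ)
        - (w - z) * ((∑ m, -(1 / (z - (lam m : ℂ)) ^ 2)) / (n : ℂ)) =
        (∑ m, (1 / (w - (lam m : ℂ)) - 1 / (z - (lam m : ℂ))
          - (w - z) * (-(1 / (z - (lam m : ℂ)) ^ 2)))) / (n : ℂ) := by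
      rw [Finset.sum_sub_distrib, Finset.sum_sub_distrib, ← Finset.mul_sum, sub_div, sub_div,
        mul_div_assoc]
    rw [e]
    apply fin_deriv_avg n hn
    intro m
    have h1 := fin_deriv_low z hz (lam m)
    have h2 := fin_deriv_low w hw (lam m)
    have hz0 : z - (lam m : ℂ) ≠ 0 := by
      rw [← norm_pos_iff]; linarith
    have hw0 : w - (lam m : ℂ) ≠ 0 := by
      rw [← norm_pos_iff]; linarith
    have e2 : 1 / (w - (lam m : ℂ)) - 1 / (z - (lam m : ℂ))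
          - (w - z) * (-(1 / (z - (lam m : ℂ)) ^ 2)) =
          (w - z) ^ 2 / ((z - (lam m : ℂ)) ^ 2 * (w - (lam m : ℂ))) := by
      field_simp
      ring
    rw [e2, norm_div, norm_pow, norm_mul, norm_pow]
    apply div_le_div_of_nonneg_left (by positivity) (by positivity)
    exact mul_le_mul (pow_le_pow_left₀ hz.le h1 2) h2 hw.le (by positivity)

end Pool.Agent.Helper228.MM
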