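import Pool.Agent.Helper228.MM.Defs
import Pool.Agent.Helper228.MM.P_mean_ineq_b
import Pool.Agent.Helper228.MM.P_det_bound
import Pool.Agent.Helper228.MM.P_fin_approx
import Pool.Agent.Helper228.MM.P_fin_deriv

/-!
Definitions for the quartic one-matrix model `P(A) = A^4/4 - A^2` (MP_58f2bb_an).
-/

open MeasureTheory Filter Topology

namespace Pool.Agent.Helper228.MM



theorem ultra_lim_aux {E : Type*} [TopologicalSpace E] {s : Set E} (hs : IsCompact s) (f : ℕ → E)
    (U : Ultrafilter ℕ) (h : ∀ᶠ N in (U : Filter ℕ), f N ∈ s) :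
    ∃ x, Tendsto f (U : Filter ℕ) (𝓝 x) := by
  obtain ⟨x, -, hx⟩ := hs.ultrafilter_le_nhds (U.map f) (by rw [le_principal_iff]; exact h)
  exact ⟨x, hx⟩

theorem lim_exists (n : ℕ → ℕ) (hn : ∀ N, 1 ≤ n N) (lam : ∀ N, Fin (n N) → ℝ)
    (h : ∀ N : ℕ, ∀ i ≤ N,
      |Sk (fun i => (∑ m, lam N m ^ i) / (n N : ℝ)) i| ≤ 1 / ((N : ℝ) + 1)) :
    ∃ (τ : ℕ → ℝ) (G : ℂ → ℂ), LimData τ G ∧
      ∀ k, ∀ ε > 0, ∃ N, |(∑ m, lam N m ^ k) / (n N : ℝ) - τ k| < ε := by
  set U : Ultrafilter ℕ := Filter.hyperfilter ℕ with hU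
  have hUle : (U : Filter ℕ) ≤ atTop := Nat.hyperfilter_le_atTop
  set M : ℕ → ℕ → ℝ := fun N i => (∑ m, lam N m ^ i) / (n N : ℝ) with hM
  have hSk : ∀ N : ℕ, ∀ i ≤ N, |Sk (M N) i| ≤ 1 / ((N : ℝ) + 1) := h
  have hsq : ∀ N k, M N k ^ 2 ≤ M N (2 * k) := fun N k => (mean_ineq_b (n N) (lam N)).2.1 k
  have hbd : ∀ i, ∃ C, ∀ᶠ N in (U : Filter ℕ), M N i ∈ Set.Icc (-C) C := by
    intro i
    obtain ⟨K, hK0, hK⟩ := det_bound i
    refine ⟨Real.sqrt K, ?_⟩
    have h1 : ∀ᶠ N in (atTop : Filter ℕ), M N i ∈ Set.Icc (-Real.sqrt K) (Real.sqrt K) := by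
      filter_upwards [eventually_ge_atTop (2 * i + 1)] with N hN
      have h2 := hK (n N) (hn N) (lam N) (fun i' hi' => (hSk N i' (by omega)).trans (by
        rw [div_le_one (by positivity)]
        have : (0:ℝ) ≤ N := Nat.cast_nonneg N
        linarith))
      have h3 : M N i ^ 2 ≤ K := (hsq N i).trans h2
      exact abs_le.mp (Real.abs_le_sqrt h3)
    exact h1.filter_mono hUle
  have hτ : ∀ i, ∃ t, Tendsto (fun N => M N i) (U : Filter ℕ) (𝓝 t) := fun i => by
    obtain ⟨C, hC⟩ := hbd i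
    exact ultra_lim_aux isCompact_Icc _ U hC
  choose τ hτ using hτ
  have hG : ∀ z : ℂ, ∃ g : ℂ, 0 < z.im →
      Tendsto (fun N => (∑ m, 1 / (z - (lam N m : ℂ))) / (n N : ℂ)) (U : Filter ℕ) (𝓝 g) := by
    intro z
    by_cases hz : 0 < z.im
    · obtain ⟨g, hg⟩ := ultra_lim_aux (isCompact_closedBall (0 : ℂ) (1 / z.im))
        (fun N => (∑ m, 1 / (z - (lam N m : ℂ))) / (n N : ℂ)) U (by
          refine Eventually.of_forall fun N => ?_
          rw [mem_closedBall_zero_iff]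
          exact (fin_deriv (n N) (hn N) (lam N) z z hz hz).1)
      exact ⟨g, fun _ => hg⟩
    · exact ⟨0, fun h => absurd h hz⟩
  choose G hG using hG
  have hG1 : ∀ z : ℂ, ∃ g : ℂ, 0 < z.im →
      Tendsto (fun N => (∑ m, -(1 / (z - (lam N m : ℂ)) ^ 2)) / (n N : ℂ)) (U : Filter ℕ)
        (𝓝 g) := by
    intro z
    by_cases hz : 0 < z.im
    · obtain ⟨g, hg⟩ := ultra_lim_aux (isCompact_closedBall (0 : ℂ) (1 / z.im ^ 2))
        (fun N => (∑ m, -(1 / (z - (lam N m : ℂ)) ^ 2)) / (n N : ℂ)) U (by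
          refine Eventually.of_forall fun N => ?_
          rw [mem_closedBall_zero_iff]
          exact (fin_deriv (n N) (hn N) (lam N) z z hz hz).2.1)
      exact ⟨g, fun _ => hg⟩
    · exact ⟨0, fun h => absurd h hz⟩
  choose G1 hG1 using hG1
  have hinv : Tendsto (fun N : ℕ => 1 / ((N : ℝ) + 1)) (U : Filter ℕ) (𝓝 0) :=
    tendsto_one_div_add_atTop_nhds_zero_nat.mono_left hUle
  refine ⟨τ, G, ⟨?_, ?_, ?_, ?_, ?_⟩, ?_⟩
  · refine tendsto_nhds_unique (hτ 0) ?_
    have : ∀ N, M N 0 = 1 := by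
      intro N
      have h1 : (n N : ℝ) ≠ 0 := by
        have := hn N
        positivity
      simp only [hM, pow_zero, Finset.sum_const, Finset.card_univ, Fintype.card_fin, nsmul_eq_mul,
        mul_one]
      exact div_self h1
    simp only [this]
    exact tendsto_const_nhds
  · intro k
    have h1 : Tendsto (fun N => Sk (M N) k) (U : Filter ℕ) (𝓝 (Sk τ k)) := by
      unfold Sk
      refine Tendsto.add (Tendsto.sub (tendsto_finsetSum _ fun l _ => ?_) (hτ _)) ?_
      · exact (hτ l).mul (hτ _)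
      · exact (hτ (k + 1)).const_mul 2
    have h2 : Tendsto (fun N => Sk (M N) k) (U : Filter ℕ) (𝓝 0) := by
      refine squeeze_zero_norm' ?_ hinv
      have h3 : ∀ᶠ N in (atTop : Filter ℕ), ‖Sk (M N) k‖ ≤ 1 / ((N : ℝ) + 1) := by
        filter_upwards [eventually_ge_atTop k] with N hN
        exact hSk N k hN
      exact h3.filter_mono hUle
    exact tendsto_nhds_unique h1 h2
  · intro k
    exact le_of_tendsto_of_tendsto' ((hτ k).pow 2) (hτ (2 * k)) fun N => hsq N k
  · intro z hz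
    have hz' : 0 < z.im := hz
    have key : ∀ w : ℂ, 0 < w.im →
        ‖G w - G z - (w - z) * G1 z‖ ≤ ‖w - z‖ ^ 2 / (z.im ^ 2 * w.im) := by
      intro w hw
      refine le_of_tendsto' (((hG w hw).sub (hG z hz')).sub
        ((hG1 z hz').const_mul (w - z))).norm fun N => ?_
      exact (fin_deriv (n N) (hn N) (lam N) z w hz' hw).2.2
    have hd : HasDerivAt G (G1 z) z := by
      rw [hasDerivAt_iff_isLittleO, Asymptotics.isLittleO_iff]
      intro c hc
      have hopen : ∀ᶠ w : ℂ in 𝓝 z, z.im / 2 < w.im := by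
        have : Tendsto (fun w : ℂ => w.im) (𝓝 z) (𝓝 z.im) := Complex.continuous_im.tendsto z
        exact this.eventually (lt_mem_nhds (by linarith))
      have hball : ∀ᶠ w : ℂ in 𝓝 z, ‖w - z‖ ≤ c * z.im ^ 3 / 2 := by
        have h0 : Tendsto (fun w : ℂ => ‖w - z‖) (𝓝 z) (𝓝 0) := by
          have : Tendsto (fun w : ℂ => ‖w - z‖) (𝓝 z) (𝓝 ‖z - z‖) :=
            (continuous_norm.comp (continuous_id.sub continuous_const)).tendsto z
          simpa using this
        exact (h0.eventually (gt_mem_nhds (show (0:ℝ) < c * z.im ^ 3 / 2 by positivity))).mono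
          fun w hw => hw.le
      filter_upwards [hopen, hball] with w hw1 hw2
      have hwim : 0 < w.im := by linarith
      rw [smul_eq_mul]
      refine (key w hwim).trans ?_
      rw [div_le_iff₀ (by positivity)]
      have h5 : c * z.im ^ 3 / 2 ≤ c * (z.im ^ 2 * w.im) := by
        have : z.im ^ 2 * (z.im / 2) ≤ z.im ^ 2 * w.im :=
          mul_le_mul_of_nonneg_left hw1.le (by positivity)
        have := mul_le_mul_of_nonneg_left this hc.le
        nlinarith [this]
      have h6 : ‖w - z‖ * ‖w - z‖ ≤ ‖w - z‖ * (c * (z.im ^ 2 * w.im)) :=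
        mul_le_mul_of_nonneg_left (hw2.trans h5) (norm_nonneg _)
      nlinarith [h6]
    exact hd.differentiableAt.differentiableWithinAt
  · intro z hz j
    refine le_of_tendsto_of_tendsto' (((hG z hz).sub (tendsto_finsetSum _ fun k _ =>
      (((Complex.continuous_ofReal.tendsto _).comp (hτ k)).div_const _))).norm)
      ((hτ (2 * j)).div_const _) fun N => ?_
    exact fin_approx (n N) (hn N) (lam N) z hz j
  · intro k ε hε
    have h1 := (hτ k).eventually (Metric.ball_mem_nhds (τ k) hε)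
    obtain ⟨N, hN⟩ := h1.exists
    exact ⟨N, hN⟩

end Pool.Agent.Helper228.MM
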