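import Pool.Agent.Helper228.MM.Defs

/-!
Definitions for the quartic one-matrix model `P(A) = A^4/4 - A^2` (MP_58f2bb_an).
-/

open MeasureTheory Filter Topology

namespace Pool.Agent.Helper228.MM



theorem gl_a_real {P : Polynomial ℂ} (h0 : 0 < P.degree)
    (hP : ∀ z : ℂ, P.eval z = 0 → z.im = 0) (hd : P.derivative ≠ 0) :
    ∀ z : ℂ, P.derivative.eval z = 0 → z.im = 0 := by
  intro z hz
  have h1 : z ∈ P.derivative.rootSet ℂ := by
    rw [Polynomial.mem_rootSet]
    refine ⟨hd, ?_⟩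
    rw [Polynomial.coe_aeval_eq_eval]
    exact hz
  have h2 := Polynomial.rootSet_derivative_subset_convexHull_rootSet h0 h1
  have h3 : convexHull ℝ (P.rootSet ℂ) ⊆ {z : ℂ | z.im = 0} := by
    apply convexHull_min
    · intro w hw
      rw [Polynomial.mem_rootSet, Polynomial.coe_aeval_eq_eval] at hw
      exact hP w hw.2
    · intro x hx y hy s t _ _ _
      have hx' : x.im = 0 := hx
      have hy' : y.im = 0 := hy
      show (s • x + t • y).im = 0
      simp [hx', hy']
  exact h3 h2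

open Polynomial in
theorem gl_a (a b : ℝ)
    (h : ∀ z : ℂ, 0 < z.im → z ^ 6 - 4 * z ^ 4 - 4 * (a : ℂ) * z + (b : ℂ) ≠ 0) : a = 0 := by
  by_contra ha
  have hac : (a : ℂ) ≠ 0 := by exact_mod_cast ha
  -- all zeros are real
  have hR : ∀ z : ℂ, z ^ 6 - 4 * z ^ 4 - 4 * (a : ℂ) * z + (b : ℂ) = 0 → z.im = 0 := by
    intro z hz
    rcases lt_trichotomy z.im 0 with h1 | h1 | h1
    · exfalso
      apply h ((starRingEnd ℂ) z) (by rw [Complex.conj_im]; linarith)
      have := congrArg (starRingEnd ℂ) hz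
      simpa only [map_add, map_sub, map_mul, map_pow, map_zero, map_ofNat, Complex.conj_ofReal]
        using this
    · exact h1
    · exact absurd hz (h z h1)
  set P : ℂ[X] := X ^ 6 - 4 * X ^ 4 - C (4 * (a : ℂ)) * X + C (b : ℂ) with hPdef
  have hPe : ∀ z : ℂ, P.eval z = z ^ 6 - 4 * z ^ 4 - 4 * (a : ℂ) * z + (b : ℂ) := by
    intro z
    simp [hPdef]
  have hPd : P.derivative = 6 * X ^ 5 - 16 * X ^ 3 - C (4 * (a : ℂ)) := by
    simp only [hPdef, derivative_add, derivative_sub, derivative_mul, derivative_C,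
      derivative_X, derivative_X_pow, derivative_ofNat]
    rw [show (C (((6 : ℕ) : ℂ)) : ℂ[X]) = 6 from map_ofNat C 6,
      show (C (((4 : ℕ) : ℂ)) : ℂ[X]) = 4 from map_ofNat C 4]
    ring
  have hPdeg : P.coeff 6 = 1 := by
    simp [hPdef, coeff_X, coeff_C, coeff_X_pow]
  have hP0 : 0 < P.degree := by
    have h1 : (6 : ℕ) ≤ P.natDegree := by
      apply le_natDegree_of_ne_zero
      rw [hPdeg]; exact one_ne_zero
    apply natDegree_pos_iff_degree_pos.1
    omega
  have hPd0 : P.derivative ≠ 0 := by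
    intro h0
    have h1 := congrArg (eval 0) h0
    rw [hPd] at h1
    simp at h1
    exact ha h1
  have hR1 := gl_a_real hP0 (fun z hz => hR z (by rw [← hPe]; exact hz)) hPd0
  -- the reversed derivative
  set Q : ℂ[X] := 6 - 16 * X ^ 2 - C (4 * (a : ℂ)) * X ^ 5 with hQdef
  have hQe : ∀ z : ℂ, Q.eval z = 6 - 16 * z ^ 2 - 4 * (a : ℂ) * z ^ 5 := by
    intro z
    simp [hQdef]
  have hQd : Q.derivative = - (32 * X) - C (20 * (a : ℂ)) * X ^ 4 := by
    simp only [hQdef, derivative_add, derivative_sub, derivative_mul, derivative_C,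
      derivative_X, derivative_X_pow, derivative_ofNat]
    rw [show (C (((2 : ℕ) : ℂ)) : ℂ[X]) = 2 from map_ofNat C 2,
      show (C (((5 : ℕ) : ℂ)) : ℂ[X]) = 5 from map_ofNat C 5,
      show (C (4 * (a : ℂ)) : ℂ[X]) = 4 * C (a : ℂ) from by
        rw [C_mul]; rw [show (C (4 : ℂ) : ℂ[X]) = 4 from map_ofNat C 4],
      show (C (20 * (a : ℂ)) : ℂ[X]) = 20 * C (a : ℂ) from by
        rw [C_mul]; rw [show (C (20 : ℂ) : ℂ[X]) = 20 from map_ofNat C 20]]
    ring
  have hQr : ∀ z : ℂ, Q.eval z = 0 → z.im = 0 := by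
    intro z hz
    rw [hQe] at hz
    have hz0 : z ≠ 0 := by
      rintro rfl
      norm_num at hz
    have h1 : P.derivative.eval z⁻¹ = 0 := by
      rw [hPd]
      simp only [eval_sub, eval_mul, eval_pow, eval_X, eval_C, eval_ofNat]
      have : 6 * z⁻¹ ^ 5 - 16 * z⁻¹ ^ 3 - 4 * (a : ℂ)
          = (6 - 16 * z ^ 2 - 4 * (a : ℂ) * z ^ 5) * z⁻¹ ^ 5 := by
        field_simp
      rw [this, hz, zero_mul]
    have h2 := hR1 _ h1
    rw [Complex.inv_im] at h2
    have h3 : Complex.normSq z ≠ 0 := by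
      rw [Ne, Complex.normSq_eq_zero]; exact hz0
    rw [div_eq_zero_iff] at h2
    rcases h2 with h2 | h2
    · linarith
    · exact absurd h2 h3
  have hQ0 : 0 < Q.degree := by
    have h1 : (5 : ℕ) ≤ Q.natDegree := by
      apply le_natDegree_of_ne_zero
      have : Q.coeff 5 = - (4 * (a : ℂ)) := by
        have h7 : (C 4 * C (a : ℂ) * X ^ 5 : ℂ[X]).coeff 5 = 4 * a := by
          rw [← C_mul, coeff_C_mul_X_pow]
          simp
        simp [hQdef, coeff_X_pow, h7]
      rw [this]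
      exact neg_ne_zero.2 (mul_ne_zero (by norm_num) hac)
    apply natDegree_pos_iff_degree_pos.1
    omega
  have hQd0 : Q.derivative ≠ 0 := by
    intro h0
    have h1 := congrArg (eval 1) h0
    have h2 := congrArg (eval 2) h0
    rw [hQd] at h1 h2
    simp only [eval_sub, eval_neg, eval_mul, eval_pow, eval_X, eval_C, eval_ofNat, eval_zero] at h1 h2
    have h3 : (a : ℂ) = -(32 / 20) := by linear_combination (-1 / 20 : ℂ) * h1
    rw [h3] at h2
    norm_num at h2
  have hR2 := gl_a_real hQ0 hQr hQd0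
  -- a nonreal zero
  obtain ⟨y0, hy0⟩ := IsAlgClosed.exists_pow_nat_eq (-8 / (5 * (a : ℂ))) (n := 3) (by norm_num)
  have hroot : ∀ y : ℂ, y ^ 3 = -8 / (5 * (a : ℂ)) → y.im = 0 := by
    intro y hy
    apply hR2
    rw [hQd]
    simp only [eval_sub, eval_neg, eval_mul, eval_pow, eval_X, eval_C, eval_ofNat]
    have h1 : 5 * (a : ℂ) * y ^ 3 = -8 := by
      rw [hy]; field_simp
    linear_combination (-4 * y) * h1
  have h3 := hroot y0 hy0
  set w : ℂ := ⟨-1 / 2, Real.sqrt 3 / 2⟩ with hw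
  have hs : Real.sqrt 3 * Real.sqrt 3 = 3 := Real.mul_self_sqrt (by norm_num)
  have hw3 : w ^ 3 = 1 := by
    apply Complex.ext
    · simp only [hw, pow_succ, pow_zero, one_mul, Complex.mul_re, Complex.mul_im, Complex.one_re]
      linear_combination (3 / 8 : ℝ) * hs
    · simp only [hw, pow_succ, pow_zero, one_mul, Complex.mul_re, Complex.mul_im, Complex.one_im]
      linear_combination (-Real.sqrt 3 / 8 : ℝ) * hs
  have h4 := hroot (w * y0) (by rw [mul_pow, hw3, one_mul, hy0])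
  rw [Complex.mul_im, h3, mul_zero, zero_add] at h4
  have h5 : y0.re = 0 := by
    rcases mul_eq_zero.1 h4 with h5 | h5
    · exfalso
      have : Real.sqrt 3 / 2 = 0 := h5
      have h6 : (0 : ℝ) < Real.sqrt 3 := Real.sqrt_pos.2 (by norm_num)
      linarith
    · exact h5
  have h6 : y0 = 0 := Complex.ext h5 h3
  rw [h6] at hy0
  have h7 : (-8 : ℂ) / (5 * (a : ℂ)) ≠ 0 := div_ne_zero (by norm_num) (mul_ne_zero (by norm_num) hac)
  exact h7 (by rw [← hy0]; norm_num)

end Pool.Agent.Helper228.MM
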