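import Pool.Agent.Helper228.MM.Defs

/-!
Definitions for the quartic one-matrix model `P(A) = A^4/4 - A^2` (MP_58f2bb_an).
-/

open MeasureTheory Filter Topology

namespace Pool.Agent.Helper228.MM



theorem gl_b_aux (b : ℝ)
    (h : ∀ z : ℂ, 0 < z.im → z ^ 6 - 4 * z ^ 4 + (b : ℂ) ≠ 0) (w : ℂ)
    (hw : w ^ 3 - 4 * w ^ 2 + (b : ℂ) = 0) : w.im = 0 ∧ 0 ≤ w.re := by
  obtain ⟨z, hz⟩ := IsAlgClosed.exists_pow_nat_eq w (n := 2) (by norm_num)
  have h0 : z.im = 0 := by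
    by_contra hne
    rcases lt_or_gt_of_ne hne with h1 | h1
    · apply h (-z) (by simpa using h1)
      rw [← hw, ← hz]; ring
    · apply h z h1
      rw [← hw, ← hz]; ring
  have hzr : z = (z.re : ℂ) := by
    apply Complex.ext <;> simp [h0]
  have : w = ((z.re ^ 2 : ℝ) : ℂ) := by
    rw [← hz]; push_cast; rw [← hzr]
  constructor
  · rw [this]; exact Complex.ofReal_im _
  · rw [this, Complex.ofReal_re]; positivity

theorem gl_b (b : ℝ)
    (h : ∀ z : ℂ, 0 < z.im → z ^ 6 - 4 * z ^ 4 + (b : ℂ) ≠ 0) : b = 0 := by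
  have H := gl_b_aux b h
  obtain ⟨w1, hw1⟩ : ∃ w : ℂ, w ^ 3 - 4 * w ^ 2 + (b : ℂ) = 0 := by
    have hd : (Polynomial.X ^ 3 - 4 * Polynomial.X ^ 2 + Polynomial.C (b : ℂ)).degree ≠ 0 := by
      have : (Polynomial.X ^ 3 - 4 * Polynomial.X ^ 2 + Polynomial.C (b : ℂ)).degree = 3 := by
        compute_degree!
      rw [this]; norm_num
    obtain ⟨w, hw⟩ := IsAlgClosed.exists_root _ hd
    refine ⟨w, ?_⟩
    simpa [Polynomial.IsRoot] using hw
  obtain ⟨s, hs⟩ := IsAlgClosed.exists_pow_nat_eq ((w1 - 4) ^ 2 - 4 * (w1 * (w1 - 4))) (n := 2)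
    (by norm_num)
  have hb : (b : ℂ) = - w1 ^ 2 * (w1 - 4) := by linear_combination hw1
  have hfac : ∀ w : ℂ, w ^ 3 - 4 * w ^ 2 + (b : ℂ) =
      (w - w1) * (w ^ 2 + (w1 - 4) * w + w1 * (w1 - 4)) := by
    intro w; rw [hb]; ring
  have h2 := H ((-(w1 - 4) + s) / 2) (by rw [hfac]; linear_combination (((-(w1 - 4) + s) / 2) - w1) / 4 * hs)
  have h3 := H ((-(w1 - 4) - s) / 2) (by rw [hfac]; linear_combination (((-(w1 - 4) - s) / 2) - w1) / 4 * hs)
  have h1 := H w1 hw1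
  set w2 := (-(w1 - 4) + s) / 2 with hw2
  set w3 := (-(w1 - 4) - s) / 2 with hw3
  have e1 : w1 + w2 + w3 = 4 := by rw [hw2, hw3]; ring
  have e2 : w2 * w3 = w1 * (w1 - 4) := by rw [hw2, hw3]; linear_combination -(1/4) * hs
  have r1 : w1.re + w2.re + w3.re = 4 := by
    have := congrArg Complex.re e1
    simpa using this
  have r2 : w2.re * w3.re = w1.re * (w1.re - 4) := by
    have := congrArg Complex.re e2
    simpa [Complex.mul_re, h1.1, h2.1, h3.1] using this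
  have r3 : b = - w1.re ^ 2 * (w1.re - 4) := by
    have hw1r : w1 = (w1.re : ℂ) := by
      apply Complex.ext <;> simp [h1.1]
    rw [hw1r] at hb
    exact_mod_cast hb
  have p1 : 0 ≤ w2.re * w3.re := mul_nonneg h2.2 h3.2
  have p2 : w1.re * (w1.re - 4) ≤ 0 := by
    apply mul_nonpos_of_nonneg_of_nonpos h1.2
    have := h2.2; have := h3.2; linarith
  have p3 : w1.re * (w1.re - 4) = 0 := by linarith
  rw [r3]; linear_combination (-w1.re) * p3

end Pool.Agent.Helper228.MM
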