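import Pool.Agent.Helper228.MM.Defs

/-!
Definitions for the quartic one-matrix model `P(A) = A^4/4 - A^2` (MP_58f2bb_an).
-/

open MeasureTheory Filter Topology

namespace Pool.Agent.Helper228.MM


theorem lim_growth_conv (k : ℕ) :
    ∑ l ∈ Finset.range k, catalan l * catalan (k - 1 - l) ≤ catalan k := by
  cases k with
  | zero => simp
  | succ n =>
    rw [catalan_succ', Finset.Nat.sum_antidiagonal_eq_sum_range_succ
      (fun a b => catalan a * catalan b)]
    exact le_of_eq (Finset.sum_congr rfl fun l _ => by simp)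

theorem lim_growth_mono (k : ℕ) : catalan k ≤ catalan (k + 1) := by
  rw [catalan_succ']
  have h := Finset.single_le_sum (f := fun ij : ℕ × ℕ => catalan ij.1 * catalan ij.2)
    (fun i _ => Nat.zero_le _) (Finset.HasAntidiagonal.mem_antidiagonal.2 (zero_add k) :
      ((0, k) : ℕ × ℕ) ∈ Finset.HasAntidiagonal.antidiagonal k)
  simpa using h

theorem lim_growth_cat (k : ℕ) : catalan k ≤ 4 ^ k := by
  rw [catalan_eq_centralBinom_div]
  calc Nat.centralBinom k / (k + 1) ≤ Nat.centralBinom k := Nat.div_le_self _ _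
    _ = (2 * k).choose k := Nat.centralBinom_eq_two_mul_choose k
    _ ≤ 2 ^ (2 * k) := Nat.choose_le_two_pow _ _
    _ = 4 ^ k := by rw [pow_mul]; norm_num

theorem lim_growth (τ : ℕ → ℝ) (G : ℂ → ℂ) (h : LimData τ G) (k : ℕ) : |τ k| ≤ 8 ^ k := by
  have key : ∀ k, |τ k| ≤ (catalan k : ℝ) * 2 ^ k := by
    intro k
    induction k using Nat.strong_induction_on with
    | _ k ih =>
    have h1 := h.loop 1
    have h2 : τ 1 ^ 2 ≤ τ 2 := h.sq 1
    have h4 : τ 2 ^ 2 ≤ τ 4 := h.sq 2
    have h0 := h.zero
    simp only [Sk, Finset.range_one, Finset.sum_singleton, Nat.sub_self, Nat.sub_zero, h0] at h1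
    norm_num at h1
    have h20 : 0 ≤ τ 2 := le_trans (sq_nonneg _) h2
    have h23 : τ 2 ≤ 3 := by nlinarith
    rcases k with _ | _ | _ | k
    · rw [h0]; simp
    · have : |τ 1| ≤ 2 := by
        apply abs_le_of_sq_le_sq _ (by norm_num)
        linarith
      simpa using this
    · have e : (catalan (0 + 1 + 1) : ℝ) = 2 := by simp [catalan_two]
      rw [e, abs_of_nonneg h20]
      norm_num
      linarith
    · have hl := h.loop k
      unfold Sk at hl
      have e1 : τ (k + 3) = (∑ l ∈ Finset.range k, τ l * τ (k - 1 - l)) + 2 * τ (k + 1) := by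
        linarith
      have e2 : |∑ l ∈ Finset.range k, τ l * τ (k - 1 - l)| ≤ (catalan k : ℝ) * 2 ^ k := by
        calc |∑ l ∈ Finset.range k, τ l * τ (k - 1 - l)|
            ≤ ∑ l ∈ Finset.range k, |τ l * τ (k - 1 - l)| := Finset.abs_sum_le_sum_abs _ _
          _ ≤ ∑ l ∈ Finset.range k, ((catalan l : ℝ) * catalan (k - 1 - l)) * 2 ^ k := by
              refine Finset.sum_le_sum fun l hl => ?_
              have hlk := Finset.mem_range.1 hl
              rw [abs_mul]
              calc |τ l| * |τ (k - 1 - l)| ≤ ((catalan l : ℝ) * 2 ^ l) *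
                    ((catalan (k - 1 - l) : ℝ) * 2 ^ (k - 1 - l)) :=
                    mul_le_mul (ih l (by omega)) (ih (k - 1 - l) (by omega)) (abs_nonneg _)
                      (by positivity)
                _ = ((catalan l : ℝ) * catalan (k - 1 - l)) * 2 ^ (l + (k - 1 - l)) := by
                    rw [pow_add]; ring
                _ ≤ ((catalan l : ℝ) * catalan (k - 1 - l)) * 2 ^ k := by
                    apply mul_le_mul_of_nonneg_left _ (by positivity)
                    exact pow_le_pow_right₀ (by norm_num) (by omega)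
          _ = ((∑ l ∈ Finset.range k, catalan l * catalan (k - 1 - l) : ℕ) : ℝ) * 2 ^ k := by
              push_cast
              rw [Finset.sum_mul]
          _ ≤ (catalan k : ℝ) * 2 ^ k := by
              apply mul_le_mul_of_nonneg_right _ (by positivity)
              exact_mod_cast lim_growth_conv k
      have e3 := ih (k + 1) (by omega)
      have m1 : (catalan k : ℝ) ≤ catalan (k + 3) := by
        exact_mod_cast (lim_growth_mono k).trans ((lim_growth_mono (k + 1)).trans
          (lim_growth_mono (k + 2)))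
      have m2 : (catalan (k + 1) : ℝ) ≤ catalan (k + 3) := by
        exact_mod_cast (lim_growth_mono (k + 1)).trans (lim_growth_mono (k + 2))
      have hp : (0 : ℝ) < 2 ^ k := by positivity
      show |τ (k + 3)| ≤ (catalan (k + 3) : ℝ) * 2 ^ (k + 3)
      rw [e1]
      calc |(∑ l ∈ Finset.range k, τ l * τ (k - 1 - l)) + 2 * τ (k + 1)|
          ≤ |∑ l ∈ Finset.range k, τ l * τ (k - 1 - l)| + |2 * τ (k + 1)| := abs_add_le _ _
        _ ≤ (catalan k : ℝ) * 2 ^ k + 2 * ((catalan (k + 1) : ℝ) * 2 ^ (k + 1)) := by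
            rw [abs_mul, abs_of_pos (by norm_num : (0 : ℝ) < 2)]
            linarith
        _ ≤ (catalan (k + 3) : ℝ) * 2 ^ k + 2 * ((catalan (k + 3) : ℝ) * 2 ^ (k + 1)) := by
            have := mul_le_mul_of_nonneg_right m1 hp.le
            have := mul_le_mul_of_nonneg_right m2 (by positivity : (0 : ℝ) ≤ 2 ^ (k + 1))
            linarith
        _ ≤ (catalan (k + 3) : ℝ) * 2 ^ (k + 3) := by
            have : 0 ≤ (catalan (k + 3) : ℝ) * 2 ^ k := by positivity
            have p1 : (2 : ℝ) ^ (k + 1) = 2 * 2 ^ k := by ring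
            have p3 : (2 : ℝ) ^ (k + 3) = 8 * 2 ^ k := by ring
            rw [p1, p3]
            nlinarith
  calc |τ k| ≤ (catalan k : ℝ) * 2 ^ k := key k
    _ ≤ (4 : ℝ) ^ k * 2 ^ k := by
        apply mul_le_mul_of_nonneg_right _ (by positivity)
        exact_mod_cast lim_growth_cat k
    _ = 8 ^ k := by rw [← mul_pow]; norm_num

end Pool.Agent.Helper228.MM
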