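import Pool.Agent.Helper228.MM.Defs
import Pool.Agent.Helper228.MM.P_lim_growth

/-!
Definitions for the quartic one-matrix model `P(A) = A^4/4 - A^2` (MP_58f2bb_an).
-/

open MeasureTheory Filter Topology

namespace Pool.Agent.Helper228.MM



theorem lim_sum (τ : ℕ → ℝ) (G : ℂ → ℂ) (h : LimData τ G) (z : ℂ) (hz : 0 < z.im)
    (hz8 : 8 < ‖z‖) : HasSum (fun k : ℕ => (τ k : ℂ) / z ^ (k + 1)) (G z) := by
  have hnz : 0 < ‖z‖ := by linarith
  have hr : 8 / ‖z‖ < 1 := (div_lt_one hnz).2 hz8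
  have hr0 : 0 ≤ 8 / ‖z‖ := by positivity
  have hsum : Summable (fun k : ℕ => (τ k : ℂ) / z ^ (k + 1)) := by
    refine Summable.of_norm_bounded (g := fun k : ℕ => (8 / ‖z‖) ^ k * (1 / ‖z‖))
      ((summable_geometric_of_lt_one hr0 hr).mul_right _) ?_
    intro k
    rw [norm_div, norm_pow, Complex.norm_real, Real.norm_eq_abs]
    calc |τ k| / ‖z‖ ^ (k + 1) ≤ 8 ^ k / ‖z‖ ^ (k + 1) := by
          gcongr
          exact lim_growth τ G h k
      _ = (8 / ‖z‖) ^ k * (1 / ‖z‖) := by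
          rw [div_pow, pow_succ]
          field_simp
  have h1 := hsum.hasSum.tendsto_sum_nat
  have h2j : Tendsto (fun j : ℕ => 2 * j) atTop atTop :=
    Filter.tendsto_atTop_mono (fun j => by simp only [id]; omega) Filter.tendsto_id
  have h2 : Tendsto (fun j : ℕ => ∑ k ∈ Finset.range (2 * j), (τ k : ℂ) / z ^ (k + 1)) atTop
      (𝓝 (∑' k : ℕ, (τ k : ℂ) / z ^ (k + 1))) := h1.comp h2j
  have h3 : Tendsto (fun j : ℕ => G z - ∑ k ∈ Finset.range (2 * j), (τ k : ℂ) / z ^ (k + 1)) atTop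
      (𝓝 0) := by
    refine squeeze_zero_norm (a := fun j : ℕ => ((8 / ‖z‖) ^ 2) ^ j * (1 / z.im)) ?_ ?_
    · intro j
      refine (h.approx z hz j).trans ?_
      calc τ (2 * j) / (‖z‖ ^ (2 * j) * z.im) ≤ 8 ^ (2 * j) / (‖z‖ ^ (2 * j) * z.im) := by
            gcongr
            exact (le_abs_self _).trans (lim_growth τ G h (2 * j))
        _ = ((8 / ‖z‖) ^ 2) ^ j * (1 / z.im) := by
            rw [← pow_mul, div_pow]
            field_simp
    · have : Tendsto (fun j : ℕ => ((8 / ‖z‖) ^ 2) ^ j * (1 / z.im)) atTop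
          (𝓝 (0 * (1 / z.im))) :=
        (tendsto_pow_atTop_nhds_zero_of_lt_one (by positivity)
          (pow_lt_one₀ hr0 hr two_ne_zero)).mul_const _
      simpa using this
  have h4 : Tendsto (fun j : ℕ => ∑ k ∈ Finset.range (2 * j), (τ k : ℂ) / z ^ (k + 1)) atTop
      (𝓝 (G z)) := by
    have := (tendsto_const_nhds (x := G z)).sub h3
    simpa using this
  have h5 := tendsto_nhds_unique h2 h4
  rw [← h5]
  exact hsum.hasSum

end Pool.Agent.Helper228.MM
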