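import Pool.Agent.Helper228.MM.Defs

/-!
Definitions for the quartic one-matrix model `P(A) = A^4/4 - A^2` (MP_58f2bb_an).
-/

open MeasureTheory Filter Topology

namespace Pool.Agent.Helper228.MM



theorem loop_series (τ : ℕ → ℝ) (h0 : τ 0 = 1) (hl : ∀ k, Sk τ k = 0) (hb : ∀ k, |τ k| ≤ 8 ^ k)
    (z g : ℂ) (hz8 : 8 < ‖z‖) (hg : HasSum (fun k : ℕ => (τ k : ℂ) / z ^ (k + 1)) g) :
    g ^ 2 - (z ^ 3 - 2 * z) * g + (z ^ 2 + τ 1 * z + τ 2 - 2) = 0 := by
  have hz0 : z ≠ 0 := by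
    rintro rfl
    rw [norm_zero] at hz8
    linarith
  have hzpos : 0 < ‖z‖ := by linarith
  set f : ℕ → ℂ := fun k => (τ k : ℂ) / z ^ (k + 1) with hf
  have hnorm : Summable (fun k => ‖f k‖) := by
    have hgeo : Summable (fun k : ℕ => (1 / ‖z‖) * (8 / ‖z‖) ^ k) :=
      (summable_geometric_of_lt_one (by positivity) ((div_lt_one hzpos).2 hz8)).mul_left _
    refine Summable.of_nonneg_of_le (fun k => norm_nonneg _) (fun k => ?_) hgeo
    rw [hf]
    simp only
    rw [norm_div, norm_pow, Complex.norm_real, Real.norm_eq_abs]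
    calc |τ k| / ‖z‖ ^ (k + 1) ≤ 8 ^ k / ‖z‖ ^ (k + 1) := by
          gcongr
          exact hb k
      _ = (1 / ‖z‖) * (8 / ‖z‖) ^ k := by
          rw [div_pow, pow_succ]
          field_simp
  have hA := ((hasSum_nat_add_iff' 4).2 hg).mul_left (z ^ 3)
  have hB := ((hasSum_nat_add_iff' 2).2 hg).mul_left (2 * z)
  have hC := hA.sub hB
  have hsq : HasSum (fun n => ∑ kl ∈ Finset.HasAntidiagonal.antidiagonal n, f kl.1 * f kl.2) (g * g) := by
    have h1 := tsum_mul_tsum_eq_tsum_sum_antidiagonal_of_summable_norm hnorm hnorm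
    rw [hg.tsum_eq] at h1
    rw [h1]
    exact (summable_norm_sum_mul_antidiagonal_of_summable_norm hnorm hnorm).of_norm.hasSum
  have hterm : ∀ n, ∑ kl ∈ Finset.HasAntidiagonal.antidiagonal n, f kl.1 * f kl.2 =
      z ^ 3 * ((τ (n + 4) : ℂ) / z ^ (n + 4 + 1)) - 2 * z * ((τ (n + 2) : ℂ) / z ^ (n + 2 + 1)) := by
    intro n
    have h2 : ∀ kl ∈ Finset.HasAntidiagonal.antidiagonal n, f kl.1 * f kl.2 =
        ((τ kl.1 * τ kl.2 : ℝ) : ℂ) / z ^ (n + 2) := by
      intro kl hkl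
      rw [Finset.HasAntidiagonal.mem_antidiagonal] at hkl
      rw [hf]
      simp only
      rw [← hkl]
      push_cast
      field_simp
      ring
    rw [Finset.sum_congr rfl h2, ← Finset.sum_div, ← Complex.ofReal_sum,
      Finset.Nat.sum_antidiagonal_eq_sum_range_succ (fun i j => τ i * τ j) n]
    have h3 := hl (n + 1)
    unfold Sk at h3
    have h4 : ∑ k ∈ Finset.range n.succ, τ k * τ (n - k) = τ (n + 4) - 2 * τ (n + 2) := by
      have e : n + 1 - 1 = n := by omega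
      simp only [e] at h3
      have e3 : n + 1 + 3 = n + 4 := by ring
      have e1 : n + 1 + 1 = n + 2 := by ring
      rw [e3, e1] at h3
      have : ∑ k ∈ Finset.range n.succ, τ k * τ (n - k) = ∑ l ∈ Finset.range (n + 1), τ l * τ (n - l) := rfl
      rw [this]
      linarith
    rw [h4]
    push_cast
    field_simp
    ring
  have hC' : HasSum (fun n => ∑ kl ∈ Finset.HasAntidiagonal.antidiagonal n, f kl.1 * f kl.2)
      (z ^ 3 * (g - ∑ i ∈ Finset.range 4, f i) - 2 * z * (g - ∑ i ∈ Finset.range 2, f i)) := by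
    have : (fun n => ∑ kl ∈ Finset.HasAntidiagonal.antidiagonal n, f kl.1 * f kl.2) = fun n =>
        z ^ 3 * ((τ (n + 4) : ℂ) / z ^ (n + 4 + 1)) - 2 * z * ((τ (n + 2) : ℂ) / z ^ (n + 2 + 1)) :=
      funext hterm
    rw [this]
    exact hC
  have hu := hsq.unique hC'
  have h3 := hl 0
  unfold Sk at h3
  simp only [Finset.range_zero, Finset.sum_empty, zero_add, zero_sub] at h3
  have h3' : (τ 3 : ℂ) = 2 * τ 1 := by
    have : τ 3 = 2 * τ 1 := by linarith
    rw [this]; push_cast; ring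
  have e4 : ∑ i ∈ Finset.range 4, f i = 1 / z + τ 1 / z ^ 2 + τ 2 / z ^ 3 + 2 * τ 1 / z ^ 4 := by
    simp only [Finset.sum_range_succ, Finset.sum_range_zero, hf, h0, h3']
    simp
  have e2 : ∑ i ∈ Finset.range 2, f i = 1 / z + τ 1 / z ^ 2 := by
    simp only [Finset.sum_range_succ, Finset.sum_range_zero, hf, h0]
    simp
  rw [e4, e2] at hu
  have hu' : g ^ 2 = (z ^ 3 - 2 * z) * g - (z ^ 2 + τ 1 * z + τ 2 - 2) := by
    rw [sq, hu]
    field_simp
    ring
  rw [hu']
  ring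

end Pool.Agent.Helper228.MM
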