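import Pool.Agent.Helper228.MM.Defs
import Pool.Agent.Helper228.MM.P_lim_growth
import Pool.Agent.Helper228.MM.P_lim_sum
import Pool.Agent.Helper228.MM.P_loop_series

/-!
Definitions for the quartic one-matrix model `P(A) = A^4/4 - A^2` (MP_58f2bb_an).
-/

open MeasureTheory Filter Topology

namespace Pool.Agent.Helper228.MM



theorem lim_quad (τ : ℕ → ℝ) (G : ℂ → ℂ) (h : LimData τ G) (z : ℂ) (hz : 0 < z.im) :
    G z ^ 2 - (z ^ 3 - 2 * z) * G z + (z ^ 2 + τ 1 * z + τ 2 - 2) = 0 := by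
  have hopen : IsOpen {z : ℂ | 0 < z.im} := isOpen_lt continuous_const Complex.continuous_im
  have hconv : Convex ℝ {z : ℂ | 0 < z.im} := convex_halfSpace_im_gt 0
  have hD : DifferentiableOn ℂ (fun z : ℂ => G z ^ 2 - (z ^ 3 - 2 * z) * G z + (z ^ 2 + τ 1 * z + τ 2 - 2))
      {z : ℂ | 0 < z.im} := by
    have hG := h.diff
    have h1 : DifferentiableOn ℂ (fun z : ℂ => z ^ 3 - 2 * z) {z : ℂ | 0 < z.im} := by fun_prop
    have h2 : DifferentiableOn ℂ (fun z : ℂ => z ^ 2 + τ 1 * z + τ 2 - 2) {z : ℂ | 0 < z.im} := by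
      fun_prop
    exact ((hG.pow 2).sub (h1.mul hG)).add h2
  have hA := hD.analyticOnNhd hopen
  have hz0 : (10 * Complex.I) ∈ {z : ℂ | 0 < z.im} := by simp
  have hev : (fun z : ℂ => G z ^ 2 - (z ^ 3 - 2 * z) * G z + (z ^ 2 + τ 1 * z + τ 2 - 2))
      =ᶠ[𝓝 (10 * Complex.I)] 0 := by
    have hn : ∀ᶠ w : ℂ in 𝓝 (10 * Complex.I), 8 < ‖w‖ := by
      apply (continuous_norm.isOpen_preimage _ isOpen_Ioi).mem_nhds
      simp
      norm_num
    filter_upwards [hn, hopen.mem_nhds hz0] with w hw1 hw2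
    exact loop_series τ h.zero h.loop (lim_growth τ G h) w (G w) hw1 (lim_sum τ G h w hw2 hw1)
  exact hA.eqOn_zero_of_preconnected_of_eventuallyEq_zero hconv.isPreconnected hz0 hev hz

end Pool.Agent.Helper228.MM
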