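import Pool.Agent.Helper228.MM.Defs

/-!
Definitions for the quartic one-matrix model `P(A) = A^4/4 - A^2` (MP_58f2bb_an).
-/

open MeasureTheory Filter Topology

namespace Pool.Agent.Helper228.MM



theorem aux_cont : Continuous rhoD := by
  unfold rhoD
  fun_prop

theorem aux_nonneg (x : ℝ) : 0 ≤ rhoD x := by
  unfold rhoD
  positivity

theorem aux_zero {x : ℝ} (hx : x ∉ Set.Ioc (-2 : ℝ) 2) : rhoD x = 0 := by
  have h : 4 - x ^ 2 ≤ 0 := by
    rw [Set.mem_Ioc, not_and_or, not_lt, not_le] at hx
    rcases hx with hx | hx <;> nlinarith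
  unfold rhoD
  rw [Real.sqrt_eq_zero_of_nonpos h]
  simp

theorem aux_supp : HasCompactSupport rhoD := by
  refine HasCompactSupport.intro (isCompact_Icc (a := (-2 : ℝ)) (b := 2)) fun x hx => ?_
  exact aux_zero fun h => hx ⟨h.1.le, h.2⟩

theorem aux_int : ∫ x in (-2 : ℝ)..2, x ^ 2 * Real.sqrt (4 - x ^ 2) = 2 * Real.pi := by
  have key : ∫ x in (-2 : ℝ)..2, x ^ 2 * Real.sqrt (4 - x ^ 2) =
      ((2 : ℝ) * (2 ^ 2 - 2) * Real.sqrt (4 - 2 ^ 2) / 4 + 2 * Real.arcsin (2 / 2)) -
      ((-2 : ℝ) * ((-2) ^ 2 - 2) * Real.sqrt (4 - (-2) ^ 2) / 4 + 2 * Real.arcsin (-2 / 2)) := by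
    refine intervalIntegral.integral_eq_sub_of_hasDerivAt_of_le
      (f := fun x : ℝ => x * (x ^ 2 - 2) * Real.sqrt (4 - x ^ 2) / 4 + 2 * Real.arcsin (x / 2))
      (by norm_num) ?_ ?_ ?_
    · refine Continuous.continuousOn ?_
      have := Real.continuous_arcsin
      fun_prop
    · intro x hx
      have h4 : 0 < 4 - x ^ 2 := by nlinarith [hx.1, hx.2]
      have hs : 0 < Real.sqrt (4 - x ^ 2) := Real.sqrt_pos.2 h4
      have hsq : Real.sqrt (4 - x ^ 2) ^ 2 = 4 - x ^ 2 := Real.sq_sqrt h4.le
      have d1 : HasDerivAt (fun x : ℝ => Real.sqrt (4 - x ^ 2))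
          (-(2 * x) / (2 * Real.sqrt (4 - x ^ 2))) x := by
        have : HasDerivAt (fun x : ℝ => 4 - x ^ 2) (-(2 * x)) x := by
          have := (hasDerivAt_pow 2 x).const_sub 4
          simpa using this
        exact this.sqrt h4.ne'
      have d2 : HasDerivAt (fun x : ℝ => x * (x ^ 2 - 2)) (3 * x ^ 2 - 2) x := by
        have h1 : HasDerivAt (fun x : ℝ => x ^ 2 - 2) (2 * x) x := by
          have := (hasDerivAt_pow 2 x).sub_const 2
          simpa using this
        have := (hasDerivAt_id x).mul h1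
        refine this.congr_deriv ?_
        simp only [id]
        ring
      have d3 : HasDerivAt (fun x : ℝ => Real.arcsin (x / 2))
          (1 / Real.sqrt (4 - x ^ 2)) x := by
        have h1 : HasDerivAt Real.arcsin (1 / Real.sqrt (1 - (x / 2) ^ 2)) (x / 2) := by
          refine Real.hasDerivAt_arcsin ?_ ?_
          · intro h; linarith [hx.1]
          · intro h; linarith [hx.2]
        have h2 : HasDerivAt (fun x : ℝ => x / 2) (1 / 2) x := (hasDerivAt_id x).div_const 2
        have h3 := h1.comp x h2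
        refine h3.congr_deriv ?_
        have h5 : Real.sqrt (1 - (x / 2) ^ 2) = Real.sqrt (4 - x ^ 2) / 2 := by
          rw [show 1 - (x / 2) ^ 2 = (4 - x ^ 2) / 2 ^ 2 by ring, Real.sqrt_div h4.le,
            Real.sqrt_sq (by norm_num)]
        rw [h5]
        field_simp
      have := ((d2.mul d1).div_const 4).add (d3.const_mul 2)
      refine this.congr_deriv ?_
      have hne := hs.ne'
      field_simp
      nlinarith [hsq]
    · refine Continuous.intervalIntegrable ?_ _ _
      fun_prop
  rw [key]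
  have e1 : (4 : ℝ) - 2 ^ 2 = 0 := by norm_num
  have e2 : (4 : ℝ) - (-2) ^ 2 = 0 := by norm_num
  rw [e1, e2, Real.sqrt_zero]
  have e3 : (2 : ℝ) / 2 = 1 := by norm_num
  have e4 : (-2 : ℝ) / 2 = -1 := by norm_num
  rw [e3, e4, Real.arcsin_one, Real.arcsin_neg_one]
  ring

theorem aux_whole (g : ℝ → ℝ) :
    ∫ x, g x * rhoD x = ∫ x in (-2 : ℝ)..2, g x * rhoD x := by
  rw [intervalIntegral.integral_of_le (by norm_num)]
  symm
  refine setIntegral_eq_integral_of_forall_compl_eq_zero fun x hx => ?_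
  rw [aux_zero hx, mul_zero]

theorem aux_integrable (g : ℝ → ℝ) (hg : Continuous g) :
    Integrable (fun x => g x * rhoD x) := by
  refine Continuous.integrable_of_hasCompactSupport (hg.mul aux_cont) ?_
  exact aux_supp.mul_left

theorem aux_one : ∫ x, rhoD x = 1 := by
  have h := aux_whole (fun _ => 1)
  simp only [one_mul] at h
  rw [h]
  unfold rhoD
  rw [intervalIntegral.integral_div, aux_int]
  have := Real.pi_pos
  field_simp

theorem rho_basic : IsProbabilityMeasure rho ∧ (∀ᵐ x ∂rho, x ∈ Set.Icc (-2 : ℝ) 2) ∧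
    (∀ g : ℝ → ℝ, Continuous g → Integrable g rho ∧
      ∫ x, g x ∂rho = ∫ x in (-2 : ℝ)..2, g x * rhoD x) := by
  have hmeas : Measurable fun x => ENNReal.ofReal (rhoD x) :=
    ENNReal.measurable_ofReal.comp aux_cont.measurable
  have hfin : ∀ᵐ x ∂(volume : Measure ℝ), ENNReal.ofReal (rhoD x) < ⊤ :=
    ae_of_all _ fun x => ENNReal.ofReal_lt_top
  have htr : ∀ x, (ENNReal.ofReal (rhoD x)).toReal = rhoD x := fun x =>
    ENNReal.toReal_ofReal (aux_nonneg x)
  refine ⟨⟨?_⟩, ?_, ?_⟩
  · unfold rho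
    rw [withDensity_apply _ MeasurableSet.univ, Measure.restrict_univ]
    have hi : Integrable rhoD := by
      have := aux_integrable (fun _ => 1) continuous_const
      simpa using this
    rw [← ofReal_integral_eq_lintegral_ofReal hi (ae_of_all _ aux_nonneg), aux_one]
    simp
  · unfold rho
    rw [ae_withDensity_iff hmeas]
    refine ae_of_all _ fun x hx => ?_
    by_contra h
    apply hx
    rw [aux_zero fun h' => h ⟨h'.1.le, h'.2⟩]
    simp
  · intro g hg
    constructor
    · unfold rho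
      rw [integrable_withDensity_iff hmeas hfin]
      simp only [htr]
      exact aux_integrable g hg
    · unfold rho
      rw [integral_withDensity_eq_integral_toReal_smul hmeas hfin, ← aux_whole]
      refine integral_congr_ae (ae_of_all _ fun x => ?_)
      simp only [htr, smul_eq_mul]
      ring

end Pool.Agent.Helper228.MM
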