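import Pool.Agent.Helper228.MM.Defs
import Pool.Agent.Helper228.MM.P_rho_basic

/-!
Definitions for the quartic one-matrix model `P(A) = A^4/4 - A^2` (MP_58f2bb_an).
-/

open MeasureTheory Filter Topology

namespace Pool.Agent.Helper228.MM



theorem mom_val_cat (p : ℕ) : ((p : ℝ) + 2) * (catalan (p + 1) : ℝ) =
    2 * (2 * p + 1) * (catalan p : ℝ) := by
  have h1 := succ_mul_catalan_eq_centralBinom p
  have h2 := succ_mul_catalan_eq_centralBinom (p + 1)
  have h3 := Nat.succ_mul_centralBinom_succ p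
  rw [← h1, ← h2] at h3
  have h4 : ((p : ℝ) + 1) * (((p : ℝ) + 1 + 1) * (catalan (p + 1) : ℝ)) =
      2 * (2 * (p : ℝ) + 1) * (((p : ℝ) + 1) * (catalan p : ℝ)) := by
    exact_mod_cast h3
  have h5 : (p : ℝ) + 1 ≠ 0 := by positivity
  apply mul_left_cancel₀ h5
  linear_combination h4

theorem mom_val_rec (p : ℕ) :
    ((p : ℝ) + 2) * ∫ x in (-2 : ℝ)..2, x ^ (2 * (p + 1)) * Real.sqrt (4 - x ^ 2) =
      2 * (2 * p + 1) * ∫ x in (-2 : ℝ)..2, x ^ (2 * p) * Real.sqrt (4 - x ^ 2) := by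
  have hc1 : Continuous fun x : ℝ => x ^ (2 * p) * Real.sqrt (4 - x ^ 2) := by fun_prop
  have hc2 : Continuous fun x : ℝ => x ^ (2 * (p + 1)) * Real.sqrt (4 - x ^ 2) := by fun_prop
  have hF := intervalIntegral.integral_eq_sub_of_hasDerivAt_of_le (a := (-2 : ℝ)) (b := 2)
    (f := fun x : ℝ => x ^ (2 * p + 1) * ((4 - x ^ 2) * Real.sqrt (4 - x ^ 2)))
    (f' := fun x : ℝ => 4 * (2 * p + 1) * (x ^ (2 * p) * Real.sqrt (4 - x ^ 2)) -
      (2 * p + 4) * (x ^ (2 * (p + 1)) * Real.sqrt (4 - x ^ 2)))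
    (by norm_num) (by fun_prop) (by
      intro x hx
      have hpos : 0 < 4 - x ^ 2 := by nlinarith [hx.1, hx.2]
      have hs : 0 < Real.sqrt (4 - x ^ 2) := Real.sqrt_pos.2 hpos
      have hsq : Real.sqrt (4 - x ^ 2) * Real.sqrt (4 - x ^ 2) = 4 - x ^ 2 :=
        Real.mul_self_sqrt hpos.le
      have h1 : HasDerivAt (fun x : ℝ => 4 - x ^ 2) (-(2 * x)) x := by
        have := ((hasDerivAt_pow 2 x).const_sub 4)
        simpa using this
      have h2 := h1.sqrt hpos.ne'
      have h3 := h1.mul h2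
      have h4 := (hasDerivAt_pow (2 * p + 1) x).mul h3
      refine h4.congr_deriv ?_
      have e1 : x ^ (2 * p + 1 - 1) = x ^ (2 * p) := by simp
      rw [e1]
      push_cast
      have e2 : (4 - x ^ 2) * (-(2 * x) / (2 * Real.sqrt (4 - x ^ 2))) =
          - x * Real.sqrt (4 - x ^ 2) := by
        rw [mul_div_assoc', div_eq_iff (by positivity)]
        linear_combination (2 * x) * hsq
      simp only [Pi.mul_apply]
      rw [e2]
      ring) (by
      apply Continuous.intervalIntegrable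
      exact (hc1.const_mul _).sub (hc2.const_mul _))
  have e0 : (fun x : ℝ => x ^ (2 * p + 1) * ((4 - x ^ 2) * Real.sqrt (4 - x ^ 2))) 2 -
      (fun x : ℝ => x ^ (2 * p + 1) * ((4 - x ^ 2) * Real.sqrt (4 - x ^ 2))) (-2) = 0 := by
    norm_num
  rw [e0, intervalIntegral.integral_sub ((hc1.const_mul _).intervalIntegrable _ _)
    ((hc2.const_mul _).intervalIntegrable _ _), intervalIntegral.integral_const_mul,
    intervalIntegral.integral_const_mul] at hF
  linarith

theorem mom_val_eq (k : ℕ) : mom k = ∫ x in (-2 : ℝ)..2, x ^ k * rhoD x :=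
  (rho_basic.2.2 (fun x => x ^ k) (by fun_prop)).2

theorem mom_val_even (j : ℕ) : mom (2 * j) =
    (∫ x in (-2 : ℝ)..2, x ^ (2 * (j + 1)) * Real.sqrt (4 - x ^ 2)) / (2 * Real.pi) := by
  rw [mom_val_eq, ← intervalIntegral.integral_div]
  congr 1
  funext x
  unfold rhoD
  ring

theorem mom_val (j : ℕ) : mom (2 * j) = (catalan (j + 1) : ℝ) ∧ mom (2 * j + 1) = 0 := by
  constructor
  · induction j with
    | zero =>
      have : IsProbabilityMeasure rho := rho_basic.1
      simp [mom]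
    | succ j ih =>
      rw [mom_val_even] at ih ⊢
      have h1 := mom_val_rec (j + 1)
      have h2 := mom_val_cat (j + 1)
      have hpi : (2 * Real.pi) ≠ 0 := by positivity
      rw [div_eq_iff hpi] at ih ⊢
      rw [ih] at h1
      have h3 : ((j + 1 : ℕ) : ℝ) + 2 ≠ 0 := by positivity
      apply mul_left_cancel₀ h3
      rw [h1]
      linear_combination (-(2 * Real.pi)) * h2
  · rw [mom_val_eq]
    have h1 := intervalIntegral.integral_comp_neg (a := (-2 : ℝ)) (b := 2)
      (fun x : ℝ => x ^ (2 * j + 1) * rhoD x)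
    have h2 : (fun x : ℝ => (-x) ^ (2 * j + 1) * rhoD (-x)) =
        fun x : ℝ => -(x ^ (2 * j + 1) * rhoD x) := by
      funext x
      have : rhoD (-x) = rhoD x := by
        unfold rhoD
        rw [neg_sq]
      rw [this, Odd.neg_pow ⟨j, rfl⟩]
      ring
    rw [h2, intervalIntegral.integral_neg, neg_neg] at h1
    linarith

end Pool.Agent.Helper228.MM
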