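import Pool.Agent.Helper228.MM.Defs
import Pool.Agent.Helper228.MM.P_mom_val

/-!
Definitions for the quartic one-matrix model `P(A) = A^4/4 - A^2` (MP_58f2bb_an).
-/

open MeasureTheory Filter Topology

namespace Pool.Agent.Helper228.MM



theorem sum_even_aux (f : ℕ → ℝ) (hf : ∀ i, f (2 * i + 1) = 0) (n : ℕ) :
    ∑ l ∈ Finset.range (2 * n + 1), f l = ∑ i ∈ Finset.range (n + 1), f (2 * i) := by
  induction n with
  | zero => simp
  | succ n ih =>
    rw [show 2 * (n + 1) + 1 = 2 * n + 1 + 1 + 1 by ring, Finset.sum_range_succ,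
      Finset.sum_range_succ, ih, hf n, Finset.sum_range_succ _ (n + 1)]
    rw [show 2 * n + 1 + 1 = 2 * (n + 1) by ring]
    ring

theorem catalan_aux (j : ℕ) : (catalan (j + 3) : ℝ) =
    (∑ i ∈ Finset.range (j + 1), (catalan (i + 1) : ℝ) * (catalan (j - i + 1) : ℝ)) +
      2 * (catalan (j + 2) : ℝ) := by
  have h : catalan (j + 3) = ∑ i ∈ Finset.range (j + 3), catalan i * catalan (j + 2 - i) := by
    rw [show j + 3 = (j + 2) + 1 by ring, catalan_succ]
    exact (Finset.sum_range (fun i => catalan i * catalan (j + 2 - i))).symm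
  rw [Finset.sum_range_succ, Finset.sum_range_succ'] at h
  have h2 : ∑ i ∈ Finset.range (j + 1), catalan (i + 1) * catalan (j + 2 - (i + 1)) =
      ∑ i ∈ Finset.range (j + 1), catalan (i + 1) * catalan (j - i + 1) := by
    apply Finset.sum_congr rfl
    intro i hi
    rw [Finset.mem_range] at hi
    rw [show j + 2 - (i + 1) = j - i + 1 by omega]
  rw [h2, Nat.sub_zero, Nat.sub_self, catalan_zero] at h
  have h3 : (catalan (j + 3) : ℝ) = ((∑ i ∈ Finset.range (j + 1),
      catalan (i + 1) * catalan (j - i + 1) + 1 * catalan (j + 2) + catalan (j + 2) * 1 : ℕ) : ℝ) := by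
    exact_mod_cast h
  rw [h3]
  push_cast
  ring

theorem mom_odd {n : ℕ} (h : n % 2 = 1) : mom n = 0 := by
  have := (mom_val (n / 2)).2
  rwa [show 2 * (n / 2) + 1 = n by omega] at this

theorem mom_even {n : ℕ} (h : n % 2 = 0) : mom n = (catalan (n / 2 + 1) : ℝ) := by
  have := (mom_val (n / 2)).1
  rwa [show 2 * (n / 2) = n by omega] at this

theorem mom_loop : mom 0 = 1 ∧ mom 1 = 0 ∧ mom 2 = 2 ∧ ∀ k, Sk mom k = 0 := by
  refine ⟨?_, ?_, ?_, ?_⟩
  · have := (mom_val 0).1
    simp only [mul_zero, zero_add, catalan_one, Nat.cast_one] at this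
    exact this
  · exact (mom_val 0).2
  · have := (mom_val 1).1
    rw [mul_one] at this
    rw [this, show 1 + 1 = 2 by rfl, catalan_two]
    norm_num
  · intro k
    unfold Sk
    rcases Nat.even_or_odd' k with ⟨j, hj | hj⟩
    · have h1 : ∑ l ∈ Finset.range k, mom l * mom (k - 1 - l) = 0 := by
        apply Finset.sum_eq_zero
        intro l hl
        rw [Finset.mem_range] at hl
        rcases Nat.mod_two_eq_zero_or_one l with h | h
        · rw [mom_odd (n := k - 1 - l) (by omega), mul_zero]
        · rw [mom_odd h, zero_mul]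
      rw [h1, mom_odd (n := k + 3) (by omega), mom_odd (n := k + 1) (by omega)]
      ring
    · subst hj
      rw [sum_even_aux (fun l => mom l * mom (2 * j + 1 - 1 - l))]
      · have h1 : ∑ i ∈ Finset.range (j + 1), (fun l => mom l * mom (2 * j + 1 - 1 - l)) (2 * i) =
            ∑ i ∈ Finset.range (j + 1), (catalan (i + 1) : ℝ) * (catalan (j - i + 1) : ℝ) := by
          apply Finset.sum_congr rfl
          intro i hi
          rw [Finset.mem_range] at hi
          show mom (2 * i) * mom (2 * j + 1 - 1 - 2 * i) = _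
          rw [mom_even (n := 2 * i) (by omega), mom_even (n := 2 * j + 1 - 1 - 2 * i) (by omega)]
          rw [show 2 * i / 2 + 1 = i + 1 by omega,
            show (2 * j + 1 - 1 - 2 * i) / 2 + 1 = j - i + 1 by omega]
        rw [h1, mom_even (n := 2 * j + 1 + 3) (by omega), mom_even (n := 2 * j + 1 + 1) (by omega),
          show (2 * j + 1 + 3) / 2 + 1 = j + 3 by omega,
          show (2 * j + 1 + 1) / 2 + 1 = j + 2 by omega, catalan_aux j]
        ring
      · intro i
        show mom (2 * i + 1) * mom (2 * j + 1 - 1 - (2 * i + 1)) = 0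
        rw [mom_odd (n := 2 * i + 1) (by omega), zero_mul]

end Pool.Agent.Helper228.MM
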