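import Pool.Agent.Helper228.MM.Defs

/-!
Definitions for the quartic one-matrix model `P(A) = A^4/4 - A^2` (MP_58f2bb_an).
-/

open MeasureTheory Filter Topology

namespace Pool.Agent.Helper228.MM



theorem noroot_of_sqrt_im3 (x y : ℝ) : ((⟨x, y⟩ : ℂ) ^ 3).im = 3 * x ^ 2 * y - y ^ 3 := by
  simp only [pow_succ, pow_zero, one_mul, Complex.mul_im, Complex.mul_re]
  ring

theorem noroot_of_sqrt_im4 (x y : ℝ) :
    ((⟨x, y⟩ : ℂ) ^ 4).im = 4 * x ^ 3 * y - 4 * x * y ^ 3 := by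
  simp only [pow_succ, pow_zero, one_mul, Complex.mul_im, Complex.mul_re]
  ring

theorem noroot_of_sqrt_im5 (x y : ℝ) :
    ((⟨x, y⟩ : ℂ) ^ 5).im = 5 * x ^ 4 * y - 10 * x ^ 2 * y ^ 3 + y ^ 5 := by
  simp only [pow_succ, pow_zero, one_mul, Complex.mul_im, Complex.mul_re]
  ring

theorem noroot_of_sqrt_im6 (x y : ℝ) :
    ((⟨x, y⟩ : ℂ) ^ 6).im = 6 * x ^ 5 * y - 20 * x ^ 3 * y ^ 3 + 6 * x * y ^ 5 := by
  simp only [pow_succ, pow_zero, one_mul, Complex.mul_im, Complex.mul_re]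
  ring

theorem noroot_of_sqrt_alg (x y a b : ℝ) (hy : 0 < y)
    (h1 : 6 * (⟨x, y⟩ : ℂ) ^ 5 - 16 * (⟨x, y⟩ : ℂ) ^ 3 - 4 * (a : ℂ) = 0)
    (h2 : -5 * (⟨x, y⟩ : ℂ) ^ 6 + 12 * (⟨x, y⟩ : ℂ) ^ 4 + (b : ℂ) = 0) : False := by
  have e1 : 6 * (5 * x ^ 4 * y - 10 * x ^ 2 * y ^ 3 + y ^ 5) - 16 * (3 * x ^ 2 * y - y ^ 3) = 0 := by
    have := congrArg Complex.im h1
    rw [Complex.sub_im, Complex.sub_im, show (6 : ℂ) = ((6 : ℝ) : ℂ) by norm_num,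
      show (16 : ℂ) = ((16 : ℝ) : ℂ) by norm_num, show (4 : ℂ) = ((4 : ℝ) : ℂ) by norm_num,
      Complex.im_ofReal_mul, Complex.im_ofReal_mul, Complex.im_ofReal_mul, Complex.ofReal_im,
      noroot_of_sqrt_im5, noroot_of_sqrt_im3, Complex.zero_im] at this
    linarith
  have e2 : -5 * (6 * x ^ 5 * y - 20 * x ^ 3 * y ^ 3 + 6 * x * y ^ 5) +
      12 * (4 * x ^ 3 * y - 4 * x * y ^ 3) = 0 := by
    have := congrArg Complex.im h2
    rw [Complex.add_im, Complex.add_im, show (-5 : ℂ) = ((-5 : ℝ) : ℂ) by norm_num,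
      show (12 : ℂ) = ((12 : ℝ) : ℂ) by norm_num,
      Complex.im_ofReal_mul, Complex.im_ofReal_mul, Complex.ofReal_im,
      noroot_of_sqrt_im6, noroot_of_sqrt_im4, Complex.zero_im] at this
    linarith
  have e3 : 3 * (5 * x ^ 4 - 10 * x ^ 2 * y ^ 2 + y ^ 4) - 8 * (3 * x ^ 2 - y ^ 2) = 0 := by
    have h3 : (2 * y) * (3 * (5 * x ^ 4 - 10 * x ^ 2 * y ^ 2 + y ^ 4) -
        8 * (3 * x ^ 2 - y ^ 2)) = 0 := by linarith
    rcases mul_eq_zero.1 h3 with h4 | h4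
    · linarith
    · exact h4
  by_cases hx : x = 0
  · subst hx
    nlinarith [pow_pos hy 4, pow_pos hy 2]
  · have e4 : 5 * (6 * x ^ 4 - 20 * x ^ 2 * y ^ 2 + 6 * y ^ 4) - 48 * (x ^ 2 - y ^ 2) = 0 := by
      have h3 : (x * y) * (5 * (6 * x ^ 4 - 20 * x ^ 2 * y ^ 2 + 6 * y ^ 4) -
          48 * (x ^ 2 - y ^ 2)) = 0 := by linarith
      rcases mul_eq_zero.1 h3 with h4 | h4
      · rcases mul_eq_zero.1 h4 with h5 | h5
        · exact absurd h5 hx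
        · linarith
      · exact h4
    have hY : 0 < y ^ 2 := by positivity
    obtain ⟨X, hX⟩ : ∃ X, X = x ^ 2 := ⟨_, rfl⟩
    obtain ⟨Y, hYd⟩ : ∃ Y, Y = y ^ 2 := ⟨_, rfl⟩
    rw [← hYd] at hY
    have f1 : 15 * X ^ 2 - 30 * X * Y + 3 * Y ^ 2 - 24 * X + 8 * Y = 0 := by
      rw [hX, hYd]
      linarith
    have f2 : 15 * X ^ 2 - 50 * X * Y + 15 * Y ^ 2 - 24 * X + 24 * Y = 0 := by
      rw [hX, hYd]
      linarith
    have f3 : 5 * X = 3 * Y + 4 := by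
      have h3 : (4 * Y) * (5 * X - (3 * Y + 4)) = 0 := by linarith
      rcases mul_eq_zero.1 h3 with h4 | h4
      · linarith
      · linarith
    have f4 : X = (3 * Y + 4) / 5 := by linarith
    rw [f4] at f1
    nlinarith

theorem noroot_of_sqrt (a b : ℝ) (F : ℂ → ℂ) (hF : DifferentiableOn ℂ F {z : ℂ | 0 < z.im})
    (h : ∀ z : ℂ, 0 < z.im → F z ^ 2 = z ^ 6 - 4 * z ^ 4 - 4 * a * z + b)
    (z : ℂ) (hz : 0 < z.im) : z ^ 6 - 4 * z ^ 4 - 4 * (a : ℂ) * z + (b : ℂ) ≠ 0 := by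
  intro hR
  have hopen : IsOpen {z : ℂ | 0 < z.im} := isOpen_lt continuous_const Complex.continuous_im
  have hmem : {z : ℂ | 0 < z.im} ∈ 𝓝 z := hopen.mem_nhds hz
  have hFz : F z = 0 := by
    have := h z hz
    rw [hR] at this
    exact pow_eq_zero_iff (two_ne_zero) |>.1 this
  have hd : HasDerivAt F (deriv F z) z := (hF.differentiableAt hmem).hasDerivAt
  have hd2 : HasDerivAt (fun w => F w ^ 2) 0 z := by
    have h0 := hd.pow 2
    refine h0.congr_deriv ?_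
    rw [hFz]
    simp
  have hd3 : HasDerivAt (fun w : ℂ => w ^ 6 - 4 * w ^ 4 - 4 * (a : ℂ) * w + (b : ℂ))
      (6 * z ^ 5 - 16 * z ^ 3 - 4 * (a : ℂ)) z := by
    have h1 := (((hasDerivAt_pow 6 z).sub ((hasDerivAt_pow 4 z).const_mul 4)).sub
      ((hasDerivAt_id z).const_mul (4 * (a : ℂ)))).add_const (b : ℂ)
    refine h1.congr_deriv ?_
    norm_num
    ring
  have hev : (fun w => F w ^ 2) =ᶠ[𝓝 z]
      (fun w : ℂ => w ^ 6 - 4 * w ^ 4 - 4 * (a : ℂ) * w + (b : ℂ)) := by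
    filter_upwards [hmem] with w hw
    exact h w hw
  have hd4 := hd3.congr_of_eventuallyEq hev
  have h1 := hd4.unique hd2
  have h2 : -5 * z ^ 6 + 12 * z ^ 4 + (b : ℂ) = 0 := by
    linear_combination hR - z * h1
  obtain ⟨x, y⟩ := z
  exact noroot_of_sqrt_alg x y a b hz h1 h2

end Pool.Agent.Helper228.MM
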