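import Pool.Agent.Helper228.MM.Defs
import Pool.Agent.Helper228.MM.P_mom_loop
import Pool.Agent.Helper228.MM.P_lim_quad
import Pool.Agent.Helper228.MM.P_noroot_of_sqrt
import Pool.Agent.Helper228.MM.P_gl_a
import Pool.Agent.Helper228.MM.P_gl_b

/-!
Definitions for the quartic one-matrix model `P(A) = A^4/4 - A^2` (MP_58f2bb_an).
-/

open MeasureTheory Filter Topology

namespace Pool.Agent.Helper228.MM



theorem lim_unique (τ : ℕ → ℝ) (G : ℂ → ℂ) (h : LimData τ G) (k : ℕ) : τ k = mom k := by
  have hF : DifferentiableOn ℂ (fun z => 2 * G z - (z ^ 3 - 2 * z)) {z : ℂ | 0 < z.im} := by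
    have := h.diff
    fun_prop
  have hq : ∀ z : ℂ, 0 < z.im → (fun z => 2 * G z - (z ^ 3 - 2 * z)) z ^ 2 =
      z ^ 6 - 4 * z ^ 4 - 4 * (τ 1 : ℝ) * z + ((8 - 4 * τ 2 : ℝ) : ℂ) := by
    intro z hz
    have h1 := lim_quad τ G h z hz
    simp only
    push_cast
    linear_combination 4 * h1
  have hn := noroot_of_sqrt (τ 1) (8 - 4 * τ 2) _ hF hq
  have ha : τ 1 = 0 := gl_a (τ 1) (8 - 4 * τ 2) hn
  have hb : 8 - 4 * τ 2 = 0 := by
    apply gl_b (8 - 4 * τ 2)
    intro z hz
    have := hn z hz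
    rw [ha] at this
    simpa using this
  obtain ⟨m0, m1, m2, ml⟩ := mom_loop
  have h0 := h.zero
  induction k using Nat.strong_induction_on with
  | _ k ih =>
    match k, ih with
    | 0, _ => rw [h0, m0]
    | 1, _ => rw [ha, m1]
    | 2, _ => rw [m2]; linarith
    | k + 3, ih =>
      have e1 := h.loop k
      have e2 := ml k
      unfold Sk at e1 e2
      have e3 : ∑ l ∈ Finset.range k, τ l * τ (k - 1 - l) =
          ∑ l ∈ Finset.range k, mom l * mom (k - 1 - l) := by
        apply Finset.sum_congr rfl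
        intro l hl
        rw [Finset.mem_range] at hl
        rw [ih l (by omega), ih (k - 1 - l) (by omega)]
      have e4 := ih (k + 1) (by omega)
      rw [e3, e4] at e1
      linarith

end Pool.Agent.Helper228.MM
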