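import Pool.Agent.Helper228.MM.Defs
import Pool.Agent.Helper228.MM.P_lim_exists
import Pool.Agent.Helper228.MM.P_lim_unique

/-!
Definitions for the quartic one-matrix model `P(A) = A^4/4 - A^2` (MP_58f2bb_an).
-/

open MeasureTheory Filter Topology

namespace Pool.Agent.Helper228.MM



theorem det_stab (k : ℕ) (ε : ℝ) (hε : 0 < ε) : ∃ (i₀ : ℕ) (δ : ℝ), 0 < δ ∧
    ∀ n : ℕ, 1 ≤ n → ∀ lam : Fin n → ℝ,
      (∀ i ≤ i₀, |Sk (fun i => (∑ m, lam m ^ i) / (n : ℝ)) i| ≤ δ) →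
        |(∑ m, lam m ^ k) / (n : ℝ) - mom k| ≤ ε := by
  by_contra hcon
  push Not at hcon
  have hc : ∀ N : ℕ, ∃ n : ℕ, 1 ≤ n ∧ ∃ lam : Fin n → ℝ,
      (∀ i ≤ N, |Sk (fun i => (∑ m, lam m ^ i) / (n : ℝ)) i| ≤ 1 / ((N : ℝ) + 1)) ∧
        ε < |(∑ m, lam m ^ k) / (n : ℝ) - mom k| := fun N =>
    hcon N (1 / ((N : ℝ) + 1)) (by positivity)
  choose n hn lam h1 h2 using hc
  obtain ⟨τ, G, hL, hτ⟩ := lim_exists n hn lam h1
  obtain ⟨N, hN⟩ := hτ k ε hε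
  rw [lim_unique τ G hL k] at hN
  exact absurd hN (not_lt.2 (h2 N).le)

end Pool.Agent.Helper228.MM
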