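import Pool.Agent.Helper228.MM.Defs

/-!
Definitions for the quartic one-matrix model `P(A) = A^4/4 - A^2` (MP_58f2bb_an).
-/

open MeasureTheory Filter Topology

namespace Pool.Agent.Helper228.MM


theorem hb_eq_single (n : ℕ) (j k : Fin n) :
    hb n j k = ((1 + Complex.I) / 2) • Matrix.single j k (1 : ℂ) +
      ((1 - Complex.I) / 2) • Matrix.single k j (1 : ℂ) := by
  ext p q
  have e : ∀ p q : Fin n, (((Pi.single j (Pi.single k (1:ℝ)) : Fin n → Fin n → ℝ) p q : ℝ) : ℂ) =
      Matrix.single j k (1 : ℂ) p q := by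
    intro p q
    by_cases h1 : p = j
    · subst h1
      by_cases h2 : q = k
      · subst h2
        simp
      · rw [Pi.single_eq_same, Pi.single_eq_of_ne h2, Matrix.single_apply_of_ne]
        · simp
        · intro h
          exact h2 h.2.symm
    · rw [Pi.single_eq_of_ne h1, Matrix.single_apply_of_ne]
      · simp
      · intro h
        exact h1 h.1.symm
  have e2 : Matrix.single k j (1 : ℂ) p q = Matrix.single j k (1 : ℂ) q p := by
    simp only [Matrix.single_apply]
    congr 1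
    exact propext and_comm
  rw [Matrix.add_apply, Matrix.smul_apply, Matrix.smul_apply, smul_eq_mul, smul_eq_mul, e2,
    ← e p q, ← e q p]
  unfold hb herm
  rw [Matrix.of_apply]
  ring

theorem trace_single_aux (n : ℕ) (X Y : Matrix (Fin n) (Fin n) ℂ) (j k l m : Fin n) :
    Matrix.trace (X * Matrix.single j k (1 : ℂ) * Y * Matrix.single l m (1 : ℂ)) =
      X m j * Y k l := by
  have e : X * Matrix.single j k (1 : ℂ) * Y * Matrix.single l m (1 : ℂ) =
      X * Matrix.single j m (1 * Y k l * 1) := by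
    rw [← Matrix.single_mul_mul_single, Matrix.mul_assoc, Matrix.mul_assoc, Matrix.mul_assoc]
  rw [e, Matrix.trace_mul_single, op_smul_eq_mul]
  ring

theorem sum_trace_mid (n : ℕ) (X Y : Matrix (Fin n) (Fin n) ℂ) :
    ∑ j, ∑ k, Matrix.trace (X * hb n j k * Y * hb n j k) = Matrix.trace X * Matrix.trace Y := by
  have key : ∀ j k : Fin n, Matrix.trace (X * hb n j k * Y * hb n j k) =
      ((1 + Complex.I) / 2) ^ 2 * (X k j * Y k j) + ((1 - Complex.I) / 2) ^ 2 * (X j k * Y j k) +
      (1 / 2 : ℂ) * (X j j * Y k k) + (1 / 2 : ℂ) * (X k k * Y j j) := by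
    intro j k
    rw [hb_eq_single]
    simp only [Matrix.mul_add, Matrix.add_mul, Matrix.mul_smul, Matrix.smul_mul,
      Matrix.trace_add, Matrix.trace_smul, trace_single_aux, smul_eq_mul]
    have hI : Complex.I ^ 2 = -1 := Complex.I_sq
    linear_combination (-(1/4 : ℂ) * (X j j * Y k k) - (1/4 : ℂ) * (X k k * Y j j)) * hI
  have hS : ∑ j, ∑ k, X k j * Y k j = ∑ j, ∑ k, X j k * Y j k := Finset.sum_comm
  have hT : ∑ j, ∑ k, X k k * Y j j = ∑ j, ∑ k, X j j * Y k k := Finset.sum_comm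
  have hP : ∑ j, ∑ k, X j j * Y k k = Matrix.trace X * Matrix.trace Y := by
    unfold Matrix.trace
    rw [Finset.sum_mul_sum]
    rfl
  have hsum : ∑ j, ∑ k, Matrix.trace (X * hb n j k * Y * hb n j k) =
      ((1 + Complex.I) / 2) ^ 2 * (∑ j, ∑ k, X k j * Y k j) +
      ((1 - Complex.I) / 2) ^ 2 * (∑ j, ∑ k, X j k * Y j k) +
      (1 / 2 : ℂ) * (∑ j, ∑ k, X j j * Y k k) + (1 / 2 : ℂ) * (∑ j, ∑ k, X k k * Y j j) := by
    simp only [key, Finset.mul_sum, Finset.sum_add_distrib]
  rw [hsum, hS, hT, hP]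
  have hI : Complex.I ^ 2 = -1 := Complex.I_sq
  linear_combination ((1/2 : ℂ) * (∑ j, ∑ k, X j k * Y j k)) * hI

end Pool.Agent.Helper228.MM
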