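import Pool.Agent.Helper228.MM.Defs

/-!
Definitions for the quartic one-matrix model `P(A) = A^4/4 - A^2` (MP_58f2bb_an).
-/

open MeasureTheory Filter Topology

namespace Pool.Agent.Helper228.MM



theorem hb_apply (n : ℕ) (j k p q : Fin n) :
    hb n j k p q = (1 + Complex.I) / 2 * (if p = j ∧ q = k then 1 else 0)
      + (1 - Complex.I) / 2 * (if p = k ∧ q = j then 1 else 0) := by
  simp only [hb, herm, Matrix.of_apply]
  have h : ∀ a b : Fin n, (((Pi.single j (Pi.single k 1) : Fin n → Fin n → ℝ) a b : ℝ) : ℂ)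
      = if a = j ∧ b = k then 1 else 0 := by
    intro a b
    by_cases h1 : a = j
    · subst h1
      by_cases h2 : b = k
      · subst h2; simp
      · simp [h2]
    · simp [h1]
  rw [h, h]
  have h3 : (q = j ∧ p = k) ↔ (p = k ∧ q = j) := and_comm
  simp only [h3]
  ring

theorem trace_mul_hb (n : ℕ) (X : Matrix (Fin n) (Fin n) ℂ) (j k : Fin n) :
    Matrix.trace (X * hb n j k) = (1 + Complex.I) / 2 * X k j + (1 - Complex.I) / 2 * X j k := by
  have h : hb n j k = ((1 + Complex.I) / 2) • Matrix.single j k (1 : ℂ)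
      + ((1 - Complex.I) / 2) • Matrix.single k j (1 : ℂ) := by
    ext p q
    rw [hb_apply, Matrix.add_apply, Matrix.smul_apply, Matrix.smul_apply, Matrix.single_apply,
      Matrix.single_apply, smul_eq_mul, smul_eq_mul]
    simp only [eq_comm (a := j), eq_comm (a := k)]
  rw [h, mul_add, Matrix.trace_add, Matrix.mul_smul, Matrix.mul_smul, Matrix.trace_smul,
    Matrix.trace_smul, Matrix.trace_mul_single, Matrix.trace_mul_single]
  simp

theorem sum_trace_trace (n : ℕ) (X Y : Matrix (Fin n) (Fin n) ℂ) :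
    ∑ j, ∑ k, Matrix.trace (X * hb n j k) * Matrix.trace (Y * hb n j k) = Matrix.trace (X * Y) := by
  simp only [trace_mul_hb]
  have hI : Complex.I * Complex.I = -1 := Complex.I_mul_I
  have h1 : ∀ j k : Fin n, ((1 + Complex.I) / 2 * X k j + (1 - Complex.I) / 2 * X j k)
      * ((1 + Complex.I) / 2 * Y k j + (1 - Complex.I) / 2 * Y j k)
      = (Complex.I / 2) * (X k j * Y k j) - (Complex.I / 2) * (X j k * Y j k)
        + (1 / 2) * (X k j * Y j k) + (1 / 2) * (X j k * Y k j) := by
    intro j k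
    linear_combination (1 / 4 * (X k j * Y k j) + 1 / 4 * (X j k * Y j k)
      - 1 / 4 * (X k j * Y j k) - 1 / 4 * (X j k * Y k j)) * hI
  simp only [h1, Finset.sum_add_distrib, Finset.sum_sub_distrib, ← Finset.mul_sum]
  have h2 : ∑ j, ∑ k, X k j * Y k j = ∑ j, ∑ k, X j k * Y j k := Finset.sum_comm
  have h3 : ∑ j, ∑ k, X k j * Y j k = ∑ j, ∑ k, X j k * Y k j := Finset.sum_comm
  rw [h2, h3]
  simp only [Matrix.trace, Matrix.diag_apply, Matrix.mul_apply]
  ring

end Pool.Agent.Helper228.MM
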