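import Pool.Agent.Helper228.MM.Defs

/-!
Definitions for the quartic one-matrix model `P(A) = A^4/4 - A^2` (MP_58f2bb_an).
-/

open MeasureTheory Filter Topology

namespace Pool.Agent.Helper228.MM



theorem herm_lin (n : ℕ) :
    (∀ x y, herm n (x + y) = herm n x + herm n y) ∧
    (∀ (c : ℝ) x, herm n (c • x) = (c : ℂ) • herm n x) ∧
    (∀ x, (herm n x).IsHermitian) ∧
    (∀ B : Matrix (Fin n) (Fin n) ℂ, B.IsHermitian → ∃ x, herm n x = B) ∧
    (∀ x y, herm n x = herm n y → x = y) ∧
    (∀ x, Matrix.trace (herm n x ^ 2) = ((qf n x : ℝ) : ℂ)) := by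
  have hI : Complex.I ^ 2 = -1 := Complex.I_sq
  refine ⟨?_, ?_, ?_, ?_, ?_, ?_⟩
  · intro x y
    ext j k
    simp only [herm, Matrix.of_apply, Matrix.add_apply, Pi.add_apply, Complex.ofReal_add]
    ring
  · intro c x
    ext j k
    simp only [herm, Matrix.of_apply, Matrix.smul_apply, Pi.smul_apply, smul_eq_mul,
      Complex.ofReal_mul]
    ring
  · intro x
    ext j k
    rw [Matrix.conjTranspose_apply]
    simp only [herm, Matrix.of_apply]
    apply Complex.ext <;> simp [Complex.div_re, Complex.div_im] <;> ring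
  · intro B hB
    refine ⟨fun j k => (B j k).re + (B j k).im, ?_⟩
    ext j k
    have h := hB.apply j k
    have hr : (B k j).re = (B j k).re := by rw [← h]; simp
    have hi : (B k j).im = -(B j k).im := by rw [← h]; simp
    simp only [herm, Matrix.of_apply]
    rw [hr, hi]
    conv_rhs => rw [← Complex.re_add_im (B j k)]
    push_cast
    ring
  · intro x y h
    have hre : ∀ j k, (herm n x j k).re = (x j k + x k j) / 2 := by
      intro j k; simp [herm, Complex.div_re]
    have him : ∀ j k, (herm n x j k).im = (x j k - x k j) / 2 := by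
      intro j k; simp [herm, Complex.div_im]; ring
    have hre' : ∀ j k, (herm n y j k).re = (y j k + y k j) / 2 := by
      intro j k; simp [herm, Complex.div_re]
    have him' : ∀ j k, (herm n y j k).im = (y j k - y k j) / 2 := by
      intro j k; simp [herm, Complex.div_im]; ring
    funext j k
    have h1 := hre j k
    have h2 := him j k
    rw [h, hre'] at h1
    rw [h, him'] at h2
    linarith
  · intro x
    have e : ∀ j k, herm n x j k * herm n x k j = (((x j k ^ 2 + x k j ^ 2) / 2 : ℝ) : ℂ) := by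
      intro j k
      simp only [herm, Matrix.of_apply]
      push_cast
      linear_combination ((x j k : ℂ) * (x k j : ℂ) / 2 - (x j k : ℂ) ^ 2 / 4
        - (x k j : ℂ) ^ 2 / 4) * hI
    rw [Matrix.trace, sq]
    simp only [Matrix.diag_apply, Matrix.mul_apply]
    simp_rw [e]
    unfold qf
    rw [← Complex.ofReal_inj.2 (rfl : (∑ j, ∑ k, x j k ^ 2) = ∑ j, ∑ k, x j k ^ 2)]
    rw [show (∑ j, ∑ k, (((x j k ^ 2 + x k j ^ 2) / 2 : ℝ) : ℂ)) =
      ((∑ j, ∑ k, (x j k ^ 2 + x k j ^ 2) / 2 : ℝ) : ℂ) by push_cast; rfl]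
    congr 1
    have h2 : ∑ j, ∑ k, x k j ^ 2 = ∑ j, ∑ k, x j k ^ 2 := Finset.sum_comm
    have h3 : ∑ j, ∑ k, (x j k ^ 2 + x k j ^ 2) / 2 =
        ((∑ j, ∑ k, x j k ^ 2) + ∑ j, ∑ k, x k j ^ 2) / 2 := by
      rw [← Finset.sum_add_distrib, Finset.sum_div]
      refine Finset.sum_congr rfl fun j _ => ?_
      rw [← Finset.sum_add_distrib, Finset.sum_div]
    rw [h3, h2]
    ring

end Pool.Agent.Helper228.MM
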