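import Pool.Agent.Helper228.MM.Defs
import Pool.Agent.Helper228.MM.P_herm_lin

/-!
Definitions for the quartic one-matrix model `P(A) = A^4/4 - A^2` (MP_58f2bb_an).
-/

open MeasureTheory Filter Topology

namespace Pool.Agent.Helper228.MM



theorem trace_re_aux {n : ℕ} (M : Matrix (Fin n) (Fin n) ℂ)
    (h : Matrix.trace (Matrix.conjTranspose M) = Matrix.trace M) : (Matrix.trace M).im = 0 := by
  rw [Matrix.trace_conjTranspose] at h
  have h1 := congrArg Complex.im h
  rw [Complex.star_def, Complex.conj_im] at h1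
  linarith

theorem trace_re (n : ℕ) (x v : Fin n → Fin n → ℝ) (k : ℕ) :
    (Matrix.trace (herm n x ^ k * herm n v)).im = 0 ∧ (Matrix.trace (herm n x ^ k)).im = 0 := by
  obtain ⟨-, -, hH, -, -, -⟩ := herm_lin n
  have h1 : (herm n x ^ k).IsHermitian := (hH x).pow k
  constructor
  · apply trace_re_aux
    rw [Matrix.conjTranspose_mul, h1.eq, (hH v).eq, Matrix.trace_mul_comm]
  · apply trace_re_aux
    rw [h1.eq]

end Pool.Agent.Helper228.MM
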