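import Pool.Agent.Helper228.MM.Defs
import Pool.Agent.Helper228.MM.P_sum_trace_trace
import Pool.Agent.Helper228.MM.P_sum_trace_mid
import Pool.Agent.Helper228.MM.P_trace_re

/-!
Definitions for the quartic one-matrix model `P(A) = A^4/4 - A^2` (MP_58f2bb_an).
-/

open MeasureTheory Filter Topology

namespace Pool.Agent.Helper228.MM



theorem div_alg_tt (n : ℕ) (x : Fin n → Fin n → ℝ) (p q : ℕ) :
    ∑ i, ∑ j, (Matrix.trace (herm n x ^ p * hb n i j)).re *
      (Matrix.trace (herm n x ^ q * hb n i j)).re = (Matrix.trace (herm n x ^ (p + q))).re := by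
  rw [pow_add, ← sum_trace_trace, Complex.re_sum]
  refine Finset.sum_congr rfl fun i _ => ?_
  rw [Complex.re_sum]
  refine Finset.sum_congr rfl fun j _ => ?_
  have h1 : (Matrix.trace (herm n x ^ p * hb n i j)).im = 0 := (trace_re n x _ p).1
  rw [Complex.mul_re, h1, zero_mul, sub_zero]

theorem div_alg_tk (n : ℕ) (hn : 1 ≤ n) (x : Fin n → Fin n → ℝ) (m : ℕ) :
    (Matrix.trace (herm n x ^ m)).re = n * tk n m x := by
  have : (n : ℝ) ≠ 0 := by positivity
  unfold tk
  field_simp

theorem div_alg_mid (n : ℕ) (hn : 1 ≤ n) (x : Fin n → Fin n → ℝ) (k : ℕ) :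
    ∑ i, ∑ j, (∑ l ∈ Finset.range k,
      Matrix.trace (herm n x ^ l * hb n i j * herm n x ^ (k - 1 - l) * hb n i j)).re
      = (n : ℝ) ^ 2 * ∑ l ∈ Finset.range k, tk n l x * tk n (k - 1 - l) x := by
  have h1 : ∑ i, ∑ j, (∑ l ∈ Finset.range k,
      Matrix.trace (herm n x ^ l * hb n i j * herm n x ^ (k - 1 - l) * hb n i j)).re
      = ∑ l ∈ Finset.range k, (∑ i, ∑ j,
      Matrix.trace (herm n x ^ l * hb n i j * herm n x ^ (k - 1 - l) * hb n i j)).re := by
    simp_rw [Complex.re_sum]
    have h2 : ∀ i : Fin n, ∑ j, ∑ l ∈ Finset.range k,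
        (Matrix.trace (herm n x ^ l * hb n i j * herm n x ^ (k - 1 - l) * hb n i j)).re
        = ∑ l ∈ Finset.range k, ∑ j,
        (Matrix.trace (herm n x ^ l * hb n i j * herm n x ^ (k - 1 - l) * hb n i j)).re :=
      fun i => Finset.sum_comm
    simp_rw [h2]
    exact Finset.sum_comm
  rw [h1, Finset.mul_sum]
  refine Finset.sum_congr rfl fun l _ => ?_
  have h3 : (Matrix.trace (herm n x ^ l)).im = 0 := (trace_re n x x l).2
  rw [sum_trace_mid, Complex.mul_re, h3, zero_mul, sub_zero, div_alg_tk n hn, div_alg_tk n hn]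
  ring

theorem div_alg (n k a b : ℕ) (hn : 1 ≤ n) (x : Fin n → Fin n → ℝ) :
    (∑ i, ∑ j,
      ((((a : ℝ) / n * (Matrix.trace (herm n x ^ (a - 1) * hb n i j)).re) * tk n b x
          + tk n a x * ((b : ℝ) / n * (Matrix.trace (herm n x ^ (b - 1) * hb n i j)).re))
          * (Matrix.trace (herm n x ^ k * hb n i j)).re
        + tk n a x * tk n b x *
          (∑ l ∈ Finset.range k,
            Matrix.trace (herm n x ^ l * hb n i j * herm n x ^ (k - 1 - l) * hb n i j)).re
        - (n : ℝ) * (tk n a x * tk n b x * (Matrix.trace (herm n x ^ k * hb n i j)).re) *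
          (Matrix.trace ((herm n x ^ 3 - (2 : ℂ) • herm n x) * hb n i j)).re))
      = (a * tk n (k + a - 1) x * tk n b x + b * tk n a x * tk n (k + b - 1) x)
        + (n : ℝ) ^ 2 * (tk n a x * tk n b x * Sk (fun i => tk n i x) k) := by
  have hP : ∀ i j, (Matrix.trace ((herm n x ^ 3 - (2 : ℂ) • herm n x) * hb n i j)).re
      = (Matrix.trace (herm n x ^ 3 * hb n i j)).re
        - 2 * (Matrix.trace (herm n x ^ 1 * hb n i j)).re := by
    intro i j
    rw [Matrix.sub_mul, Matrix.trace_sub, Matrix.smul_mul, Matrix.trace_smul, Complex.sub_re,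
      smul_eq_mul, pow_one, Complex.mul_re]
    simp
  have hA : ∀ c : ℕ, (c : ℝ) / n * (Matrix.trace (herm n x ^ (c - 1 + k))).re
      = c * tk n (k + c - 1) x := by
    intro c
    have hn0 : (n : ℝ) ≠ 0 := by positivity
    rcases Nat.eq_zero_or_pos c with rfl | hc
    · simp
    · rw [div_alg_tk n hn, show c - 1 + k = k + c - 1 by omega]
      field_simp
  have e1 := div_alg_tt n x (a - 1) k
  have e2 := div_alg_tt n x (b - 1) k
  have e3 := div_alg_tt n x k 3
  have e4 := div_alg_tt n x k 1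
  have e5 := div_alg_mid n hn x k
  simp_rw [hP]
  have hs : ∀ i j : Fin n,
      ((((a : ℝ) / n * (Matrix.trace (herm n x ^ (a - 1) * hb n i j)).re) * tk n b x
          + tk n a x * ((b : ℝ) / n * (Matrix.trace (herm n x ^ (b - 1) * hb n i j)).re))
          * (Matrix.trace (herm n x ^ k * hb n i j)).re
        + tk n a x * tk n b x *
          (∑ l ∈ Finset.range k,
            Matrix.trace (herm n x ^ l * hb n i j * herm n x ^ (k - 1 - l) * hb n i j)).re
        - (n : ℝ) * (tk n a x * tk n b x * (Matrix.trace (herm n x ^ k * hb n i j)).re) *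
          ((Matrix.trace (herm n x ^ 3 * hb n i j)).re
            - 2 * (Matrix.trace (herm n x ^ 1 * hb n i j)).re))
      = ((a : ℝ) / n * tk n b x) * ((Matrix.trace (herm n x ^ (a - 1) * hb n i j)).re
          * (Matrix.trace (herm n x ^ k * hb n i j)).re)
        + ((b : ℝ) / n * tk n a x) * ((Matrix.trace (herm n x ^ (b - 1) * hb n i j)).re
          * (Matrix.trace (herm n x ^ k * hb n i j)).re)
        + (tk n a x * tk n b x) * (∑ l ∈ Finset.range k,
            Matrix.trace (herm n x ^ l * hb n i j * herm n x ^ (k - 1 - l) * hb n i j)).re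
        - ((n : ℝ) * (tk n a x * tk n b x)) * ((Matrix.trace (herm n x ^ k * hb n i j)).re
          * (Matrix.trace (herm n x ^ 3 * hb n i j)).re)
        + (2 * (n : ℝ) * (tk n a x * tk n b x)) * ((Matrix.trace (herm n x ^ k * hb n i j)).re
          * (Matrix.trace (herm n x ^ 1 * hb n i j)).re) := by
    intro i j
    ring
  simp_rw [hs, Finset.sum_add_distrib, Finset.sum_sub_distrib, Finset.sum_add_distrib,
    ← Finset.mul_sum, e1, e2, e3, e4, e5]
  rw [div_alg_tk n hn x (k + 3), div_alg_tk n hn x (k + 1)]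
  have ha := hA a
  have hb' := hA b
  have ha' : (a : ℝ) / n * tk n b x * (Matrix.trace (herm n x ^ (a - 1 + k))).re
      = a * tk n (k + a - 1) x * tk n b x := by
    rw [mul_right_comm, ha]
  have hb'' : (b : ℝ) / n * tk n a x * (Matrix.trace (herm n x ^ (b - 1 + k))).re
      = b * tk n a x * tk n (k + b - 1) x := by
    rw [mul_right_comm, hb']; ring
  rw [ha', hb'', Sk]
  ring

end Pool.Agent.Helper228.MM
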