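import Pool.Agent.Helper228.MM.Defs

/-!
Definitions for the quartic one-matrix model `P(A) = A^4/4 - A^2` (MP_58f2bb_an).
-/

open MeasureTheory Filter Topology

namespace Pool.Agent.Helper228.MM



theorem energy_cont (n : ℕ) :
    Continuous (herm n) ∧ Continuous (energy n) ∧ ∀ k, Continuous (tk n k) := by
  have h1 : Continuous (herm n) := by
    apply continuous_matrix
    intro j k
    have e : (fun x : Fin n → Fin n → ℝ => herm n x j k) = fun x =>
        ((1 + Complex.I) * (x j k : ℂ) + (1 - Complex.I) * (x k j : ℂ)) / 2 := rfl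
    rw [e]
    fun_prop
  refine ⟨h1, ?_, ?_⟩
  · have e : energy n = fun x =>
      -(n : ℝ) * (Matrix.trace ((1 / 4 : ℂ) • herm n x ^ 4 - herm n x ^ 2)).re := rfl
    rw [e]
    apply continuous_const.mul
    apply Complex.continuous_re.comp
    apply Continuous.matrix_trace
    exact ((h1.pow 4).const_smul (1 / 4 : ℂ)).sub (h1.pow 2)
  · intro k
    have e : tk n k = fun x => (Matrix.trace (herm n x ^ k)).re / n := rfl
    rw [e]
    apply Continuous.div_const
    apply Complex.continuous_re.comp
    exact (h1.pow k).matrix_trace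

end Pool.Agent.Helper228.MM
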