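import Pool.Agent.Helper228.MM.Defs
import Pool.Agent.Helper228.MM.P_deriv_trace

/-!
Definitions for the quartic one-matrix model `P(A) = A^4/4 - A^2` (MP_58f2bb_an).
-/

open MeasureTheory Filter Topology

namespace Pool.Agent.Helper228.MM



theorem energy_deriv_cyc (n : ℕ) (A H : Matrix (Fin n) (Fin n) ℂ) (k : ℕ) :
    ∑ l ∈ Finset.range k, Matrix.trace (A ^ l * H * A ^ (k - 1 - l) * 1) =
      (k : ℂ) * Matrix.trace (A ^ (k - 1) * H) := by
  have : ∀ l ∈ Finset.range k, Matrix.trace (A ^ l * H * A ^ (k - 1 - l) * 1) =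
      Matrix.trace (A ^ (k - 1) * H) := by
    intro l hl
    rw [Finset.mem_range] at hl
    rw [mul_one, Matrix.trace_mul_comm, ← mul_assoc, ← pow_add]
    congr 3
    omega
  rw [Finset.sum_congr rfl this, Finset.sum_const, Finset.card_range, nsmul_eq_mul]

theorem energy_deriv (n : ℕ) (x v : Fin n → Fin n → ℝ) :
    HasDerivAt (fun t : ℝ => energy n (x + t • v))
      (-(n : ℝ) * (Matrix.trace ((herm n x ^ 3 - (2 : ℂ) • herm n x) * herm n v)).re) 0 := by
  have h4 := deriv_trace n 4 x v 1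
  have h2 := deriv_trace n 2 x v 1
  rw [energy_deriv_cyc] at h4 h2
  have h5 := (h4.const_mul (1 / 4 : ℂ)).sub h2
  have h6 := (Complex.reCLM.hasFDerivAt.comp_hasDerivAt (0 : ℝ) h5).const_mul (-(n : ℝ))
  have hf : (fun t : ℝ => energy n (x + t • v)) = fun y : ℝ => -(n : ℝ) *
      (⇑Complex.reCLM ∘ ((fun y : ℝ => (1 / 4 : ℂ) * (herm n (x + y • v) ^ 4 * 1).trace) -
        fun t : ℝ => (herm n (x + t • v) ^ 2 * 1).trace)) y := by
    funext t
    unfold energy
    simp only [Function.comp, Matrix.trace_sub, Matrix.trace_smul, smul_eq_mul, mul_one]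
    rfl
  have hd : (-(n : ℝ) * (Matrix.trace ((herm n x ^ 3 - (2 : ℂ) • herm n x) * herm n v)).re) =
      -(n : ℝ) * Complex.reCLM (1 / 4 * (((4 : ℕ) : ℂ) * (herm n x ^ (4 - 1) * herm n v).trace) -
        ((2 : ℕ) : ℂ) * (herm n x ^ (2 - 1) * herm n v).trace) := by
    rw [sub_mul, Matrix.trace_sub, smul_mul_assoc, Matrix.trace_smul, smul_eq_mul]
    congr 1
    rw [Complex.reCLM_apply]
    congr 1
    norm_num
    ring
  rw [hf, hd]
  exact h6

end Pool.Agent.Helper228.MM
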