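import Pool.Agent.Helper228.MM.Defs

/-!
Definitions for the quartic one-matrix model `P(A) = A^4/4 - A^2` (MP_58f2bb_an).
-/

open MeasureTheory Filter Topology

namespace Pool.Agent.Helper228.MM



theorem entry_aux (n : ℕ) (x : Fin n → Fin n → ℝ) (l j : Fin n) :
    ‖herm n x l j‖ ≤ 1 + qf n x := by
  have hmem : ∀ a b : Fin n, x a b ^ 2 ≤ qf n x := by
    intro a b
    unfold qf
    calc x a b ^ 2 ≤ ∑ k, x a k ^ 2 :=
          Finset.single_le_sum (f := fun k => x a k ^ 2) (fun _ _ => sq_nonneg _) (Finset.mem_univ b)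
      _ ≤ ∑ j, ∑ k, x j k ^ 2 :=
          Finset.single_le_sum (f := fun j => ∑ k, x j k ^ 2)
            (fun _ _ => Finset.sum_nonneg fun _ _ => sq_nonneg _) (Finset.mem_univ a)
  have h0 : 0 ≤ qf n x := (sq_nonneg _).trans (hmem l j)
  have h1 : ‖herm n x l j‖ ^ 2 = (x l j ^ 2 + x j l ^ 2) / 2 := by
    rw [← Complex.normSq_eq_norm_sq]
    have : herm n x l j = ⟨(x l j + x j l) / 2, (x l j - x j l) / 2⟩ := by
      unfold herm
      rw [Matrix.of_apply]
      apply Complex.ext
      · simp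
      · simp
        ring
    rw [this, Complex.normSq_mk]
    ring
  have h2 : ‖herm n x l j‖ ^ 2 ≤ (1 + qf n x) ^ 2 := by
    rw [h1]
    nlinarith [hmem l j, hmem j l]
  exact (pow_le_pow_iff_left₀ (norm_nonneg _) (by linarith) two_ne_zero).mp h2

theorem entry_bound (n k : ℕ) (x : Fin n → Fin n → ℝ) (i j : Fin n) :
    ‖(herm n x ^ k) i j‖ ≤ ((n : ℝ) * (1 + qf n x)) ^ k := by
  have h0 : 0 ≤ qf n x := by
    unfold qf
    exact Finset.sum_nonneg fun _ _ => Finset.sum_nonneg fun _ _ => sq_nonneg _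
  induction k generalizing i j with
  | zero =>
    rw [pow_zero, pow_zero, Matrix.one_apply]
    split_ifs <;> simp
  | succ k ih =>
    rw [pow_succ, Matrix.mul_apply, pow_succ]
    calc ‖∑ l, (herm n x ^ k) i l * herm n x l j‖
        ≤ ∑ l, ‖(herm n x ^ k) i l * herm n x l j‖ := norm_sum_le _ _
      _ ≤ ∑ l : Fin n, ((n : ℝ) * (1 + qf n x)) ^ k * (1 + qf n x) := by
          apply Finset.sum_le_sum
          intro l _
          rw [norm_mul]
          exact mul_le_mul (ih i l) (entry_aux n x l j) (norm_nonneg _) (by positivity)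
      _ = ((n : ℝ) * (1 + qf n x)) ^ k * ((n : ℝ) * (1 + qf n x)) := by
          rw [Finset.sum_const, Finset.card_univ, Fintype.card_fin, nsmul_eq_mul]
          ring

end Pool.Agent.Helper228.MM
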