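import Pool.Agent.Helper228.MM.Defs
import Pool.Agent.Helper228.MM.P_herm_lin

/-!
Definitions for the quartic one-matrix model `P(A) = A^4/4 - A^2` (MP_58f2bb_an).
-/

open MeasureTheory Filter Topology

namespace Pool.Agent.Helper228.MM



open scoped ComplexOrder in
theorem h170_trace_nonneg {n : ℕ} (B : Matrix (Fin n) (Fin n) ℂ) :
    0 ≤ (Matrix.trace (B.conjTranspose * B)).re := by
  have h1 := (Matrix.posSemidef_conjTranspose_mul_self B).trace_nonneg
  exact (Complex.le_def.1 h1).1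

theorem weight_bound (n : ℕ) (x : Fin n → Fin n → ℝ) :
    Real.exp (energy n x) ≤ Real.exp (4 * (n : ℝ) ^ 2) * Real.exp (-(n : ℝ) * qf n x) := by
  rw [← Real.exp_add, Real.exp_le_exp]
  obtain ⟨-, -, hH, -, -, hq⟩ := herm_lin n
  have hA := hH x
  have hq2 := hq x
  obtain ⟨A, hAdef⟩ : ∃ A, A = herm n x := ⟨_, rfl⟩
  unfold energy
  rw [← hAdef] at hA hq2 ⊢
  obtain ⟨B, hB⟩ : ∃ B : Matrix (Fin n) (Fin n) ℂ, B = (1 / 2 : ℂ) • A ^ 2 - (2 : ℂ) • 1 := ⟨_, rfl⟩
  have hBH : B.conjTranspose = B := by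
    rw [hB, Matrix.conjTranspose_sub, Matrix.conjTranspose_smul, Matrix.conjTranspose_smul,
      Matrix.conjTranspose_one, Matrix.conjTranspose_pow, hA.eq]
    congr 1
    · congr 1
      simp
    · congr 1
      simp
  have hBB : B * B = ((1 / 4 : ℂ) • A ^ 4 - A ^ 2) - A ^ 2 + (4 : ℂ) • 1 := by
    rw [hB]
    simp only [sub_mul, mul_sub, smul_mul_assoc, mul_smul_comm, mul_one, one_mul, smul_sub,
      smul_smul]
    rw [show A ^ 2 * A ^ 2 = A ^ 4 by rw [← pow_add]]
    have h1 : (1 / 2 : ℂ) * (1 / 2) = 1 / 4 := by norm_num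
    have h2 : (1 / 2 : ℂ) * 2 = 1 := by norm_num
    have h3 : (2 : ℂ) * (1 / 2) = 1 := by norm_num
    have h4 : (2 : ℂ) * 2 = 4 := by norm_num
    simp only [h1, h2, h3, h4, one_smul]
    abel
  have hpos : 0 ≤ (Matrix.trace (B * B)).re := by
    have h1 := h170_trace_nonneg B
    rwa [hBH] at h1
  rw [hBB, Matrix.trace_add, Matrix.trace_sub, hq2, Matrix.trace_smul, Matrix.trace_one,
    Fintype.card_fin] at hpos
  simp only [Complex.add_re, Complex.sub_re, Complex.ofReal_re, smul_eq_mul, Complex.mul_re,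
    Complex.natCast_re, Complex.natCast_im, mul_zero, sub_zero, Complex.re_ofNat] at hpos
  have hn : (0 : ℝ) ≤ n := Nat.cast_nonneg n
  have := mul_nonneg hn hpos
  nlinarith [this]

end Pool.Agent.Helper228.MM
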