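import Pool.Agent.Helper228.MM.Defs
import Pool.Agent.Helper228.MM.P_weight_bound
import Pool.Agent.Helper228.MM.P_energy_cont

/-!
Definitions for the quartic one-matrix model `P(A) = A^4/4 - A^2` (MP_58f2bb_an).
-/

open MeasureTheory Filter Topology

namespace Pool.Agent.Helper228.MM



theorem integrable_exp_qf (n : ℕ) :
    Integrable (fun x : Fin n → Fin n → ℝ => Real.exp (-(1 / 2) * qf n x)) := by
  have h0 : Integrable (fun t : ℝ => Real.exp (-(1 / 2) * t ^ 2)) :=
    integrable_exp_neg_mul_sq (by norm_num)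
  have h1 : Integrable (fun y : Fin n → ℝ => ∏ k, Real.exp (-(1 / 2) * y k ^ 2)) := by
    have := Integrable.fintype_prod (ι := Fin n) (E := ℝ) (𝕜 := ℝ)
      (f := fun _ t => Real.exp (-(1 / 2) * t ^ 2)) (μ := fun _ => volume) (fun _ => h0)
    rw [volume_pi]
    exact this
  have h2 : Integrable (fun x : Fin n → Fin n → ℝ => ∏ j, ∏ k, Real.exp (-(1 / 2) * x j k ^ 2)) := by
    have := Integrable.fintype_prod (ι := Fin n) (E := Fin n → ℝ) (𝕜 := ℝ)
      (f := fun _ y => ∏ k, Real.exp (-(1 / 2) * y k ^ 2)) (μ := fun _ => volume) (fun _ => h1)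
    rw [volume_pi]
    exact this
  refine h2.congr (Filter.Eventually.of_forall fun x => ?_)
  simp only [qf, Finset.mul_sum, Real.exp_sum]

theorem one_add_pow_le (N : ℕ) (t : ℝ) (ht : 0 ≤ t) :
    (1 + t) ^ N ≤ (2 ^ N * (Nat.factorial N : ℝ) * Real.exp (1 / 2)) * Real.exp (t / 2) := by
  have h1 := Real.pow_div_factorial_le_exp (x := (1 + t) / 2) (by positivity) N
  have hf : (0 : ℝ) < (Nat.factorial N : ℝ) := by positivity
  rw [div_le_iff₀ hf, div_pow, div_le_iff₀ (by positivity)] at h1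
  have h2 : Real.exp ((1 + t) / 2) = Real.exp (1 / 2) * Real.exp (t / 2) := by
    rw [← Real.exp_add]; congr 1; ring
  rw [h2] at h1
  calc (1 + t) ^ N ≤ Real.exp (1 / 2) * Real.exp (t / 2) * (Nat.factorial N : ℝ) * 2 ^ N := h1
    _ = _ := by ring

theorem integrable_weight (n : ℕ) (hn : 1 ≤ n) (g : (Fin n → Fin n → ℝ) → ℝ) (hg : Continuous g)
    (C : ℝ) (N : ℕ) (h : ∀ x, |g x| ≤ C * (1 + qf n x) ^ N) :
    Integrable (fun x => g x * Real.exp (energy n x)) := by
  set K : ℝ := |C| * (2 ^ N * (Nat.factorial N : ℝ) * Real.exp (1 / 2)) *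
    Real.exp (4 * (n : ℝ) ^ 2) with hK
  have hI : Integrable (fun x : Fin n → Fin n → ℝ => K * Real.exp (-(1 / 2) * qf n x)) :=
    (integrable_exp_qf n).const_mul K
  refine hI.mono' ?_ (Filter.Eventually.of_forall fun x => ?_)
  · exact (hg.mul (Real.continuous_exp.comp (energy_cont n).2.1)).aestronglyMeasurable
  · have hq : 0 ≤ qf n x := Finset.sum_nonneg fun j _ => Finset.sum_nonneg fun k _ => sq_nonneg _
    have hn' : (1 : ℝ) ≤ n := by exact_mod_cast hn
    rw [Real.norm_eq_abs, abs_mul, abs_of_pos (Real.exp_pos _)]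
    have h1 : |g x| ≤ |C| * ((2 ^ N * (Nat.factorial N : ℝ) * Real.exp (1 / 2)) *
        Real.exp (qf n x / 2)) := by
      calc |g x| ≤ C * (1 + qf n x) ^ N := h x
        _ ≤ |C| * (1 + qf n x) ^ N := by
            apply mul_le_mul_of_nonneg_right (le_abs_self C)
            positivity
        _ ≤ _ := mul_le_mul_of_nonneg_left (one_add_pow_le N _ hq) (abs_nonneg C)
    have h2 : Real.exp (energy n x) ≤ Real.exp (4 * (n : ℝ) ^ 2) * Real.exp (-(qf n x)) := by
      refine (weight_bound n x).trans ?_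
      apply mul_le_mul_of_nonneg_left _ (Real.exp_pos _).le
      apply Real.exp_le_exp.mpr
      nlinarith
    have h3 : Real.exp (-(1 / 2) * qf n x) = Real.exp (qf n x / 2) * Real.exp (-(qf n x)) := by
      rw [← Real.exp_add]; congr 1; ring
    calc |g x| * Real.exp (energy n x) ≤ (|C| * ((2 ^ N * (Nat.factorial N : ℝ) * Real.exp (1 / 2)) *
        Real.exp (qf n x / 2))) * (Real.exp (4 * (n : ℝ) ^ 2) * Real.exp (-(qf n x))) := by
          apply mul_le_mul h1 h2 (Real.exp_pos _).le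
          positivity
      _ = K * Real.exp (-(1 / 2) * qf n x) := by rw [h3, hK]; ring

end Pool.Agent.Helper228.MM
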