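import Pool.Agent.Helper228.MM.Defs
import Pool.Agent.Helper228.MM.P_integrable_weight

/-!
Definitions for the quartic one-matrix model `P(A) = A^4/4 - A^2` (MP_58f2bb_an).
-/

open MeasureTheory Filter Topology

namespace Pool.Agent.Helper228.MM



theorem model_prob (n : ℕ) (hn : 1 ≤ n) :
    IsProbabilityMeasure (model n) ∧ Integrable (fun x => Real.exp (energy n x)) ∧
      0 < ∫ x, Real.exp (energy n x) := by
  have h1 : Integrable (fun x => Real.exp (energy n x)) := by
    have := integrable_weight n hn (fun _ => 1) continuous_const 1 0 (fun x => by simp)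
    simpa using this
  exact ⟨isProbabilityMeasure_tilted h1, h1, integral_exp_pos h1⟩

end Pool.Agent.Helper228.MM
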