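import Pool.Agent.Helper228.MM.Defs
import Pool.Agent.Helper228.MM.P_entry_bound

/-!
Definitions for the quartic one-matrix model `P(A) = A^4/4 - A^2` (MP_58f2bb_an).
-/

open MeasureTheory Filter Topology

namespace Pool.Agent.Helper228.MM



theorem trace_hb_bound (n k : ℕ) (hn : 1 ≤ n) (v : Fin n → Fin n → ℝ) :
    ∃ C : ℝ, 0 ≤ C ∧ ∀ x, |(Matrix.trace (herm n x ^ k * herm n v)).re| ≤ C * (1 + qf n x) ^ k := by
  refine ⟨(n : ℝ) ^ k * ∑ i, ∑ j, ‖herm n v j i‖, by positivity, ?_⟩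
  intro x
  calc |(Matrix.trace (herm n x ^ k * herm n v)).re|
      ≤ ‖Matrix.trace (herm n x ^ k * herm n v)‖ := Complex.abs_re_le_norm _
    _ = ‖∑ i, ∑ j, (herm n x ^ k) i j * herm n v j i‖ := by
        simp [Matrix.trace, Matrix.mul_apply]
    _ ≤ ∑ i, ∑ j, ‖(herm n x ^ k) i j * herm n v j i‖ := by
        refine (norm_sum_le _ _).trans (Finset.sum_le_sum fun i _ => norm_sum_le _ _)
    _ ≤ ∑ i, ∑ j, ((n : ℝ) * (1 + qf n x)) ^ k * ‖herm n v j i‖ := by
        refine Finset.sum_le_sum fun i _ => Finset.sum_le_sum fun j _ => ?_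
        rw [norm_mul]
        exact mul_le_mul_of_nonneg_right (entry_bound n k x i j) (norm_nonneg _)
    _ = (n : ℝ) ^ k * (∑ i, ∑ j, ‖herm n v j i‖) * (1 + qf n x) ^ k := by
        simp only [← Finset.mul_sum]
        rw [mul_pow]
        ring

end Pool.Agent.Helper228.MM
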