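import Pool.Agent.Helper228.MM.Defs
import Pool.Agent.Helper228.MM.P_integrable_weight
import Pool.Agent.Helper228.MM.P_energy_deriv
import Pool.Agent.Helper228.MM.P_energy_cont
import Pool.Agent.Helper228.MM.P_trace_hb_bound

/-!
Definitions for the quartic one-matrix model `P(A) = A^4/4 - A^2` (MP_58f2bb_an).
-/

open MeasureTheory Filter Topology

namespace Pool.Agent.Helper228.MM



theorem ibp_dir (n : ℕ) (hn : 1 ≤ n) (v : Fin n → Fin n → ℝ)
    (F F' : (Fin n → Fin n → ℝ) → ℝ) (hF : Continuous F) (hF' : Continuous F')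
    (hd : ∀ x, HasDerivAt (fun t : ℝ => F (x + t • v)) (F' x) 0)
    (C : ℝ) (N : ℕ) (h : ∀ x, |F x| ≤ C * (1 + qf n x) ^ N)
    (h' : ∀ x, |F' x| ≤ C * (1 + qf n x) ^ N) :
    ∫ x, (F' x - (n : ℝ) * F x *
        (Matrix.trace ((herm n x ^ 3 - (2 : ℂ) • herm n x) * herm n v)).re) *
      Real.exp (energy n x) = 0 := by
  have hq : ∀ x, 0 ≤ qf n x := fun x =>
    Finset.sum_nonneg fun j _ => Finset.sum_nonneg fun k _ => sq_nonneg _
  have hC : 0 ≤ C := by
    by_contra hcon
    push Not at hcon
    have h1 := h 0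
    have h2 : 0 < (1 + qf n 0) ^ N := by have := hq 0; positivity
    have h3 := abs_nonneg (F 0)
    nlinarith
  obtain ⟨C3, hC3, h3⟩ := trace_hb_bound n 3 hn v
  obtain ⟨C1, hC1, h1⟩ := trace_hb_bound n 1 hn v
  let tr : (Fin n → Fin n → ℝ) → ℝ := fun x =>
    (Matrix.trace ((herm n x ^ 3 - (2 : ℂ) • herm n x) * herm n v)).re
  have htr : ∀ x, |tr x| ≤ (C3 + 2 * C1) * (1 + qf n x) ^ 3 := by
    intro x
    have e : tr x = (Matrix.trace (herm n x ^ 3 * herm n v)).re
        - 2 * (Matrix.trace (herm n x ^ 1 * herm n v)).re := by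
      simp only [tr, pow_one, sub_mul, Matrix.trace_sub, Matrix.smul_mul, Matrix.trace_smul,
        Complex.sub_re, smul_eq_mul, Complex.mul_re]
      simp
    rw [e]
    have h4 := h3 x
    have h5 := h1 x
    have h6 : (1 + qf n x) ^ 1 ≤ (1 + qf n x) ^ 3 :=
      pow_le_pow_right₀ (by have := hq x; linarith) (by norm_num)
    have h7 := mul_le_mul_of_nonneg_left h6 hC1
    have h4' := abs_le.1 h4
    have h5' := abs_le.1 h5
    rw [abs_le]
    constructor <;> linarith [h4'.1, h4'.2, h5'.1, h5'.2]
  have htrc : Continuous tr := by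
    have hh := (energy_cont n).1
    exact Complex.continuous_re.comp
      (Continuous.matrix_trace (((hh.pow 3).sub (hh.const_smul (2:ℂ))).mul continuous_const))
  have i1 : Integrable (fun x => F x * Real.exp (energy n x)) := integrable_weight n hn F hF C N h
  have i2 : Integrable (fun x => (F' x - (n : ℝ) * F x * tr x) * Real.exp (energy n x)) := by
    refine integrable_weight n hn _ ?_ (C + n * C * (C3 + 2 * C1)) (N + 3) ?_
    · exact hF'.sub ((continuous_const.mul hF).mul htrc)
    · intro x
      have hx1 : 1 ≤ 1 + qf n x := by have := hq x; linarith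
      have b1 : |F' x| ≤ C * (1 + qf n x) ^ (N + 3) :=
        le_trans (h' x) (mul_le_mul_of_nonneg_left (pow_le_pow_right₀ hx1 (by omega)) hC)
      have b2 : |(n : ℝ) * F x * tr x| ≤ n * C * (C3 + 2 * C1) * (1 + qf n x) ^ (N + 3) := by
        rw [abs_mul, abs_mul, abs_of_nonneg (Nat.cast_nonneg n : (0:ℝ) ≤ n)]
        calc (n : ℝ) * |F x| * |tr x| ≤ (n * (C * (1 + qf n x) ^ N)) *
              ((C3 + 2 * C1) * (1 + qf n x) ^ 3) := by
              apply mul_le_mul (mul_le_mul_of_nonneg_left (h x) (Nat.cast_nonneg n)) (htr x)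
                (abs_nonneg _)
              have := hq x
              positivity
          _ = n * C * (C3 + 2 * C1) * (1 + qf n x) ^ (N + 3) := by ring
      have b1' := abs_le.1 b1
      have b2' := abs_le.1 b2
      rw [abs_le]
      constructor <;> linarith [b1'.1, b1'.2, b2'.1, b2'.2]
  have key := integral_bilinear_hasLineDerivAt_right_eq_neg_left_of_integrable
    (μ := (volume : Measure (Fin n → Fin n → ℝ)))
    (f := fun _ : (Fin n → Fin n → ℝ) => (1 : ℝ)) (f' := fun _ => (0 : ℝ))
    (g := fun x => F x * Real.exp (energy n x))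
    (g' := fun x => (F' x - (n : ℝ) * F x * tr x) * Real.exp (energy n x))
    (v := v) (B := ContinuousLinearMap.mul ℝ ℝ)
    (by simp) (by simpa using i2) (by simpa using i1)
    (by
      intro x _
      exact hasDerivAt_const (0:ℝ) (1:ℝ))
    (by
      intro x _
      have d1 := hd x
      have d2 := (energy_deriv n x v).exp
      have d3 := d1.mul d2
      show HasDerivAt (fun t : ℝ => F (x + t • v) * Real.exp (energy n (x + t • v))) _ 0
      refine d3.congr_deriv ?_
      simp only [zero_smul, add_zero]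
      ring)
  simpa using key

end Pool.Agent.Helper228.MM
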