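import Pool.Agent.Helper228.MM.Defs
import Pool.Agent.Helper228.MM.P_entry_bound

/-!
Definitions for the quartic one-matrix model `P(A) = A^4/4 - A^2` (MP_58f2bb_an).
-/

open MeasureTheory Filter Topology

namespace Pool.Agent.Helper228.MM



theorem tk_bound (n k : ℕ) (hn : 1 ≤ n) :
    ∃ C : ℝ, 0 ≤ C ∧ ∀ x, |tk n k x| ≤ C * (1 + qf n x) ^ k := by
  refine ⟨(n : ℝ) ^ k * n, by positivity, fun x => ?_⟩
  have hn' : (1 : ℝ) ≤ n := by exact_mod_cast hn
  unfold tk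
  rw [abs_div, abs_of_nonneg (by positivity : (0:ℝ) ≤ n), div_le_iff₀ (by linarith)]
  have h1 : |(Matrix.trace (herm n x ^ k)).re| ≤ ∑ i : Fin n, ((n : ℝ) * (1 + qf n x)) ^ k := by
    refine (Complex.abs_re_le_norm _).trans ?_
    unfold Matrix.trace
    refine (norm_sum_le _ _).trans (Finset.sum_le_sum fun i _ => ?_)
    exact entry_bound n k x i i
  rw [Finset.sum_const, Finset.card_univ, Fintype.card_fin, nsmul_eq_mul, mul_pow] at h1
  have hq : 0 ≤ qf n x := Finset.sum_nonneg fun j _ => Finset.sum_nonneg fun k _ => sq_nonneg _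
  have h2 : 0 ≤ (n : ℝ) ^ k * n * (1 + qf n x) ^ k := by positivity
  calc |(Matrix.trace (herm n x ^ k)).re| ≤ n * ((n : ℝ) ^ k * (1 + qf n x) ^ k) := h1
    _ = (n : ℝ) ^ k * n * (1 + qf n x) ^ k * 1 := by ring
    _ ≤ (n : ℝ) ^ k * n * (1 + qf n x) ^ k * n := mul_le_mul_of_nonneg_left hn' h2

end Pool.Agent.Helper228.MM
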