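import Pool.Agent.Helper228.MM.Defs
import Pool.Agent.Helper228.MM.P_deriv_trace

/-!
Definitions for the quartic one-matrix model `P(A) = A^4/4 - A^2` (MP_58f2bb_an).
-/

open MeasureTheory Filter Topology

namespace Pool.Agent.Helper228.MM



theorem tk_deriv (n k : ℕ) (hn : 1 ≤ n) (x v : Fin n → Fin n → ℝ) :
    HasDerivAt (fun t : ℝ => tk n k (x + t • v))
      ((k : ℝ) / n * (Matrix.trace (herm n x ^ (k - 1) * herm n v)).re) 0 := by
  have h := deriv_trace n k x v 1
  simp only [mul_one] at h
  have hs : ∑ l ∈ Finset.range k,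
      Matrix.trace (herm n x ^ l * herm n v * herm n x ^ (k - 1 - l)) =
      (k : ℂ) * Matrix.trace (herm n x ^ (k - 1) * herm n v) := by
    rw [Finset.sum_congr rfl (g := fun _ => Matrix.trace (herm n x ^ (k - 1) * herm n v))]
    · rw [Finset.sum_const, Finset.card_range, nsmul_eq_mul]
    · intro l hl
      rw [Finset.mem_range] at hl
      rw [Matrix.trace_mul_comm, ← mul_assoc, ← pow_add]
      congr 3
      omega
  rw [hs] at h
  have h2 := (Complex.reCLM.hasFDerivAt (x := Matrix.trace (herm n (x + (0:ℝ) • v) ^ k))).comp_hasDerivAt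
    (0:ℝ) h
  have h3 := h2.div_const (n : ℝ)
  refine h3.congr_deriv ?_
  simp only [Complex.reCLM_apply]
  rw [← Complex.ofReal_natCast, Complex.re_ofReal_mul]
  ring

end Pool.Agent.Helper228.MM
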