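import Pool.Agent.Helper228.MM.Defs
import Pool.Agent.Helper228.MM.P_deriv_trace
import Pool.Agent.Helper228.MM.P_entry_bound
import Pool.Agent.Helper228.MM.P_integrable_weight
import Pool.Agent.Helper228.MM.P_energy_cont
import Pool.Agent.Helper228.MM.P_ibp_dir
import Pool.Agent.Helper228.MM.P_trace_re
import Pool.Agent.Helper228.MM.P_tk_deriv
import Pool.Agent.Helper228.MM.P_tk_bound
import Pool.Agent.Helper228.MM.P_trace_hb_bound
import Pool.Agent.Helper228.MM.P_div_alg

/-!
Definitions for the quartic one-matrix model `P(A) = A^4/4 - A^2` (MP_58f2bb_an).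
-/

open MeasureTheory Filter Topology

namespace Pool.Agent.Helper228.MM



section li

/-- continuous functions of polynomial growth -/
def li_Z {E : Type} [NormedRing E] (n : ℕ) (g : (Fin n → Fin n → ℝ) → E) : Prop :=
  Continuous g ∧ ∃ (C : ℝ) (N : ℕ), 0 ≤ C ∧ ∀ x, ‖g x‖ ≤ C * (1 + qf n x) ^ N

variable {n : ℕ}

theorem li_q (x : Fin n → Fin n → ℝ) : 1 ≤ 1 + qf n x := by
  have : 0 ≤ qf n x := Finset.sum_nonneg fun i _ => Finset.sum_nonneg fun j _ => sq_nonneg _
  linarith

theorem li_mono {C C' : ℝ} (hC : 0 ≤ C) (hC' : C ≤ C') {N N' : ℕ} (hN : N ≤ N')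
    (x : Fin n → Fin n → ℝ) : C * (1 + qf n x) ^ N ≤ C' * (1 + qf n x) ^ N' := by
  have h1 := li_q x
  exact mul_le_mul hC' (pow_le_pow_right₀ h1 hN) (by positivity) (hC.trans hC')

theorem li_Z.const {E : Type} [NormedRing E] (c : E) : li_Z n (fun _ => c) :=
  ⟨continuous_const, ‖c‖, 0, norm_nonneg _, fun x => by simp⟩

theorem li_Z.add {E : Type} [NormedRing E] {f g : (Fin n → Fin n → ℝ) → E} (hf : li_Z n f)
    (hg : li_Z n g) : li_Z n (fun x => f x + g x) := by
  obtain ⟨cf, C, N, hC, h⟩ := hf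
  obtain ⟨cg, C', N', hC', h'⟩ := hg
  refine ⟨cf.add cg, C + C', N + N', add_nonneg hC hC', fun x => ?_⟩
  refine (norm_add_le _ _).trans ?_
  rw [add_mul]
  exact add_le_add ((h x).trans (li_mono hC le_rfl (Nat.le_add_right _ _) x))
    ((h' x).trans (li_mono hC' le_rfl (Nat.le_add_left _ _) x))

theorem li_Z.mul {E : Type} [NormedRing E] {f g : (Fin n → Fin n → ℝ) → E} (hf : li_Z n f)
    (hg : li_Z n g) : li_Z n (fun x => f x * g x) := by
  obtain ⟨cf, C, N, hC, h⟩ := hf
  obtain ⟨cg, C', N', hC', h'⟩ := hg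
  refine ⟨cf.mul cg, C * C', N + N', mul_nonneg hC hC', fun x => ?_⟩
  refine (norm_mul_le _ _).trans ?_
  have h1 := li_q x
  calc ‖f x‖ * ‖g x‖ ≤ (C * (1 + qf n x) ^ N) * (C' * (1 + qf n x) ^ N') :=
        mul_le_mul (h x) (h' x) (norm_nonneg _) (by positivity)
    _ = C * C' * (1 + qf n x) ^ (N + N') := by rw [pow_add]; ring

theorem li_Z.neg {E : Type} [NormedRing E] {f : (Fin n → Fin n → ℝ) → E} (hf : li_Z n f) :
    li_Z n (fun x => - f x) := by
  obtain ⟨cf, C, N, hC, h⟩ := hf
  exact ⟨cf.neg, C, N, hC, fun x => by rw [norm_neg]; exact h x⟩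

theorem li_Z.sub {E : Type} [NormedRing E] {f g : (Fin n → Fin n → ℝ) → E} (hf : li_Z n f)
    (hg : li_Z n g) : li_Z n (fun x => f x - g x) := by
  have := hf.add hg.neg
  simpa only [sub_eq_add_neg] using this

theorem li_Z.sum {E : Type} [NormedRing E] {ι : Type} (s : Finset ι)
    {f : ι → (Fin n → Fin n → ℝ) → E} (hf : ∀ i, li_Z n (f i)) :
    li_Z n (fun x => ∑ i ∈ s, f i x) := by
  classical
  induction s using Finset.induction_on with
  | empty => simpa using (li_Z.const (n := n) (0 : E))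
  | insert a s ha ih =>
    simp only [Finset.sum_insert ha]
    exact (hf a).add ih

theorem li_Z.re {f : (Fin n → Fin n → ℝ) → ℂ} (hf : li_Z n f) : li_Z n (fun x => (f x).re) := by
  obtain ⟨cf, C, N, hC, h⟩ := hf
  exact ⟨Complex.continuous_re.comp cf, C, N, hC,
    fun x => (Complex.abs_re_le_norm _).trans (h x)⟩

/-- matrices with entries of polynomial growth -/
def li_M (M : (Fin n → Fin n → ℝ) → Matrix (Fin n) (Fin n) ℂ) : Prop :=
  ∀ p q, li_Z n (fun x => M x p q)

theorem li_M.mul {M N : (Fin n → Fin n → ℝ) → Matrix (Fin n) (Fin n) ℂ} (hM : li_M M)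
    (hN : li_M N) : li_M (fun x => M x * N x) := by
  intro p q
  simp only [Matrix.mul_apply]
  exact li_Z.sum _ fun r => (hM p r).mul (hN r q)

theorem li_M.const (M : Matrix (Fin n) (Fin n) ℂ) : li_M (fun _ => M) := fun p q => li_Z.const _

theorem li_M.trace {M : (Fin n → Fin n → ℝ) → Matrix (Fin n) (Fin n) ℂ} (hM : li_M M) :
    li_Z n (fun x => Matrix.trace (M x)) := by
  simp only [Matrix.trace, Matrix.diag]
  exact li_Z.sum _ fun r => hM r r

theorem li_M.pow (k : ℕ) : li_M (fun x => herm n x ^ k) := by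
  intro p q
  refine ⟨((energy_cont n).1.pow k).matrix_elem p q, (n : ℝ) ^ k, k, by positivity, fun x => ?_⟩
  have := entry_bound n k x p q
  rw [mul_pow] at this
  exact this

theorem li_tk (hn : 1 ≤ n) (k : ℕ) : li_Z n (fun x => tk n k x) := by
  obtain ⟨C, hC, h⟩ := tk_bound n k hn
  exact ⟨(energy_cont n).2.2 k, C, k, hC, h⟩

theorem li_int (hn : 1 ≤ n) {g : (Fin n → Fin n → ℝ) → ℝ} (hg : li_Z n g) :
    Integrable (fun x => g x * Real.exp (energy n x)) := by
  obtain ⟨cg, C, N, hC, h⟩ := hg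
  exact integrable_weight n hn g cg C N h

theorem li_Wt : li_M (fun x => herm n x ^ 3 - (2 : ℂ) • herm n x) := by
  intro p q
  have h3 := li_M.pow (n := n) 3 p q
  have h1 := li_M.pow (n := n) 1 p q
  simp only [pow_one] at h1
  have := h3.sub ((li_Z.const (2 : ℂ)).mul h1)
  exact this

theorem li_pair (k a b : ℕ) (hn : 1 ≤ n) (i j : Fin n) :
    li_Z n (fun x => ((((a : ℝ) / n * (Matrix.trace (herm n x ^ (a - 1) * hb n i j)).re) * tk n b x
          + tk n a x * ((b : ℝ) / n * (Matrix.trace (herm n x ^ (b - 1) * hb n i j)).re))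
          * (Matrix.trace (herm n x ^ k * hb n i j)).re
        + tk n a x * tk n b x *
          (∑ l ∈ Finset.range k,
            Matrix.trace (herm n x ^ l * hb n i j * herm n x ^ (k - 1 - l) * hb n i j)).re
        - (n : ℝ) * (tk n a x * tk n b x * (Matrix.trace (herm n x ^ k * hb n i j)).re) *
          (Matrix.trace ((herm n x ^ 3 - (2 : ℂ) • herm n x) * hb n i j)).re)) ∧
    ∫ x, ((((a : ℝ) / n * (Matrix.trace (herm n x ^ (a - 1) * hb n i j)).re) * tk n b x
          + tk n a x * ((b : ℝ) / n * (Matrix.trace (herm n x ^ (b - 1) * hb n i j)).re))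
          * (Matrix.trace (herm n x ^ k * hb n i j)).re
        + tk n a x * tk n b x *
          (∑ l ∈ Finset.range k,
            Matrix.trace (herm n x ^ l * hb n i j * herm n x ^ (k - 1 - l) * hb n i j)).re
        - (n : ℝ) * (tk n a x * tk n b x * (Matrix.trace (herm n x ^ k * hb n i j)).re) *
          (Matrix.trace ((herm n x ^ 3 - (2 : ℂ) • herm n x) * hb n i j)).re) *
      Real.exp (energy n x) = 0 := by
  have hb' := li_M.const (n := n) (hb n i j)
  have hT : ∀ m, li_Z n (fun x => (Matrix.trace (herm n x ^ m * hb n i j)).re) :=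
    fun m => ((li_M.pow m).mul hb').trace.re
  have hS : li_Z n (fun x => (∑ l ∈ Finset.range k,
      Matrix.trace (herm n x ^ l * hb n i j * herm n x ^ (k - 1 - l) * hb n i j)).re) :=
    (li_Z.sum _ fun l => ((((li_M.pow l).mul hb').mul (li_M.pow (k - 1 - l))).mul hb').trace).re
  have hW : li_Z n (fun x => (Matrix.trace ((herm n x ^ 3 - (2 : ℂ) • herm n x) * hb n i j)).re) :=
    (li_Wt.mul hb').trace.re
  have hF := ((li_tk hn a).mul (li_tk hn b)).mul (hT k)
  have hF' := (((((li_Z.const ((a : ℝ) / n)).mul (hT (a - 1))).mul (li_tk hn b)).add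
    ((li_tk hn a).mul ((li_Z.const ((b : ℝ) / n)).mul (hT (b - 1))))).mul (hT k)).add
    (((li_tk hn a).mul (li_tk hn b)).mul hS)
  constructor
  · exact hF'.sub (((li_Z.const (n : ℝ)).mul hF).mul hW)
  · obtain ⟨cF, C, N, hC, h⟩ := hF
    obtain ⟨cF', C', N', hC', h'⟩ := hF'
    refine ibp_dir n hn (Pi.single i (Pi.single j 1)) _ _ cF cF' ?_ (C + C') (N + N') ?_ ?_
    · intro x
      have d1 := tk_deriv n a hn x (Pi.single i (Pi.single j 1))
      have d2 := tk_deriv n b hn x (Pi.single i (Pi.single j 1))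
      have d3 := (Complex.reCLM.hasFDerivAt (x := Matrix.trace (herm n (x + (0:ℝ) •
        (Pi.single i (Pi.single j 1) : Fin n → Fin n → ℝ)) ^ k * hb n i j))).comp_hasDerivAt 0
        (deriv_trace n k x (Pi.single i (Pi.single j 1)) (hb n i j))
      have d4 := (d1.mul d2).mul d3
      refine d4.congr_deriv ?_
      simp only [zero_smul, add_zero, Complex.reCLM_apply, Function.comp, Pi.mul_apply]
      rfl
    · intro x
      exact (h x).trans (li_mono hC (by linarith) (Nat.le_add_right _ _) x)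
    · intro x
      exact (h' x).trans (li_mono hC' (by linarith) (Nat.le_add_left _ _) x)

end li

theorem loop_ibp (n k a b : ℕ) (hn : 1 ≤ n) :
    ∫ x, (tk n a x * tk n b x * Sk (fun i => tk n i x) k) * Real.exp (energy n x)
      = -(1 / (n : ℝ) ^ 2) * ∫ x, (a * tk n (k + a - 1) x * tk n b x
          + b * tk n a x * tk n (k + b - 1) x) * Real.exp (energy n x) := by
  have hP : li_Z n (fun x => (a * tk n (k + a - 1) x * tk n b x
          + b * tk n a x * tk n (k + b - 1) x)) :=
    (((li_Z.const (a : ℝ)).mul (li_tk hn _)).mul (li_tk hn b)).add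
      (((li_Z.const (b : ℝ)).mul (li_tk hn a)).mul (li_tk hn _))
  have hQ : li_Z n (fun x => (tk n a x * tk n b x * Sk (fun i => tk n i x) k)) := by
    have hS : li_Z n (fun x => Sk (fun i => tk n i x) k) := by
      unfold Sk
      exact ((li_Z.sum _ fun l => (li_tk hn l).mul (li_tk hn _)).sub (li_tk hn _)).add
        ((li_Z.const (2 : ℝ)).mul (li_tk hn _))
    exact ((li_tk hn a).mul (li_tk hn b)).mul hS
  have hzero : ∫ x, ((a * tk n (k + a - 1) x * tk n b x + b * tk n a x * tk n (k + b - 1) x)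
        + (n : ℝ) ^ 2 * (tk n a x * tk n b x * Sk (fun i => tk n i x) k)) *
        Real.exp (energy n x) = 0 := by
    simp only [← div_alg n k a b hn, Finset.sum_mul]
    rw [integral_finset_sum _ fun i _ => ?_]
    · refine Finset.sum_eq_zero fun i _ => ?_
      rw [integral_finset_sum _ fun j _ => ?_]
      · exact Finset.sum_eq_zero fun j _ => (li_pair k a b hn i j).2
      · exact li_int hn (li_pair k a b hn i j).1
    · exact integrable_finset_sum _ fun j _ => li_int hn (li_pair k a b hn i j).1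
  have hI1 := li_int hn hP
  have hI2 := (li_int hn hQ).const_mul ((n : ℝ) ^ 2)
  have hsplit : ∫ x, ((a * tk n (k + a - 1) x * tk n b x + b * tk n a x * tk n (k + b - 1) x)
        + (n : ℝ) ^ 2 * (tk n a x * tk n b x * Sk (fun i => tk n i x) k)) *
        Real.exp (energy n x) =
      (∫ x, (a * tk n (k + a - 1) x * tk n b x
          + b * tk n a x * tk n (k + b - 1) x) * Real.exp (energy n x)) +
      (n : ℝ) ^ 2 * ∫ x, (tk n a x * tk n b x * Sk (fun i => tk n i x) k) *
        Real.exp (energy n x) := by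
    rw [← integral_const_mul, ← integral_add hI1 hI2]
    congr 1
    funext x
    ring
  rw [hsplit] at hzero
  have hn0 : (n : ℝ) ≠ 0 := by
    have : 0 < n := by omega
    positivity
  have h2 : (n : ℝ) ^ 2 ≠ 0 := pow_ne_zero 2 hn0
  field_simp
  linarith

end Pool.Agent.Helper228.MM
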