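import Pool.Agent.Helper228.MM.Defs
import Pool.Agent.Helper228.MM.P_integrable_weight
import Pool.Agent.Helper228.MM.P_model_prob

/-!
Definitions for the quartic one-matrix model `P(A) = A^4/4 - A^2` (MP_58f2bb_an).
-/

open MeasureTheory Filter Topology

namespace Pool.Agent.Helper228.MM



theorem model_int (n : ℕ) (hn : 1 ≤ n) (g : (Fin n → Fin n → ℝ) → ℝ) (hg : Continuous g)
    (C : ℝ) (N : ℕ) (h : ∀ x, |g x| ≤ C * (1 + qf n x) ^ N) :
    Integrable g (model n) ∧
      ∫ x, g x ∂(model n) = (∫ x, g x * Real.exp (energy n x)) / ∫ x, Real.exp (energy n x) := by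
  obtain ⟨_, hint, hpos⟩ := model_prob n hn
  have hw := integrable_weight n hn g hg C N h
  constructor
  · unfold model
    rw [integrable_tilted_iff hint]
    refine hw.congr (Filter.Eventually.of_forall fun x => ?_)
    simp only [smul_eq_mul]
    ring
  · unfold model
    rw [integral_tilted, ← integral_div]
    refine integral_congr_ae (Filter.Eventually.of_forall fun x => ?_)
    simp only [smul_eq_mul]
    ring

end Pool.Agent.Helper228.MM
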