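import Pool.Agent.Helper228.MM.Defs
import Pool.Agent.Helper228.MM.P_energy_cont
import Pool.Agent.Helper228.MM.P_tk_bound
import Pool.Agent.Helper228.MM.P_loop_ibp
import Pool.Agent.Helper228.MM.P_model_int

/-!
Definitions for the quartic one-matrix model `P(A) = A^4/4 - A^2` (MP_58f2bb_an).
-/

open MeasureTheory Filter Topology

namespace Pool.Agent.Helper228.MM



/-- continuous functions of polynomial growth -/
def h170_PB (n : ℕ) (g : (Fin n → Fin n → ℝ) → ℝ) : Prop :=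
  Continuous g ∧ ∃ (C : ℝ) (N : ℕ), 0 ≤ C ∧ ∀ x, |g x| ≤ C * (1 + qf n x) ^ N

theorem h170_qf_nonneg (n : ℕ) (x : Fin n → Fin n → ℝ) : 0 ≤ qf n x := by
  unfold qf
  positivity

theorem h170_PB.mul {n : ℕ} {f g : (Fin n → Fin n → ℝ) → ℝ} (hf : h170_PB n f)
    (hg : h170_PB n g) : h170_PB n (fun x => f x * g x) := by
  obtain ⟨hf1, C, N, hC, hf2⟩ := hf
  obtain ⟨hg1, D, M, hD, hg2⟩ := hg
  refine ⟨hf1.mul hg1, C * D, N + M, mul_nonneg hC hD, ?_⟩
  intro x
  have hq := h170_qf_nonneg n x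
  rw [abs_mul, pow_add]
  calc |f x| * |g x| ≤ (C * (1 + qf n x) ^ N) * (D * (1 + qf n x) ^ M) :=
        mul_le_mul (hf2 x) (hg2 x) (abs_nonneg _) (by positivity)
    _ = C * D * ((1 + qf n x) ^ N * (1 + qf n x) ^ M) := by ring

theorem h170_PB.add {n : ℕ} {f g : (Fin n → Fin n → ℝ) → ℝ} (hf : h170_PB n f)
    (hg : h170_PB n g) : h170_PB n (fun x => f x + g x) := by
  obtain ⟨hf1, C, N, hC, hf2⟩ := hf
  obtain ⟨hg1, D, M, hD, hg2⟩ := hg
  refine ⟨hf1.add hg1, C + D, N + M, add_nonneg hC hD, ?_⟩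
  intro x
  have hq := h170_qf_nonneg n x
  have h1 : (1 + qf n x) ^ N ≤ (1 + qf n x) ^ (N + M) :=
    pow_le_pow_right₀ (by linarith) (by omega)
  have h2 : (1 + qf n x) ^ M ≤ (1 + qf n x) ^ (N + M) :=
    pow_le_pow_right₀ (by linarith) (by omega)
  calc |f x + g x| ≤ |f x| + |g x| := abs_add_le _ _
    _ ≤ C * (1 + qf n x) ^ N + D * (1 + qf n x) ^ M := add_le_add (hf2 x) (hg2 x)
    _ ≤ C * (1 + qf n x) ^ (N + M) + D * (1 + qf n x) ^ (N + M) := by
        gcongr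
    _ = (C + D) * (1 + qf n x) ^ (N + M) := by ring

theorem h170_PB_const (n : ℕ) (c : ℝ) : h170_PB n (fun _ => c) := by
  refine ⟨continuous_const, |c|, 0, abs_nonneg c, ?_⟩
  intro x
  simp

theorem h170_PB_tk (n : ℕ) (hn : 1 ≤ n) (k : ℕ) : h170_PB n (tk n k) := by
  obtain ⟨C, hC, h⟩ := tk_bound n k hn
  exact ⟨(energy_cont n).2.2 k, C, k, hC, h⟩

theorem h170_PB_sum {n : ℕ} {ι : Type*} (s : Finset ι) (f : ι → (Fin n → Fin n → ℝ) → ℝ)
    (hf : ∀ i ∈ s, h170_PB n (f i)) : h170_PB n (fun x => ∑ i ∈ s, f i x) := by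
  classical
  induction s using Finset.induction_on with
  | empty =>
    simp only [Finset.sum_empty]
    exact h170_PB_const n 0
  | insert i s hi ih =>
    simp only [Finset.sum_insert hi]
    exact (hf i (Finset.mem_insert_self _ _)).add
      (ih (fun j hj => hf j (Finset.mem_insert_of_mem hj)))

theorem h170_PB_Sk (n : ℕ) (hn : 1 ≤ n) (k : ℕ) :
    h170_PB n (fun x => Sk (fun i => tk n i x) k) := by
  have h1 : (fun x => Sk (fun i => tk n i x) k) =
      fun x => (∑ l ∈ Finset.range k, tk n l x * tk n (k - 1 - l) x) + (-1) * tk n (k + 3) x +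
        2 * tk n (k + 1) x := by
    funext x
    unfold Sk
    ring
  rw [h1]
  exact ((h170_PB_sum _ _ (fun l _ => (h170_PB_tk n hn l).mul (h170_PB_tk n hn (k - 1 - l)))).add
    ((h170_PB_const n (-1)).mul (h170_PB_tk n hn (k + 3)))).add
    ((h170_PB_const n 2).mul (h170_PB_tk n hn (k + 1)))

theorem loop_model (n k a b : ℕ) (hn : 1 ≤ n) :
    ∫ x, tk n a x * tk n b x * Sk (fun i => tk n i x) k ∂(model n)
      = -(1 / (n : ℝ) ^ 2) * ∫ x, (a * tk n (k + a - 1) x * tk n b x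
          + b * tk n a x * tk n (k + b - 1) x) ∂(model n) := by
  have h1 : h170_PB n (fun x => tk n a x * tk n b x * Sk (fun i => tk n i x) k) :=
    ((h170_PB_tk n hn a).mul (h170_PB_tk n hn b)).mul (h170_PB_Sk n hn k)
  have h2 : h170_PB n (fun x => a * tk n (k + a - 1) x * tk n b x
          + b * tk n a x * tk n (k + b - 1) x) :=
    (((h170_PB_const n a).mul (h170_PB_tk n hn (k + a - 1))).mul (h170_PB_tk n hn b)).add
      (((h170_PB_const n b).mul (h170_PB_tk n hn a)).mul (h170_PB_tk n hn (k + b - 1)))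
  obtain ⟨hc1, C1, N1, -, hb1⟩ := h1
  obtain ⟨hc2, C2, N2, -, hb2⟩ := h2
  rw [(model_int n hn _ hc1 C1 N1 hb1).2, (model_int n hn _ hc2 C2 N2 hb2).2,
    loop_ibp n k a b hn]
  ring

end Pool.Agent.Helper228.MM
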