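import Pool.Agent.Helper228.MM.Defs
import Pool.Agent.Helper228.MM.P_herm_lin

/-!
Definitions for the quartic one-matrix model `P(A) = A^4/4 - A^2` (MP_58f2bb_an).
-/

open MeasureTheory Filter Topology

namespace Pool.Agent.Helper228.MM



theorem tk_eigen (n : ℕ) (x : Fin n → Fin n → ℝ) :
    ∃ lam : Fin n → ℝ, ∀ k, tk n k x = (∑ j, lam j ^ k) / n := by
  have hA : (herm n x).IsHermitian := (herm_lin n).2.2.1 x
  refine ⟨hA.eigenvalues, fun k => ?_⟩
  unfold tk
  have h1 : Matrix.trace (herm n x ^ k) = ∑ j, ((hA.eigenvalues j ^ k : ℝ) : ℂ) := by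
    have hs : herm n x ^ k = Unitary.conjStarAlgAut ℂ _ hA.eigenvectorUnitary
        ((Matrix.diagonal (RCLike.ofReal ∘ hA.eigenvalues)) ^ k) := by
      rw [map_pow]
      congr 1
      exact hA.spectral_theorem
    rw [hs, Unitary.conjStarAlgAut_apply, Matrix.trace_mul_comm, ← mul_assoc,
      Unitary.coe_star_mul_self, one_mul, Matrix.diagonal_pow, Matrix.trace_diagonal]
    refine Finset.sum_congr rfl fun j _ => ?_
    simp
  rw [h1, ← Complex.ofReal_sum, Complex.ofReal_re]

end Pool.Agent.Helper228.MM
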