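import Pool.Agent.Helper228.MM.Defs
import Pool.Agent.Helper228.MM.P_energy_cont
import Pool.Agent.Helper228.MM.P_tk_bound
import Pool.Agent.Helper228.MM.P_model_int

/-!
Definitions for the quartic one-matrix model `P(A) = A^4/4 - A^2` (MP_58f2bb_an).
-/

open MeasureTheory Filter Topology

namespace Pool.Agent.Helper228.MM



theorem tk_int (n a b c d : ℕ) (hn : 1 ≤ n) :
    Integrable (fun x => tk n a x * tk n b x * (tk n c x * tk n d x)) (model n) := by
  obtain ⟨Ca, hCa, ha⟩ := tk_bound n a hn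
  obtain ⟨Cb, hCb, hb⟩ := tk_bound n b hn
  obtain ⟨Cc, hCc, hc⟩ := tk_bound n c hn
  obtain ⟨Cd, hCd, hd⟩ := tk_bound n d hn
  have hcont := (energy_cont n).2.2
  refine (model_int n hn (fun x => tk n a x * tk n b x * (tk n c x * tk n d x))
    (((hcont a).mul (hcont b)).mul ((hcont c).mul (hcont d))) (Ca * Cb * (Cc * Cd))
    (a + b + (c + d)) ?_).1
  intro x
  show |tk n a x * tk n b x * (tk n c x * tk n d x)| ≤
    Ca * Cb * (Cc * Cd) * (1 + qf n x) ^ (a + b + (c + d))
  have hq : 0 ≤ 1 + qf n x := by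
    have : 0 ≤ qf n x := Finset.sum_nonneg (fun j _ => Finset.sum_nonneg (fun k _ => sq_nonneg _))
    linarith
  rw [abs_mul, abs_mul, abs_mul, pow_add, pow_add, pow_add]
  have h1 : |tk n a x| * |tk n b x| ≤ (Ca * (1 + qf n x) ^ a) * (Cb * (1 + qf n x) ^ b) :=
    mul_le_mul (ha x) (hb x) (abs_nonneg _) (by positivity)
  have h2 : |tk n c x| * |tk n d x| ≤ (Cc * (1 + qf n x) ^ c) * (Cd * (1 + qf n x) ^ d) :=
    mul_le_mul (hc x) (hd x) (abs_nonneg _) (by positivity)
  refine (mul_le_mul h1 h2 (by positivity) (by positivity)).trans (le_of_eq ?_)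
  ring

end Pool.Agent.Helper228.MM
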