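import Pool.Agent.Helper228.MM.Defs
import Pool.Agent.Helper228.MM.P_tk_eigen
import Pool.Agent.Helper228.MM.P_mean_ineq
import Pool.Agent.Helper228.MM.P_model_prob
import Pool.Agent.Helper228.MM.P_tk_int
import Pool.Agent.Helper228.MM.P_loop_model

/-!
Definitions for the quartic one-matrix model `P(A) = A^4/4 - A^2` (MP_58f2bb_an).
-/

open MeasureTheory Filter Topology

namespace Pool.Agent.Helper228.MM



theorem mb_zero (n : ℕ) (hn : 1 ≤ n) (x : Fin n → Fin n → ℝ) : tk n 0 x = 1 := by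
  have h0 : (n : ℝ) ≠ 0 := by
    have : (1 : ℝ) ≤ n := by exact_mod_cast hn
    linarith
  simp [tk, h0]

theorem mb_int1 (n a : ℕ) (hn : 1 ≤ n) : Integrable (fun x => tk n a x) (model n) := by
  have := tk_int n a 0 0 0 hn
  simpa [mb_zero n hn] using this

theorem mb_int2 (n a b : ℕ) (hn : 1 ≤ n) :
    Integrable (fun x => tk n a x * tk n b x) (model n) := by
  have := tk_int n a b 0 0 hn
  simpa [mb_zero n hn] using this

theorem mb_loop (n j : ℕ) (hn : 1 ≤ n) :
    ∫ x, tk n (2 * j + 4) x ∂(model n) = 2 * ∫ x, tk n (2 * j + 2) x ∂(model n) +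
      ∑ l ∈ Finset.range (2 * j + 1), ∫ x, tk n l x * tk n (2 * j - l) x ∂(model n) := by
  have h := loop_model n (2 * j + 1) 0 0 hn
  have e : ∀ x, tk n 0 x * tk n 0 x * Sk (fun i => tk n i x) (2 * j + 1) =
      (∑ l ∈ Finset.range (2 * j + 1), tk n l x * tk n (2 * j - l) x) - tk n (2 * j + 4) x +
        2 * tk n (2 * j + 2) x := by
    intro x
    rw [mb_zero n hn, Sk]
    simp only [Nat.add_sub_cancel, one_mul]
  simp_rw [e] at h
  have i1 : Integrable (fun x => ∑ l ∈ Finset.range (2 * j + 1),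
      tk n l x * tk n (2 * j - l) x) (model n) :=
    integrable_finsetSum _ fun l _ => mb_int2 n l (2 * j - l) hn
  have i2 : Integrable (fun x => (∑ l ∈ Finset.range (2 * j + 1),
      tk n l x * tk n (2 * j - l) x) - tk n (2 * j + 4) x) (model n) :=
    i1.sub (mb_int1 n _ hn)
  rw [integral_add i2 ((mb_int1 n _ hn).const_mul 2),
    integral_sub i1 (mb_int1 n _ hn),
    integral_finsetSum _ fun l _ => mb_int2 n l (2 * j - l) hn, integral_const_mul] at h
  simp only [Nat.cast_zero, zero_mul, add_zero, integral_zero, mul_zero] at h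
  linarith

theorem mb_prod (n l m : ℕ) (h : Even (l + m)) (x : Fin n → Fin n → ℝ) :
    tk n l x * tk n m x ≤ 2 * tk n (l + m) x := by
  obtain ⟨lam, hl⟩ := tk_eigen n x
  rw [hl, hl, hl]
  exact (mean_ineq n lam).1 l m h

theorem mb_sq (n k : ℕ) (x : Fin n → Fin n → ℝ) : tk n k x ^ 2 ≤ tk n (2 * k) x := by
  obtain ⟨lam, hl⟩ := tk_eigen n x
  rw [hl, hl]
  exact (mean_ineq n lam).2.1 k

theorem mb_step (n j : ℕ) (hn : 1 ≤ n) :
    ∫ x, tk n (2 * j + 4) x ∂(model n) ≤ 2 * ∫ x, tk n (2 * j + 2) x ∂(model n) +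
      (2 * j + 1) * (2 * ∫ x, tk n (2 * j) x ∂(model n)) := by
  rw [mb_loop n j hn]
  have h : ∀ l ∈ Finset.range (2 * j + 1), ∫ x, tk n l x * tk n (2 * j - l) x ∂(model n) ≤
      2 * ∫ x, tk n (2 * j) x ∂(model n) := by
    intro l hl
    rw [Finset.mem_range] at hl
    rw [← integral_const_mul]
    apply integral_mono (mb_int2 n _ _ hn) ((mb_int1 n _ hn).const_mul 2)
    intro x
    have e : l + (2 * j - l) = 2 * j := by omega
    have := mb_prod n l (2 * j - l) (by rw [e]; exact even_two_mul j) x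
    rw [e] at this
    exact this
  have h2 := Finset.sum_le_sum h
  rw [Finset.sum_const, Finset.card_range, nsmul_eq_mul] at h2
  push_cast at h2
  linarith

theorem mb_one (n : ℕ) (hn : 1 ≤ n) : ∫ x, tk n 2 x ∂(model n) ≤ 5 / 2 := by
  have := (model_prob n hn).1
  have h1 := mb_loop n 0 hn
  simp only [mul_zero, zero_add, Finset.range_one, Finset.sum_singleton, Nat.sub_zero,
    mb_zero n hn, mul_one, integral_const, probReal_univ, smul_eq_mul] at h1
  have h2 : ∫ x, (4 * tk n 2 x - 4) ∂(model n) ≤ ∫ x, tk n 4 x ∂(model n) := by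
    apply integral_mono (((mb_int1 n 2 hn).const_mul 4).sub (integrable_const _))
      (mb_int1 n 4 hn)
    intro x
    have := mb_sq n 2 x
    have e : 2 * 2 = 4 := rfl
    rw [e] at this
    show 4 * tk n 2 x - 4 ≤ tk n 4 x
    nlinarith [sq_nonneg (tk n 2 x - 2)]
  rw [integral_sub ((mb_int1 n 2 hn).const_mul 4) (integrable_const _), integral_const_mul] at h2
  simp only [integral_const, probReal_univ, smul_eq_mul, one_mul] at h2
  linarith

theorem moment_bound (j : ℕ) : ∃ K : ℝ, 0 ≤ K ∧ ∀ n, 1 ≤ n → ∫ x, tk n (2 * j) x ∂(model n) ≤ K := by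
  have key : ∀ j : ℕ, (∃ K : ℝ, 0 ≤ K ∧ ∀ n, 1 ≤ n → ∫ x, tk n (2 * j) x ∂(model n) ≤ K) ∧
      (∃ K : ℝ, 0 ≤ K ∧ ∀ n, 1 ≤ n → ∫ x, tk n (2 * (j + 1)) x ∂(model n) ≤ K) := by
    intro j
    induction j with
    | zero =>
      refine ⟨⟨1, zero_le_one, ?_⟩, ⟨5 / 2, by norm_num, ?_⟩⟩
      · intro n hn
        have := (model_prob n hn).1
        simp [mb_zero n hn]
      · intro n hn
        exact mb_one n hn
    | succ j ih =>
      obtain ⟨⟨K1, hK1, h1⟩, ⟨K2, hK2, h2⟩⟩ := ih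
      refine ⟨⟨K2, hK2, h2⟩, ⟨2 * K2 + (2 * j + 1) * (2 * K1), by positivity, ?_⟩⟩
      intro n hn
      have h3 := mb_step n j hn
      have h4 := h1 n hn
      have h5 := h2 n hn
      have e1 : 2 * (j + 1 + 1) = 2 * j + 4 := by ring
      have e2 : 2 * (j + 1) = 2 * j + 2 := by ring
      rw [e2] at h5
      rw [e1]
      have h6 : ((2 * j + 1 : ℝ)) * (2 * ∫ x, tk n (2 * j) x ∂(model n)) ≤
          (2 * j + 1) * (2 * K1) := by
        apply mul_le_mul_of_nonneg_left (by linarith) (by positivity)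
      linarith
  exact (key j).1

end Pool.Agent.Helper228.MM
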