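import Pool.Agent.Helper228.MM.Defs
import Pool.Agent.Helper228.MM.P_tk_eigen
import Pool.Agent.Helper228.MM.P_mean_ineq
import Pool.Agent.Helper228.MM.P_model_prob
import Pool.Agent.Helper228.MM.P_tk_int
import Pool.Agent.Helper228.MM.P_loop_model
import Pool.Agent.Helper228.MM.P_moment_bound

/-!
Definitions for the quartic one-matrix model `P(A) = A^4/4 - A^2` (MP_58f2bb_an).
-/

open MeasureTheory Filter Topology

namespace Pool.Agent.Helper228.MM



theorem sv_tk_zero (n : ℕ) (hn : 1 ≤ n) (x : Fin n → Fin n → ℝ) : tk n 0 x = 1 := by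
  have h : (n : ℝ) ≠ 0 := by positivity
  unfold tk
  rw [pow_zero, Matrix.trace_one]
  simp [h]

theorem sv_int2 (n a b : ℕ) (hn : 1 ≤ n) :
    Integrable (fun x => tk n a x * tk n b x) (model n) := by
  have h := tk_int n a b 0 0 hn
  simpa [sv_tk_zero n hn] using h

theorem sv_int1 (n a : ℕ) (hn : 1 ≤ n) :
    Integrable (fun x => tk n a x) (model n) := by
  have h := sv_int2 n a 0 hn
  simpa [sv_tk_zero n hn] using h

theorem sv_pair (a b : ℕ) : ∃ C : ℝ, 0 ≤ C ∧ ∀ n, 1 ≤ n →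
    |∫ x, tk n a x * tk n b x ∂(model n)| ≤ C := by
  obtain ⟨Ka, hKa, ha⟩ := moment_bound a
  obtain ⟨Kb, hKb, hb⟩ := moment_bound b
  refine ⟨Ka + Kb, by positivity, fun n hn => ?_⟩
  have hpt : ∀ x : Fin n → Fin n → ℝ, |tk n a x * tk n b x| ≤ tk n (2 * a) x + tk n (2 * b) x := by
    intro x
    obtain ⟨lam, hl⟩ := tk_eigen n x
    obtain ⟨-, h2, h3⟩ := mean_ineq n lam
    have e1 := h2 a
    have e2 := h2 b
    have e3 := h3 a
    have e4 := h3 b
    rw [← hl a, ← hl (2 * a)] at e1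
    rw [← hl b, ← hl (2 * b)] at e2
    rw [← hl (2 * a)] at e3
    rw [← hl (2 * b)] at e4
    rw [abs_le]
    constructor
    · nlinarith [sq_nonneg (tk n a x + tk n b x), sq_nonneg (tk n a x), sq_nonneg (tk n b x)]
    · nlinarith [sq_nonneg (tk n a x - tk n b x), sq_nonneg (tk n a x), sq_nonneg (tk n b x)]
  calc |∫ x, tk n a x * tk n b x ∂(model n)|
      ≤ ∫ x, |tk n a x * tk n b x| ∂(model n) := abs_integral_le_integral_abs
    _ ≤ ∫ x, (tk n (2 * a) x + tk n (2 * b) x) ∂(model n) := by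
        refine integral_mono (sv_int2 n a b hn).abs ?_ hpt
        exact (sv_int1 n (2 * a) hn).add (sv_int1 n (2 * b) hn)
    _ = (∫ x, tk n (2 * a) x ∂(model n)) + ∫ x, tk n (2 * b) x ∂(model n) :=
        integral_add (sv_int1 n (2 * a) hn) (sv_int1 n (2 * b) hn)
    _ ≤ Ka + Kb := add_le_add (ha n hn) (hb n hn)

theorem sv_term (k a b : ℕ) : ∃ C : ℝ, 0 ≤ C ∧ ∀ n, 1 ≤ n →
    |∫ x, tk n a x * tk n b x * Sk (fun i => tk n i x) k ∂(model n)| ≤ C / (n : ℝ) ^ 2 := by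
  obtain ⟨C1, hC1, h1⟩ := sv_pair (k + a - 1) b
  obtain ⟨C2, hC2, h2⟩ := sv_pair a (k + b - 1)
  refine ⟨a * C1 + b * C2, by positivity, fun n hn => ?_⟩
  rw [loop_model n k a b hn]
  have e : ∫ x, (a * tk n (k + a - 1) x * tk n b x + b * tk n a x * tk n (k + b - 1) x) ∂(model n)
      = a * (∫ x, tk n (k + a - 1) x * tk n b x ∂(model n)) +
        b * ∫ x, tk n a x * tk n (k + b - 1) x ∂(model n) := by
    rw [← integral_const_mul, ← integral_const_mul, ← integral_add]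
    · refine integral_congr_ae (Filter.Eventually.of_forall fun x => ?_)
      beta_reduce
      ring
    · exact (sv_int2 n _ _ hn).const_mul _
    · exact (sv_int2 n _ _ hn).const_mul _
  rw [e, abs_mul, abs_neg, abs_of_nonneg (by positivity : (0 : ℝ) ≤ 1 / (n : ℝ) ^ 2)]
  have h3 : |(a : ℝ) * (∫ x, tk n (k + a - 1) x * tk n b x ∂(model n)) +
      b * ∫ x, tk n a x * tk n (k + b - 1) x ∂(model n)| ≤ a * C1 + b * C2 := by
    refine (abs_add_le _ _).trans ?_
    rw [abs_mul, abs_mul, Nat.abs_cast, Nat.abs_cast]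
    exact add_le_add (mul_le_mul_of_nonneg_left (h1 n hn) (Nat.cast_nonneg _))
      (mul_le_mul_of_nonneg_left (h2 n hn) (Nat.cast_nonneg _))
  have h4 : (0 : ℝ) ≤ 1 / (n : ℝ) ^ 2 := by positivity
  calc 1 / (n : ℝ) ^ 2 * _ ≤ 1 / (n : ℝ) ^ 2 * (a * C1 + b * C2) :=
        mul_le_mul_of_nonneg_left h3 h4
    _ = (a * C1 + b * C2) / (n : ℝ) ^ 2 := by ring

theorem sv_intS (n k a b : ℕ) (hn : 1 ≤ n) :
    Integrable (fun x => tk n a x * tk n b x * Sk (fun i => tk n i x) k) (model n) := by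
  have h1 : Integrable (fun x => ∑ l ∈ Finset.range k,
      tk n a x * tk n b x * (tk n l x * tk n (k - 1 - l) x)) (model n) :=
    integrable_finsetSum _ (fun l _ => tk_int n a b l (k - 1 - l) hn)
  have h2 := tk_int n a b (k + 3) 0 hn
  have h3 := (tk_int n a b (k + 1) 0 hn).const_mul 2
  refine ((h1.sub h2).add h3).congr (Filter.Eventually.of_forall fun x => ?_)
  simp only [Pi.add_apply, Pi.sub_apply]
  unfold Sk
  rw [sv_tk_zero n hn, ← Finset.mul_sum]
  ring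

theorem S_var (k : ℕ) : ∃ C : ℝ, 0 ≤ C ∧ ∀ n : ℕ, 1 ≤ n →
    ∫ x, (Sk (fun i => tk n i x) k) ^ 2 ∂(model n) ≤ C / (n : ℝ) ^ 2 := by
  choose C hC hb using sv_term k
  refine ⟨(∑ l ∈ Finset.range k, C l (k - 1 - l)) + C (k + 3) 0 + 2 * C (k + 1) 0, ?_,
    fun n hn => ?_⟩
  · have h1 : 0 ≤ ∑ l ∈ Finset.range k, C l (k - 1 - l) :=
      Finset.sum_nonneg (fun l _ => hC l (k - 1 - l))
    have h2 := hC (k + 3) 0
    have h3 := hC (k + 1) 0
    positivity
  have e1 : ∫ x, (Sk (fun i => tk n i x) k) ^ 2 ∂(model n) =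
      (∑ l ∈ Finset.range k,
        ∫ x, tk n l x * tk n (k - 1 - l) x * Sk (fun i => tk n i x) k ∂(model n)) -
      (∫ x, tk n (k + 3) x * tk n 0 x * Sk (fun i => tk n i x) k ∂(model n)) +
      2 * ∫ x, tk n (k + 1) x * tk n 0 x * Sk (fun i => tk n i x) k ∂(model n) := by
    rw [← integral_const_mul, ← integral_finsetSum _ (fun l _ => sv_intS n k l (k - 1 - l) hn),
      ← integral_sub, ← integral_add]
    · refine integral_congr_ae (Filter.Eventually.of_forall fun x => ?_)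
      beta_reduce
      rw [← Finset.sum_mul, sv_tk_zero n hn]
      have : Sk (fun i => tk n i x) k = (∑ l ∈ Finset.range k, tk n l x * tk n (k - 1 - l) x)
        - tk n (k + 3) x + 2 * tk n (k + 1) x := rfl
      rw [sq]
      nth_rewrite 1 [this]
      ring
    · exact (integrable_finsetSum _ (fun l _ => sv_intS n k l (k - 1 - l) hn)).sub
        (sv_intS n k (k + 3) 0 hn)
    · exact (sv_intS n k (k + 1) 0 hn).const_mul 2
    · exact integrable_finsetSum _ (fun l _ => sv_intS n k l (k - 1 - l) hn)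
    · exact sv_intS n k (k + 3) 0 hn
  rw [e1]
  have h1 : (∑ l ∈ Finset.range k,
      ∫ x, tk n l x * tk n (k - 1 - l) x * Sk (fun i => tk n i x) k ∂(model n)) ≤
      ∑ l ∈ Finset.range k, C l (k - 1 - l) / (n : ℝ) ^ 2 :=
    Finset.sum_le_sum (fun l _ => (abs_le.1 (hb l (k - 1 - l) n hn)).2)
  have h2 := (abs_le.1 (hb (k + 3) 0 n hn)).1
  have h3 := (abs_le.1 (hb (k + 1) 0 n hn)).2
  rw [← Finset.sum_div] at h1
  have h4 : ((∑ l ∈ Finset.range k, C l (k - 1 - l)) + C (k + 3) 0 + 2 * C (k + 1) 0) / (n : ℝ) ^ 2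
      = (∑ l ∈ Finset.range k, C l (k - 1 - l)) / (n : ℝ) ^ 2 + C (k + 3) 0 / (n : ℝ) ^ 2 +
        2 * (C (k + 1) 0 / (n : ℝ) ^ 2) := by ring
  rw [h4]
  linarith

end Pool.Agent.Helper228.MM
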