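import Pool.Agent.Helper228.MM.Defs
import Pool.Agent.Helper228.MM.P_energy_cont
import Pool.Agent.Helper228.MM.P_tk_eigen
import Pool.Agent.Helper228.MM.P_model_prob
import Pool.Agent.Helper228.MM.P_tk_int
import Pool.Agent.Helper228.MM.P_S_var
import Pool.Agent.Helper228.MM.P_det_stab

/-!
Definitions for the quartic one-matrix model `P(A) = A^4/4 - A^2` (MP_58f2bb_an).
-/

open MeasureTheory Filter Topology

namespace Pool.Agent.Helper228.MM



lemma j22881_zero (n : ℕ) (hn : 1 ≤ n) (x : Fin n → Fin n → ℝ) : tk n 0 x = 1 := by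
  obtain ⟨lam, hlam⟩ := tk_eigen n x
  rw [hlam 0]
  have hn0 : (n : ℝ) ≠ 0 := by
    have : (0:ℝ) < n := by exact_mod_cast hn
    exact this.ne'
  simp [hn0]

lemma j22881_L2 (n : ℕ) (hn : 1 ≤ n) (a b : ℕ) :
    MemLp (fun x => tk n a x * tk n b x) 2 (model n) := by
  have hcont := (energy_cont n).2.2
  refine (memLp_two_iff_integrable_sq ((hcont a).mul (hcont b)).aestronglyMeasurable).2 ?_
  have h1 := tk_int n a b a b hn
  refine h1.congr (Filter.Eventually.of_forall fun x => ?_)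
  simp only [sq, Pi.mul_apply]

lemma j22881_S (n : ℕ) (hn : 1 ≤ n) (i : ℕ) :
    MemLp (fun x => Sk (fun i => tk n i x) i) 2 (model n) := by
  have h1 : (fun x : Fin n → Fin n → ℝ => Sk (fun i => tk n i x) i) =
      fun x => (∑ l ∈ Finset.range i, tk n l x * tk n (i - 1 - l) x) -
        tk n (i + 3) x * tk n 0 x + 2 * (tk n (i + 1) x * tk n 0 x) := by
    funext x
    rw [j22881_zero n hn x]
    unfold Sk
    ring
  rw [h1]
  exact ((memLp_finsetSum _ fun l _ => j22881_L2 n hn l _).sub (j22881_L2 n hn _ 0)).add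
    ((j22881_L2 n hn _ 0).const_mul 2)

theorem prob_conv (k : ℕ) (ε : ℝ) (hε : 0 < ε) : ∃ C : ℝ, 0 ≤ C ∧ ∀ n : ℕ, 1 ≤ n →
    (model n).real {x | ε < |tk n k x - mom k|} ≤ C / (n : ℝ) ^ 2 := by
  obtain ⟨i0, δ, hδ, hstab⟩ := det_stab k ε hε
  choose Ci hCi0 hCi using S_var
  refine ⟨(∑ i ∈ Finset.range (i0 + 1), Ci i) / δ ^ 2, ?_, ?_⟩
  · exact div_nonneg (Finset.sum_nonneg fun i _ => hCi0 i) (by positivity)
  intro n hn
  haveI := (model_prob n hn).1
  have hn0 : (0:ℝ) < n := by exact_mod_cast hn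
  have hsub : {x | ε < |tk n k x - mom k|} ⊆
      ⋃ i ∈ Finset.range (i0 + 1), {x | δ ^ 2 ≤ (Sk (fun i => tk n i x) i) ^ 2} := by
    intro x hx
    by_contra hcon
    simp only [Set.mem_iUnion, Set.mem_ofPred_eq, exists_prop, not_exists, not_and, not_le] at hcon
    obtain ⟨lam, hlam⟩ := tk_eigen n x
    have h1 : ∀ i ≤ i0, |Sk (fun i => (∑ m, lam m ^ i) / (n : ℝ)) i| ≤ δ := by
      intro i hi
      have h2 := hcon i (Finset.mem_range.mpr (by omega))
      have h3 : (fun i => (∑ m, lam m ^ i) / (n : ℝ)) = fun i => tk n i x := by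
        funext i
        exact (hlam i).symm
      rw [h3]
      exact (abs_lt_of_sq_lt_sq h2 hδ.le).le
    have h4 := hstab n hn lam h1
    rw [← hlam k] at h4
    exact absurd hx (not_lt.mpr h4)
  have hmarkov : ∀ i, (model n).real {x | δ ^ 2 ≤ (Sk (fun i => tk n i x) i) ^ 2} ≤
      Ci i / (n : ℝ) ^ 2 / δ ^ 2 := by
    intro i
    have h1 := mul_meas_ge_le_integral_of_nonneg (μ := model n)
      (f := fun x => (Sk (fun i => tk n i x) i) ^ 2)
      (Filter.Eventually.of_forall fun x => sq_nonneg _) (j22881_S n hn i).integrable_sq (δ ^ 2)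
    rw [le_div_iff₀ (by positivity), mul_comm]
    exact h1.trans (hCi i n hn)
  calc (model n).real {x | ε < |tk n k x - mom k|}
      ≤ (model n).real (⋃ i ∈ Finset.range (i0 + 1),
          {x | δ ^ 2 ≤ (Sk (fun i => tk n i x) i) ^ 2}) :=
        measureReal_mono hsub (measure_ne_top _ _)
    _ ≤ ∑ i ∈ Finset.range (i0 + 1),
          (model n).real {x | δ ^ 2 ≤ (Sk (fun i => tk n i x) i) ^ 2} :=
        measureReal_biUnion_finset_le _ _
    _ ≤ ∑ i ∈ Finset.range (i0 + 1), Ci i / (n : ℝ) ^ 2 / δ ^ 2 :=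
        Finset.sum_le_sum fun i _ => hmarkov i
    _ = (∑ i ∈ Finset.range (i0 + 1), Ci i) / δ ^ 2 / (n : ℝ) ^ 2 := by
        rw [← Finset.sum_div, ← Finset.sum_div]
        ring

end Pool.Agent.Helper228.MM
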