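import Pool.Agent.Helper228.MM.Defs
import Pool.Agent.Helper228.MM.P_energy_cont
import Pool.Agent.Helper228.MM.P_tk_eigen
import Pool.Agent.Helper228.MM.P_mean_ineq
import Pool.Agent.Helper228.MM.P_model_prob
import Pool.Agent.Helper228.MM.P_tk_int
import Pool.Agent.Helper228.MM.P_moment_bound
import Pool.Agent.Helper228.MM.P_prob_conv

/-!
Definitions for the quartic one-matrix model `P(A) = A^4/4 - A^2` (MP_58f2bb_an).
-/

open MeasureTheory Filter Topology

namespace Pool.Agent.Helper228.MM



theorem exp_conv_bd (k n : ℕ) (hn : 1 ≤ n) (K e η : ℝ) (he : 0 < e) (hη : 0 < η)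
    (hK : ∫ x, tk n (2 * k) x ∂(model n) ≤ K) :
    ∫ x, |tk n k x - mom k| ∂(model n) ≤ e + η * (2 * K + 2 * mom k ^ 2) +
      1 / (4 * η) * (model n).real {x | e < |tk n k x - mom k|} := by
  obtain ⟨hprob, -, -⟩ := model_prob n hn
  have hn0 : (n : ℝ) ≠ 0 := by
    have : 0 < n := hn
    exact_mod_cast this.ne'
  have ht0 : ∀ x, tk n 0 x = 1 := by
    intro x
    obtain ⟨lam, hl⟩ := tk_eigen n x
    rw [hl 0]
    simp [hn0]
  have hsq : ∀ x, (tk n k x) ^ 2 ≤ tk n (2 * k) x := by
    intro x
    obtain ⟨lam, hl⟩ := tk_eigen n x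
    rw [hl, hl]
    exact (mean_ineq n lam).2.1 k
  have hint : Integrable (fun x => tk n (2 * k) x) (model n) := by
    have := tk_int n (2 * k) 0 0 0 hn
    simpa [ht0] using this
  have hcont : Continuous (tk n k) := (energy_cont n).2.2 k
  have hS : MeasurableSet {x | e < |tk n k x - mom k|} := by
    apply IsOpen.measurableSet
    exact isOpen_lt continuous_const (by fun_prop)
  set S := {x | e < |tk n k x - mom k|} with hSdef
  have hind : Integrable (S.indicator (fun _ => (1 : ℝ))) (model n) :=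
    (integrable_const (1 : ℝ)).indicator hS
  have hpt : ∀ x, |tk n k x - mom k| ≤ e + η * (2 * tk n (2 * k) x + 2 * mom k ^ 2) +
      1 / (4 * η) * S.indicator (fun _ => (1 : ℝ)) x := by
    intro x
    have h1 : (tk n k x - mom k) ^ 2 ≤ 2 * tk n (2 * k) x + 2 * mom k ^ 2 := by
      have := hsq x
      nlinarith [sq_nonneg (tk n k x + mom k)]
    have h2 : 0 ≤ 2 * tk n (2 * k) x + 2 * mom k ^ 2 := (sq_nonneg _).trans h1
    by_cases hx : x ∈ S
    · rw [Set.indicator_of_mem hx, mul_one]
      have h3 : |tk n k x - mom k| ≤ η * (tk n k x - mom k) ^ 2 + 1 / (4 * η) := by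
        rw [← sq_abs (tk n k x - mom k)]
        set a := |tk n k x - mom k|
        have h4 : 0 ≤ (2 * η * a - 1) ^ 2 / (4 * η) := by positivity
        have h5 : (2 * η * a - 1) ^ 2 / (4 * η) = η * a ^ 2 + 1 / (4 * η) - a := by
          field_simp
          ring
        linarith
      have h6 := mul_le_mul_of_nonneg_left h1 hη.le
      linarith
    · rw [Set.indicator_of_notMem hx, mul_zero, add_zero]
      have h3 : |tk n k x - mom k| ≤ e := by
        rw [hSdef, Set.mem_setOf_eq, not_lt] at hx
        exact hx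
      have h6 := mul_nonneg hη.le h2
      linarith
  have hg : Integrable (fun x => e + η * (2 * tk n (2 * k) x + 2 * mom k ^ 2) +
      1 / (4 * η) * S.indicator (fun _ => (1 : ℝ)) x) (model n) :=
    ((integrable_const e).add (((hint.const_mul 2).add (integrable_const _)).const_mul η)).add
      (hind.const_mul _)
  have h7 : ∫ x, |tk n k x - mom k| ∂(model n) ≤
      ∫ x, (e + η * (2 * tk n (2 * k) x + 2 * mom k ^ 2) +
      1 / (4 * η) * S.indicator (fun _ => (1 : ℝ)) x) ∂(model n) :=
    integral_mono_of_nonneg (Eventually.of_forall fun x => abs_nonneg _) hg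
      (Eventually.of_forall hpt)
  have h8 : ∫ x, (e + η * (2 * tk n (2 * k) x + 2 * mom k ^ 2) +
      1 / (4 * η) * S.indicator (fun _ => (1 : ℝ)) x) ∂(model n) =
      e + η * (2 * ∫ x, tk n (2 * k) x ∂(model n) + 2 * mom k ^ 2) +
      1 / (4 * η) * (model n).real S := by
    have i1 : Integrable (fun x => 2 * tk n (2 * k) x) (model n) := hint.const_mul 2
    have i2 : Integrable (fun _ : Fin n → Fin n → ℝ => 2 * mom k ^ 2) (model n) :=
      integrable_const _
    have i3 : Integrable (fun x => 2 * tk n (2 * k) x + 2 * mom k ^ 2) (model n) := i1.add i2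
    have i4 : Integrable (fun x => η * (2 * tk n (2 * k) x + 2 * mom k ^ 2)) (model n) :=
      i3.const_mul η
    have i5 : Integrable (fun _ : Fin n → Fin n → ℝ => e) (model n) := integrable_const _
    have i6 : Integrable (fun x => e + η * (2 * tk n (2 * k) x + 2 * mom k ^ 2)) (model n) :=
      i5.add i4
    have i7 : Integrable (fun x => 1 / (4 * η) * S.indicator (fun _ => (1 : ℝ)) x) (model n) :=
      hind.const_mul _
    rw [integral_add i6 i7, integral_add i5 i4, integral_const_mul, integral_add i1 i2,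
      integral_const_mul 2 (fun x => tk n (2 * k) x),
      integral_const_mul (1 / (4 * η)) (S.indicator (fun _ => (1 : ℝ))),
      integral_indicator_const _ hS]
    simp
  rw [h8] at h7
  have h9 : η * (2 * ∫ x, tk n (2 * k) x ∂(model n) + 2 * mom k ^ 2) ≤
      η * (2 * K + 2 * mom k ^ 2) := mul_le_mul_of_nonneg_left (by linarith) hη.le
  linarith

theorem exp_conv (k : ℕ) :
    Tendsto (fun n : ℕ => ∫ x, |tk n k x - mom k| ∂(model n)) atTop (𝓝 0) := by
  obtain ⟨K, hK0, hK⟩ := moment_bound k
  rw [Metric.tendsto_atTop]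
  intro ε hε
  set B := 2 * K + 2 * mom k ^ 2 with hB
  have hB0 : 0 ≤ B := by positivity
  set η := ε / (4 * (B + 1)) with hηdef
  have hη : 0 < η := by positivity
  obtain ⟨C, hC0, hC⟩ := prob_conv k (ε / 4) (by linarith)
  have hlim : Tendsto (fun n : ℕ => 1 / (4 * η) * (C / (n : ℝ) ^ 2)) atTop (𝓝 0) := by
    have h1 : Tendsto (fun n : ℕ => C / (n : ℝ) ^ 2) atTop (𝓝 0) := by
      apply Tendsto.const_div_atTop
      exact (tendsto_pow_atTop two_ne_zero).comp tendsto_natCast_atTop_atTop
    simpa using h1.const_mul (1 / (4 * η))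
  obtain ⟨N, hN⟩ := (Metric.tendsto_atTop.1 hlim) (ε / 4) (by linarith)
  refine ⟨max N 1, fun n hn => ?_⟩
  have hn1 : 1 ≤ n := le_trans (le_max_right _ _) hn
  have hnN : N ≤ n := le_trans (le_max_left _ _) hn
  have h2 := exp_conv_bd k n hn1 K (ε / 4) η (by linarith) hη (hK n hn1)
  have h3 := hN n hnN
  rw [Real.dist_eq, sub_zero] at h3
  have h4 := (le_abs_self _).trans h3.le
  have h5 : 1 / (4 * η) * (model n).real {x | ε / 4 < |tk n k x - mom k|} ≤
      1 / (4 * η) * (C / (n : ℝ) ^ 2) := mul_le_mul_of_nonneg_left (hC n hn1) (by positivity)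
  have h6 : η * B ≤ ε / 4 := by
    rw [hηdef, div_mul_eq_mul_div, div_le_div_iff₀ (by positivity) (by norm_num)]
    nlinarith
  rw [Real.dist_eq, sub_zero, abs_of_nonneg (integral_nonneg fun x => abs_nonneg _)]
  linarith

end Pool.Agent.Helper228.MM
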