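import Pool.Agent.Helper228.MM.Defs
import Pool.Agent.Helper228.MM.P_trace_re
import Pool.Agent.Helper228.MM.P_rho_basic

/-!
Definitions for the quartic one-matrix model `P(A) = A^4/4 - A^2` (MP_58f2bb_an).
-/

open MeasureTheory Filter Topology

namespace Pool.Agent.Helper228.MM



theorem pt_pow_int (k : ℕ) : Integrable (fun y : ℝ => ((y : ℂ)) ^ k) rho ∧
    ∫ y : ℝ, ((y : ℂ)) ^ k ∂rho = ((mom k : ℝ) : ℂ) := by
  have h1 : Integrable (fun y : ℝ => y ^ k) rho :=
    ((rho_basic.2.2) (fun y => y ^ k) (by fun_prop)).1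
  have h2 : (fun y : ℝ => ((y : ℂ)) ^ k) = fun y : ℝ => (((y ^ k : ℝ)) : ℂ) := by
    funext y
    push_cast
    rfl
  constructor
  · rw [h2]
    exact h1.ofReal
  · rw [h2]
    exact integral_ofReal (𝕜 := ℂ) (f := fun y : ℝ => y ^ k)

theorem pt_trace (n : ℕ) (x : Fin n → Fin n → ℝ) (k : ℕ) :
    Matrix.trace (herm n x ^ k) / (n : ℂ) = ((tk n k x : ℝ) : ℂ) := by
  have h1 := (trace_re n x x k).2
  unfold tk
  push_cast
  congr 1
  apply Complex.ext
  · simp
  · simp [h1]

theorem poly_trace (n : ℕ) (x : Fin n → Fin n → ℝ) (p : Polynomial ℂ) :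
    Matrix.trace (Polynomial.aeval (herm n x) p) / (n : ℂ)
        - ∫ y : ℝ, p.eval (y : ℂ) ∂rho
      = p.sum fun k a => a * (((tk n k x - mom k : ℝ)) : ℂ) := by
  have h1 : Matrix.trace (Polynomial.aeval (herm n x) p) =
      ∑ k ∈ p.support, p.coeff k * Matrix.trace (herm n x ^ k) := by
    rw [Polynomial.aeval_def, Polynomial.eval₂_eq_sum, Polynomial.sum_def, Matrix.trace_sum]
    refine Finset.sum_congr rfl fun k _ => ?_
    rw [← Algebra.smul_def, Matrix.trace_smul, smul_eq_mul]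
  have h2 : ∫ y : ℝ, p.eval (y : ℂ) ∂rho = ∑ k ∈ p.support, p.coeff k * ((mom k : ℝ) : ℂ) := by
    have e : (fun y : ℝ => p.eval (y : ℂ)) =
        fun y : ℝ => ∑ k ∈ p.support, p.coeff k * (y : ℂ) ^ k := by
      funext y
      rw [Polynomial.eval_eq_sum, Polynomial.sum_def]
    rw [e, integral_finsetSum _ (fun k _ => (pt_pow_int k).1.const_mul _)]
    refine Finset.sum_congr rfl fun k _ => ?_
    rw [integral_const_mul, (pt_pow_int k).2]
  rw [h1, h2, Polynomial.sum_def, Finset.sum_div, ← Finset.sum_sub_distrib]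
  refine Finset.sum_congr rfl fun k _ => ?_
  rw [mul_div_assoc, pt_trace]
  push_cast
  ring

end Pool.Agent.Helper228.MM
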