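import Pool.Agent.Helper228.MM.Defs
import Pool.Agent.Helper228.MM.P_energy_cont
import Pool.Agent.Helper228.MM.P_model_prob
import Pool.Agent.Helper228.MM.P_tk_int
import Pool.Agent.Helper228.MM.P_exp_conv
import Pool.Agent.Helper228.MM.P_poly_trace

/-!
Definitions for the quartic one-matrix model `P(A) = A^4/4 - A^2` (MP_58f2bb_an).
-/

open MeasureTheory Filter Topology

namespace Pool.Agent.Helper228.MM



theorem ecp_tk0 (n : ℕ) (hn : 1 ≤ n) (x : Fin n → Fin n → ℝ) : tk n 0 x = 1 := by
  unfold tk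
  rw [pow_zero, Matrix.trace_one, Fintype.card_fin]
  have : (n : ℝ) ≠ 0 := by
    have : (0 : ℝ) < n := by exact_mod_cast hn
    exact this.ne'
  simp [this]

theorem ecp_int (n k : ℕ) (hn : 1 ≤ n) :
    Integrable (fun x => |tk n k x - mom k|) (model n) := by
  haveI := (model_prob n hn).1
  have h1 := tk_int n k 0 0 0 hn
  simp only [ecp_tk0 n hn, mul_one] at h1
  exact (h1.sub (integrable_const _)).abs

theorem exp_conv_poly (p : Polynomial ℂ) :
    Tendsto (fun n : ℕ => ∫ x, ‖Matrix.trace (Polynomial.aeval (herm n x) p) / (n : ℂ)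
        - ∫ y : ℝ, p.eval (y : ℂ) ∂rho‖ ∂(model n)) atTop (𝓝 0) := by
  have hlim : Tendsto (fun n : ℕ => ∑ k ∈ p.support, ‖p.coeff k‖ *
      ∫ x, |tk n k x - mom k| ∂(model n)) atTop (𝓝 0) := by
    have h1 : Tendsto (fun n : ℕ => ∑ k ∈ p.support, ‖p.coeff k‖ *
      ∫ x, |tk n k x - mom k| ∂(model n)) atTop (𝓝 (∑ k ∈ p.support, ‖p.coeff k‖ * 0)) :=
      tendsto_finsetSum _ fun k _ => (exp_conv k).const_mul _
    simpa using h1
  refine squeeze_zero' (Filter.Eventually.of_forall fun n => integral_nonneg fun x => norm_nonneg _)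
    ?_ hlim
  filter_upwards [Filter.eventually_ge_atTop 1] with n hn
  have hI : ∀ k ∈ p.support, Integrable (fun x => ‖p.coeff k‖ * |tk n k x - mom k|) (model n) :=
    fun k _ => (ecp_int n k hn).const_mul _
  calc ∫ x, ‖Matrix.trace (Polynomial.aeval (herm n x) p) / (n : ℂ)
        - ∫ y : ℝ, p.eval (y : ℂ) ∂rho‖ ∂(model n)
      ≤ ∫ x, ∑ k ∈ p.support, ‖p.coeff k‖ * |tk n k x - mom k| ∂(model n) := by
        refine integral_mono_of_nonneg (Filter.Eventually.of_forall fun x => norm_nonneg _)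
          (integrable_finsetSum _ hI) (Filter.Eventually.of_forall fun x => ?_)
        simp only
        rw [poly_trace, Polynomial.sum_def]
        refine (norm_sum_le _ _).trans (le_of_eq ?_)
        refine Finset.sum_congr rfl fun k _ => ?_
        rw [norm_mul, Complex.norm_real, Real.norm_eq_abs]
    _ = ∑ k ∈ p.support, ‖p.coeff k‖ * ∫ x, |tk n k x - mom k| ∂(model n) := by
        rw [integral_finsetSum _ hI]
        refine Finset.sum_congr rfl fun k _ => ?_
        rw [integral_const_mul]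

end Pool.Agent.Helper228.MM
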