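import Pool.Agent.Helper228.MM.Defs
import Pool.Agent.Helper228.MM.P_energy_cont
import Pool.Agent.Helper228.MM.P_model_prob
import Pool.Agent.Helper228.MM.P_tk_int
import Pool.Agent.Helper228.MM.P_poly_trace
import Pool.Agent.Helper228.MM.P_exp_conv_poly

/-!
Definitions for the quartic one-matrix model `P(A) = A^4/4 - A^2` (MP_58f2bb_an).
-/

open MeasureTheory Filter Topology

namespace Pool.Agent.Helper228.MM



theorem tk_zero_eq (n : ℕ) (hn : 1 ≤ n) (x : Fin n → Fin n → ℝ) : tk n 0 x = 1 := by
  have hn0 : (n : ℝ) ≠ 0 := by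
    have : (0 : ℝ) < n := by exact_mod_cast hn
    exact this.ne'
  unfold tk
  rw [pow_zero, Matrix.trace_one, Fintype.card_fin, Complex.natCast_re, div_self hn0]

theorem tk_integrable (n k : ℕ) (hn : 1 ≤ n) : Integrable (fun x => tk n k x) (model n) := by
  have h := tk_int n k 0 0 0 hn
  refine h.congr (Filter.Eventually.of_forall fun x => ?_)
  simp only [tk_zero_eq n hn x, mul_one]

theorem trace_integrable (n : ℕ) (hn : 1 ≤ n) (p : Polynomial ℂ) :
    Integrable (fun x => Matrix.trace (Polynomial.aeval (herm n x) p) / (n : ℂ)) (model n) := by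
  haveI := (model_prob n hn).1
  have h1 : (fun x => Matrix.trace (Polynomial.aeval (herm n x) p) / (n : ℂ)) =
      fun x => (∫ y : ℝ, p.eval (y : ℂ) ∂rho) +
        ∑ k ∈ p.support, p.coeff k * (((tk n k x - mom k : ℝ)) : ℂ) := by
    funext x
    have h2 := poly_trace n x p
    rw [Polynomial.sum_def] at h2
    rw [← h2]
    ring
  rw [h1]
  refine (integrable_const _).add (integrable_finset_sum _ fun k _ => ?_)
  exact (((tk_integrable n k hn).sub (integrable_const _)).ofReal).const_mul _

theorem exp_conv_poly2 (p : Polynomial ℂ) :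
    Tendsto (fun n : ℕ => ∫ x, Matrix.trace (Polynomial.aeval (herm n x) p) / (n : ℂ) ∂(model n))
      atTop (𝓝 (∫ y : ℝ, p.eval (y : ℂ) ∂rho)) := by
  rw [tendsto_iff_norm_sub_tendsto_zero]
  refine squeeze_zero' (Filter.Eventually.of_forall fun n => norm_nonneg _) ?_ (exp_conv_poly p)
  filter_upwards [Filter.eventually_ge_atTop 1] with n hn
  haveI := (model_prob n hn).1
  have h1 : (∫ x, Matrix.trace (Polynomial.aeval (herm n x) p) / (n : ℂ) ∂(model n)) -
      (∫ y : ℝ, p.eval (y : ℂ) ∂rho) =
      ∫ x, (Matrix.trace (Polynomial.aeval (herm n x) p) / (n : ℂ) -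
        (∫ y : ℝ, p.eval (y : ℂ) ∂rho)) ∂(model n) := by
    rw [integral_sub (trace_integrable n hn p) (integrable_const _), integral_const]
    simp
  rw [h1]
  exact norm_integral_le_integral_norm _

end Pool.Agent.Helper228.MM
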