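import Pool.Agent.Helper228.MM.P_S_var
import Pool.Agent.Helper228.MM.P_deriv_trace
import Pool.Agent.Helper228.MM.P_det_bound
import Pool.Agent.Helper228.MM.P_det_stab
import Pool.Agent.Helper228.MM.P_div_alg
import Pool.Agent.Helper228.MM.P_energy_cont
import Pool.Agent.Helper228.MM.P_energy_deriv
import Pool.Agent.Helper228.MM.P_entry_bound
import Pool.Agent.Helper228.MM.P_exp_conv
import Pool.Agent.Helper228.MM.P_exp_conv_poly
import Pool.Agent.Helper228.MM.P_exp_conv_poly2
import Pool.Agent.Helper228.MM.P_fin_approx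
import Pool.Agent.Helper228.MM.P_fin_deriv
import Pool.Agent.Helper228.MM.P_gl_a
import Pool.Agent.Helper228.MM.P_gl_b
import Pool.Agent.Helper228.MM.P_herm_lin
import Pool.Agent.Helper228.MM.P_ibp_dir
import Pool.Agent.Helper228.MM.P_integrable_weight
import Pool.Agent.Helper228.MM.P_lim_exists
import Pool.Agent.Helper228.MM.P_lim_growth
import Pool.Agent.Helper228.MM.P_lim_quad
import Pool.Agent.Helper228.MM.P_lim_sum
import Pool.Agent.Helper228.MM.P_lim_unique
import Pool.Agent.Helper228.MM.P_loop_ibp
import Pool.Agent.Helper228.MM.P_loop_model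
import Pool.Agent.Helper228.MM.P_loop_series
import Pool.Agent.Helper228.MM.P_mean_ineq
import Pool.Agent.Helper228.MM.P_mean_ineq_b
import Pool.Agent.Helper228.MM.P_model_int
import Pool.Agent.Helper228.MM.P_model_prob
import Pool.Agent.Helper228.MM.P_mom_loop
import Pool.Agent.Helper228.MM.P_mom_val
import Pool.Agent.Helper228.MM.P_moment_bound
import Pool.Agent.Helper228.MM.P_noroot_of_sqrt
import Pool.Agent.Helper228.MM.P_poly_trace
import Pool.Agent.Helper228.MM.P_prob_conv
import Pool.Agent.Helper228.MM.P_prob_conv_poly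
import Pool.Agent.Helper228.MM.P_rho_basic
import Pool.Agent.Helper228.MM.P_sum_trace_mid
import Pool.Agent.Helper228.MM.P_sum_trace_trace
import Pool.Agent.Helper228.MM.P_tk_bound
import Pool.Agent.Helper228.MM.P_tk_deriv
import Pool.Agent.Helper228.MM.P_tk_eigen
import Pool.Agent.Helper228.MM.P_tk_int
import Pool.Agent.Helper228.MM.P_trace_hb_bound
import Pool.Agent.Helper228.MM.P_trace_re
import Pool.Agent.Helper228.MM.P_weight_bound
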