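import Mathlib

/-!
Definitions for the quartic one-matrix model `P(A) = A^4/4 - A^2` (MP_58f2bb_an).
-/

open MeasureTheory Filter Topology

namespace Pool.Agent.Helper228.MM

/-- Density of the limit law: `x^2 √(4-x^2) / (2π)` (it vanishes outside `[-2,2]`, as
`Real.sqrt` is zero on negative numbers). -/
noncomputable def rhoD (x : ℝ) : ℝ := x ^ 2 * Real.sqrt (4 - x ^ 2) / (2 * Real.pi)

/-- The limit law. -/
noncomputable def rho : Measure ℝ := volume.withDensity fun x => ENNReal.ofReal (rhoD x)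

/-- Linear parametrisation of the Hermitian `n × n` matrices by `ℝ^{n×n}`:
`A_{jk} = ((1+i) x_{jk} + (1-i) x_{kj}) / 2`. -/
noncomputable def herm (n : ℕ) (x : Fin n → Fin n → ℝ) : Matrix (Fin n) (Fin n) ℂ :=
  Matrix.of fun j k => ((1 + Complex.I) * (x j k : ℂ) + (1 - Complex.I) * (x k j : ℂ)) / 2

/-- The exponent `- n Tr P(A)`, `P(A) = A^4/4 - A^2`. -/
noncomputable def energy (n : ℕ) (x : Fin n → Fin n → ℝ) : ℝ :=
  -(n : ℝ) * (Matrix.trace ((1 / 4 : ℂ) • herm n x ^ 4 - herm n x ^ 2)).re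

/-- The matrix model: the probability measure proportional to `exp(- n Tr P(A)) dA`. -/
noncomputable def model (n : ℕ) : Measure (Fin n → Fin n → ℝ) := volume.tilted (energy n)

/-- Normalised trace of the `k`-th power. -/
noncomputable def tk (n k : ℕ) (x : Fin n → Fin n → ℝ) : ℝ :=
  (Matrix.trace (herm n x ^ k)).re / n

/-- The `k`-th loop (Schwinger-Dyson) expression of a moment sequence. -/
def Sk (t : ℕ → ℝ) (k : ℕ) : ℝ :=
  (∑ l ∈ Finset.range k, t l * t (k - 1 - l)) - t (k + 3) + 2 * t (k + 1)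

/-- moments of the limit law -/
noncomputable def mom (k : ℕ) : ℝ := ∫ x, x ^ k ∂rho

/-- `q(x) = ∑ x_{jk}^2 = Tr A^2` -/
def qf (n : ℕ) (x : Fin n → Fin n → ℝ) : ℝ := ∑ j, ∑ k, x j k ^ 2

/-- The coordinate basis of the Hermitian matrices. -/
noncomputable def hb (n : ℕ) (j k : Fin n) : Matrix (Fin n) (Fin n) ℂ :=
  herm n (Pi.single j (Pi.single k 1))

/-- The limit data extracted from approximate solutions of the loop equations. -/
structure LimData (τ : ℕ → ℝ) (G : ℂ → ℂ) : Prop where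
  zero : τ 0 = 1
  loop : ∀ k, Sk τ k = 0
  sq : ∀ k, τ k ^ 2 ≤ τ (2 * k)
  diff : DifferentiableOn ℂ G {z : ℂ | 0 < z.im}
  approx : ∀ z : ℂ, 0 < z.im → ∀ j : ℕ,
    ‖G z - ∑ k ∈ Finset.range (2 * j), (τ k : ℂ) / z ^ (k + 1)‖ ≤ τ (2 * j) / (‖z‖ ^ (2 * j) * z.im)

end Pool.Agent.Helper228.MM
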