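import Pool.Agent.Helper228.MM.Defs
import Pool.Agent.Helper228.MM.P_model_prob
import Pool.Agent.Helper228.MM.P_prob_conv
import Pool.Agent.Helper228.MM.P_poly_trace

/-!
Definitions for the quartic one-matrix model `P(A) = A^4/4 - A^2` (MP_58f2bb_an).
-/

open MeasureTheory Filter Topology

namespace Pool.Agent.Helper228.MM



theorem prob_conv_poly (p : Polynomial ℂ) (ε : ℝ) (hε : 0 < ε) : ∃ C : ℝ, ∀ n : ℕ, 1 ≤ n →
    (model n).real {x | ε < ‖Matrix.trace (Polynomial.aeval (herm n x) p) / (n : ℂ)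
        - ∫ y : ℝ, p.eval (y : ℂ) ∂rho‖} ≤ C / (n : ℝ) ^ 2 := by
  classical
  set A : ℝ := ∑ k ∈ p.support, ‖p.coeff k‖ with hA
  have hA0 : 0 ≤ A := Finset.sum_nonneg fun k _ => norm_nonneg _
  have he : 0 < ε / (A + 1) := by positivity
  choose C hC0 hC using fun k => prob_conv k (ε / (A + 1)) he
  refine ⟨∑ k ∈ p.support, C k, ?_⟩
  intro n hn
  haveI := (model_prob n hn).1
  have hsub : {x | ε < ‖Matrix.trace (Polynomial.aeval (herm n x) p) / (n : ℂ)
        - ∫ y : ℝ, p.eval (y : ℂ) ∂rho‖} ⊆ ⋃ k ∈ p.support, {x | ε / (A + 1) < |tk n k x - mom k|} := by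
    intro x hx
    have hx' : ε < ‖Matrix.trace (Polynomial.aeval (herm n x) p) / (n : ℂ)
        - ∫ y : ℝ, p.eval (y : ℂ) ∂rho‖ := hx
    rw [poly_trace, Polynomial.sum_def] at hx'
    by_contra hcon
    simp only [Set.mem_iUnion, not_exists] at hcon
    have h1 : ∀ k ∈ p.support, |tk n k x - mom k| ≤ ε / (A + 1) := fun k hk => not_lt.1 (hcon k hk)
    have h2 : ‖∑ k ∈ p.support, p.coeff k * (((tk n k x - mom k : ℝ)) : ℂ)‖ ≤ A * (ε / (A + 1)) := by
      refine (norm_sum_le _ _).trans ?_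
      rw [hA, Finset.sum_mul]
      apply Finset.sum_le_sum
      intro k hk
      rw [norm_mul, Complex.norm_real, Real.norm_eq_abs]
      exact mul_le_mul_of_nonneg_left (h1 k hk) (norm_nonneg _)
    have h3 : A * (ε / (A + 1)) ≤ ε := by
      rw [mul_div_assoc', div_le_iff₀ (by positivity)]
      nlinarith
    linarith
  refine (measureReal_mono hsub (measure_ne_top _ _)).trans ((measureReal_biUnion_finset_le _ _).trans ?_)
  rw [Finset.sum_div]
  exact Finset.sum_le_sum fun k _ => hC k n hn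

end Pool.Agent.Helper228.MM
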